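import Pool.Agent.MXR.Word
import Pool.Agent.NUG.Ring

/-!
# The rings with alternating rows on sites (module M1 of nu34/22a)

`arc_right`, `arc_left`: the iterated ring, evaluated at the empty state on the indicator of an arc, is the sum over
the words of the half cylinder.  `ws_le`: the words of the cylinder between the two cut edges are bounded by the
iterated rings of the two halves on the glued indicator of the arc.
-/

set_option autoImplicit false

namespace Pool.Agent.MXR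

open Pool.Agent.EXL hiding cc
open Pool.Agent.EXL.Pat Pool.Agent.EXL.Net HexObs HexObs.LP
open Pool.Agent.NUF.Cyl (Nm Co_eq_glue glue_congr)
open Pool.Agent.NUN (cc Xr Xl)
open Pool.Agent.NUNC (dd)

variable {K : Type*} [CommRing K] {L : ℕ} {hL : 1 ≤ L}

/-- the right halves of the lines. -/
def XR (N : ℕ) : List (NUF.St N) := (List.finRange N).map Xr

/-- the left halves of the lines, from the top to the bottom. -/
def XL (N : ℕ) : List (NUF.St N) := ((List.finRange N).map Xl).reverse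

/-- The lines of the list are glued. -/
noncomputable def gS (K : Type*) [CommRing K] {N : ℕ} (l : List (Fin N)) : Op (NUF.St N) K :=
  (l.map fun a => (Co (Xr a) (Xl a) : Op (NUF.St N) K)).prod

/-- the list contains exactly the rows different from i, j. -/
def Rest {N : ℕ} (l : List (Fin N)) (i j : Fin N) : Prop := l.Nodup ∧ ∀ a, a ∈ l ↔ a ≠ i ∧ a ≠ j

/-! ### from the sites to the labels -/

theorem Co_lft {α β : Type*} [DecidableEq α] [DecidableEq β] (κ : β → α) (h : Function.Injective κ) (i j : β)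
    (F : Pat α → K) (q : Pat β) : Co (κ i) (κ j) F (lft κ h q) = Co i j (fun q => F (lft κ h q)) q := by
  rw [Co_eq_glue, Co_eq_glue]
  exact glue_st (femb κ h) F q i j

theorem lft_empty {α β : Type*} [DecidableEq α] [DecidableEq β] (κ : β → α) (h : Function.Injective κ) :
    lft κ h (Pat.empty : Pat β) = Pat.empty := by
  apply Pat.ext
  funext x
  show lft κ h (Pat.empty : Pat β) x = x
  by_cases hx : ∃ b, κ b = x
  · obtain ⟨b, rfl⟩ := hx
    rw [lft_apply]
    rfl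
  · exact lft_of_notMem _ _ _ hx

theorem ind_lft {α β : Type*} [DecidableEq α] [DecidableEq β] (κ : β → α) (h : Function.Injective κ) (i j : β)
    (q : Pat β) : (HS.ind (cup (κ i) (κ j) Pat.empty) : Pat α → K) (lft κ h q) =
      HS.ind (cup i j Pat.empty) q := by
  have e : cup (κ i) (κ j) Pat.empty = lft κ h (cup i j (Pat.empty : Pat β)) := by
    rw [← cup_lft, lft_empty]
  rw [e]
  by_cases c : q = cup i j Pat.empty
  · rw [c, HS.ind_self, HS.ind_self]
  · rw [HS.ind_ne c, HS.ind_ne fun e => c (Net.lft_injective κ h e)]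

theorem gS_lft {N : ℕ} (l : List (Fin N)) (s t : NUF.St N) (q : Pat (NUF.St N)) :
    ((l.map fun a : Fin N => (Co (lf 0 ((a : ℕ) : ℤ)) (rt (-1) ((a : ℕ) : ℤ)) : Op Lab K)).prod)
      (HS.ind (cup (fr N (fun _ => 0) (fun _ => -1) 0 0 s) (fr N (fun _ => 0) (fun _ => -1) 0 0 t) Pat.empty))
        (Fr (fun _ => 0) (fun _ => -1) 0 0 q) = gS K l (HS.ind (cup s t Pat.empty)) q := by
  induction l generalizing q with
  | nil => exact ind_lft _ (fr_inj _ _ _ _) s t q
  | cons a l ih =>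
    unfold gS at ih ⊢
    rw [List.map_cons, List.prod_cons, List.map_cons, List.prod_cons, Module.End.mul_apply, Module.End.mul_apply,
      ← funext ih]
    have e1 : fr N (fun _ => 0) (fun _ => -1) 0 0 (Xr a) = lf 0 ((a : ℕ) : ℤ) := by
      rw [fr_Xr, mul_zero]
    have e2 : fr N (fun _ => 0) (fun _ => -1) 0 0 (Xl a) = rt (-1) ((a : ℕ) : ℤ) := by
      rw [fr_Xl]
      norm_num
    rw [← e1, ← e2]
    exact Co_lft (fr N (fun _ => 0) (fun _ => -1) 0 0) (fr_inj _ _ _ _) (Xr a) (Xl a) _ q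

/-! ### the sorted network on the labels -/

/-- the item of the line a at the cut. -/
def cI {N : ℕ} (a : Fin N) : ℤ × ℤ × Bool := (-1, ((a : ℕ) : ℤ), false)

theorem Ed_eq {n m : ℕ} {i j : Fin (2 * L)} {l : List (Fin (2 * L))} (hl : Rest l i j) :
    (∀ t, t ∈ cA (2 * L) n m ++ l.map cI ↔ t ∈ iB (2 * L) n m ((i : ℕ) : ℤ) ((j : ℕ) : ℤ)) := by
  rintro ⟨x, a, b⟩
  unfold iB
  rw [List.mem_append, List.mem_append, mem_gI, List.mem_map]
  constructor
  · rintro (h | ⟨c, hc, e⟩)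
    · exact Or.inl h
    · unfold cI at e
      rw [Prod.mk.injEq, Prod.mk.injEq] at e
      obtain ⟨rfl, rfl, rfl⟩ := e
      have h1 := (hl.2 c).1 hc
      refine Or.inr ⟨rfl, rfl, ⟨by positivity, by exact_mod_cast c.2⟩, ?_, ?_⟩
      · intro h
        exact h1.1 (Fin.ext (by exact_mod_cast h))
      · intro h
        exact h1.2 (Fin.ext (by exact_mod_cast h))
  · rintro (h | ⟨rfl, rfl, ⟨h1, h2⟩, h3, h4⟩)
    · exact Or.inl h
    · obtain ⟨c, rfl⟩ := Int.eq_ofNat_of_zero_le h1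
      have hc : c < 2 * L := by exact_mod_cast h2
      refine Or.inr ⟨⟨c, hc⟩, (hl.2 _).2 ⟨?_, ?_⟩, rfl⟩
      · intro e
        exact h3 (by rw [← e])
      · intro e
        exact h4 (by rw [← e])

theorem Ed_congr {l l' : List (ℤ × ℤ × Bool)} (h : ∀ t, t ∈ l ↔ t ∈ l') : Ed L hL l = Ed L hL l' := by
  ext e
  rw [mem_Ed, mem_Ed]
  simp only [h]

theorem CO_congr {C : Nm} {E E' : Finset (Sym2 Lab)} (hE : C.Edg E) (hE' : C.Edg E') (h : E = E') :
    Nm.CO K E hE = Nm.CO K E' hE' := by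
  subst h
  rfl

/-- the network of the rings with the glued function, sorted. -/
theorem sorted (y : K) {n m : ℕ} {i j : Fin (2 * L)} {l : List (Fin (2 * L))} (hl : Rest l i j)
    (F : Pat Lab → K) :
    (rTot y (2 * L) n * lTot y (2 * L) m)
      ((l.map fun a : Fin (2 * L) => (Co (lf 0 ((a : ℕ) : ℤ)) (rt (-1) ((a : ℕ) : ℤ)) : Op Lab K)).prod F)
        Pat.empty =
      (CR y (Dm L n m) * Nm.CO K (Ed L hL (iB (2 * L) n m ((i : ℕ) : ℤ) ((j : ℕ) : ℤ))) (Edg_Ed iB_sub)) F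
        Pat.empty := by
  rw [tot_sort (hL := hL), CR_vA]
  have h1 : ∀ a : Fin (2 * L), (CoS ((Cv L hL).ed (he (cI a))) : Op Lab K) =
      Co (lf 0 ((a : ℕ) : ℤ)) (rt (-1) ((a : ℕ) : ℤ)) := by
    intro a
    unfold cI
    rw [Ced_false (by positivity) (by exact_mod_cast a.2)]
    exact Co_symm _ _
  have h2 : (l.map fun a : Fin (2 * L) => (Co (lf 0 ((a : ℕ) : ℤ)) (rt (-1) ((a : ℕ) : ℤ)) : Op Lab K)) =
      (l.map cI).map (fun t => (CoS ((Cv L hL).ed (he t)) : Op Lab K)) := by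
    rw [List.map_map]
    exact List.map_congr_left fun a _ => (h1 a).symm
  have hm := Ed_eq (n := n) (m := m) hl
  have hs : ∀ t ∈ cA (2 * L) n m ++ l.map cI, t ∈ iA (2 * L) n m := fun t ht => iB_sub t ((hm t).1 ht)
  have hn : (cA (2 * L) n m ++ l.map cI).Nodup := by
    have h3 := nodup_iA (2 * L) n m
    unfold iA at h3
    rw [List.nodup_append] at h3 ⊢
    refine ⟨h3.1, ?_, ?_⟩
    · refine hl.1.map ?_
      intro a b e
      unfold cI at e
      rw [Prod.mk.injEq, Prod.mk.injEq] at e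
      exact Fin.ext (by exact_mod_cast e.2.1)
    · intro t ht t' ht' e
      rw [List.mem_map] at ht'
      obtain ⟨a, -, rfl⟩ := ht'
      exact h3.2.2 t ht (cI a) (List.mem_map.2 ⟨(a : ℕ), List.mem_range.2 a.2, rfl⟩) e
  have h4 := CO_Ed (K := K) (hL := hL) hs hn
  rw [List.map_append, List.prod_append] at h4
  rw [h2]
  have h5 : ∀ (A B C : Op Lab K), (A * B) (C F) Pat.empty = (A * (B * C)) F Pat.empty := fun A B C => rfl
  rw [h5, h4]
  rw [CO_congr (K := K) (Edg_Ed hs) (Edg_Ed iB_sub) (Ed_congr hm)]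

/-- **The rings of both halves = the sorted network.** -/
theorem rings_eq (y : K) {n m : ℕ} {i j : Fin (2 * L)} {l : List (Fin (2 * L))} (hl : Rest l i j)
    (s t : NUF.St (2 * L)) :
    (NUG.ringF (wA y (2 * L)) cc dd (XR (2 * L)))^[n] ((NUG.ringF (wA y (2 * L)) cc dd (XL (2 * L)))^[m]
      (gS K l (HS.ind (cup s t Pat.empty)))) Pat.empty =
      (CR y (Dm L n m) * Nm.CO K (Ed L hL (iB (2 * L) n m ((i : ℕ) : ℤ) ((j : ℕ) : ℤ))) (Edg_Ed iB_sub))
        (HS.ind (cup (fr (2 * L) (fun _ => 0) (fun _ => -1) 0 0 s) (fr (2 * L) (fun _ => 0) (fun _ => -1) 0 0 t)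
          Pat.empty)) Pat.empty := by
  rw [← sorted (hL := hL) y hl, tot_eq]
  have e : (fun q => ((l.map fun a : Fin (2 * L) => (Co (lf 0 ((a : ℕ) : ℤ)) (rt (-1) ((a : ℕ) : ℤ)) :
      Op Lab K)).prod) (HS.ind (cup (fr (2 * L) (fun _ => 0) (fun _ => -1) 0 0 s)
        (fr (2 * L) (fun _ => 0) (fun _ => -1) 0 0 t) Pat.empty)) (Fr (fun _ => 0) (fun _ => -1) 0 0 q)) =
      gS K l (HS.ind (cup s t Pat.empty)) := funext fun q => gS_lft l s t q
  rw [e]
  rfl

/-! ### the half cylinders -/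

theorem nodup_XR (N : ℕ) : (XR N).Nodup := by
  refine (List.nodup_finRange N).map ?_
  intro a b h
  unfold Xr at h
  simpa using h

theorem nodup_XL (N : ℕ) : (XL N).Nodup := by
  unfold XL
  rw [List.nodup_reverse]
  refine (List.nodup_finRange N).map ?_
  intro a b h
  unfold Xl at h
  simpa using h

theorem Xr_mem {N : ℕ} (a : Fin N) : Xr a ∈ XR N := List.mem_map.2 ⟨a, List.mem_finRange a, rfl⟩

theorem Xl_mem {N : ℕ} (a : Fin N) : Xl a ∈ XL N :=
  List.mem_reverse.2 (List.mem_map.2 ⟨a, List.mem_finRange a, rfl⟩)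

theorem Xl_notMem {N : ℕ} (a : Fin N) : Xl a ∉ XR N := by
  intro h
  obtain ⟨b, -, e⟩ := List.mem_map.1 h
  unfold Xr Xl at e
  simp at e

theorem Xr_notMem {N : ℕ} (a : Fin N) : Xr a ∉ XL N := by
  intro h
  obtain ⟨b, -, e⟩ := List.mem_map.1 (List.mem_reverse.1 h)
  unfold Xr Xl at e
  simp at e

theorem cc_XR (N : ℕ) : (cc : NUF.St N) ∉ XR N := by
  intro h
  obtain ⟨b, -, e⟩ := List.mem_map.1 h
  unfold Xr at e
  simp at e

theorem dd_XR (N : ℕ) : (dd : NUF.St N) ∉ XR N := by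
  intro h
  obtain ⟨b, -, e⟩ := List.mem_map.1 h
  unfold Xr at e
  simp at e

theorem cc_XL (N : ℕ) : (cc : NUF.St N) ∉ XL N := by
  intro h
  obtain ⟨b, -, e⟩ := List.mem_map.1 (List.mem_reverse.1 h)
  unfold Xl at e
  simp at e

theorem dd_XL (N : ℕ) : (dd : NUF.St N) ∉ XL N := by
  intro h
  obtain ⟨b, -, e⟩ := List.mem_map.1 (List.mem_reverse.1 h)
  unfold Xl at e
  simp at e

theorem cc_ne_dd (N : ℕ) : (cc : NUF.St N) ≠ dd := by simp

/-- the gluing of lines whose left (right) halves are empty. -/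
theorem gS_arc {N : ℕ} {l : List (Fin N)} {i j : Fin N} (hl : ∀ a ∈ l, a ≠ i ∧ a ≠ j) {p : Pat (NUF.St N)}
    (b : Bool) (hp : ∀ a, p (if b then Xr a else Xl a) = (if b then Xr a else Xl a)) :
    gS K l (HS.ind (cup (if b then Xl i else Xr i) (if b then Xl j else Xr j) Pat.empty)) p =
      HS.ind (cup (if b then Xl i else Xr i) (if b then Xl j else Xr j) Pat.empty) p := by
  induction l with
  | nil => rfl
  | cons a l ih =>
    unfold gS at ih ⊢
    rw [List.map_cons, List.prod_cons, Module.End.mul_apply, Co_apply]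
    have ih' := ih fun c hc => hl c (by simp [hc])
    have ha := hl a (by simp)
    by_cases c1 : p (if b then Xl a else Xr a) = (if b then Xl a else Xr a)
    · have c2 : p (Xr a) = Xr a ∧ p (Xl a) = Xl a := by
        have := hp a
        cases b
        · exact ⟨c1, this⟩
        · exact ⟨this, c1⟩
      rw [if_pos c2]
      exact ih'
    · have c2 : ¬ (p (Xr a) = Xr a ∧ p (Xl a) = Xl a) := by
        cases b
        · exact fun h => c1 h.1
        · exact fun h => c1 h.2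
      have c3 : p (Xr a) = Xr a ∨ p (Xl a) = Xl a ∨ p (Xr a) = Xl a := by
        have := hp a
        cases b
        · exact Or.inr (Or.inl this)
        · exact Or.inl this
      rw [if_neg c2, if_pos c3]
      symm
      apply HS.ind_ne
      rintro rfl
      apply c1
      cases b
      · simp only [Bool.false_eq_true, if_false]
        rw [cup_e rfl rfl, if_neg, if_neg]
        · rfl
        · intro h
          unfold Xr at h
          exact ha.2 (by simpa using h)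
        · intro h
          unfold Xr at h
          exact ha.1 (by simpa using h)
      · simp only [if_true]
        rw [cup_e rfl rfl, if_neg, if_neg]
        · rfl
        · intro h
          unfold Xl at h
          exact ha.2 (by simpa using h)
        · intro h
          unfold Xl at h
          exact ha.1 (by simpa using h)

theorem Dm0_right (n : ℕ) (i j : ℤ) : Dm0 L n 0 i j = Dm L n 0 := by
  unfold Dm0
  have h : ∀ a : ℤ, V (-1) a ∉ Dm L n 0 := by
    intro a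
    rw [mem_Dm]
    omega
  rw [Finset.erase_eq_of_notMem (h i), Finset.erase_eq_of_notMem (h j)]

theorem iter_pres {α : Type*} {A : Pat α → Prop} {T : (Pat α → K) → (Pat α → K)} (h : HS.Pres A A T) (n : ℕ)
    {F G : Pat α → K} (hFG : ∀ p, A p → F p = G p) : ∀ p, A p → T^[n] F p = T^[n] G p := by
  induction n with
  | zero => exact hFG
  | succ n ih =>
    intro p hp
    rw [Function.iterate_succ_apply', Function.iterate_succ_apply']
    exact h _ _ ih p hp

/-- the rows different from i, j. -/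
def restL {N : ℕ} (i j : Fin N) : List (Fin N) := (List.finRange N).filter (fun a => a ≠ i ∧ a ≠ j)

theorem rest_restL {N : ℕ} (i j : Fin N) : Rest (restL i j) i j := by
  refine ⟨(List.nodup_finRange N).filter _, fun a => ?_⟩
  unfold restL
  rw [List.mem_filter]
  simp

/-- **The iterated ring of the right half on an arc.** -/
theorem arc_right (hL : 1 ≤ L) (y : K) {i j : Fin (2 * L)} (hij : i ≠ j) (n : ℕ) :
    (NUG.ringF (wA y (2 * L)) cc dd (XR (2 * L)))^[n] (HS.ind (cup (Xr i) (Xr j) Pat.empty)) Pat.empty =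
      (Cv L hL).Ws y (Dm L n 0) {(V (-1) ((j : ℕ) : ℤ), dR (-1) ((j : ℕ) : ℤ))}
        (V (-1) ((i : ℕ) : ℤ), dR (-1) ((i : ℕ) : ℤ)) := by
  have h1 := rings_eq (hL := hL) y (n := n) (m := 0) (rest_restL i j) (Xr i) (Xr j)
  rw [fr_Xr, fr_Xr, mul_zero] at h1
  have h2 := word (hL := hL) y (n := n) (m := 0) (i := ((i : ℕ) : ℤ)) (j := ((j : ℕ) : ℤ)) (by positivity)
    (by exact_mod_cast i.2) (by positivity) (by exact_mod_cast j.2)
    (fun e => hij (Fin.ext (by exact_mod_cast e)))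
  rw [Dm0_right] at h2
  rw [h2] at h1
  rw [← h1]
  refine (iter_pres (NUG.pres_ringF _ (nodup_XR _) (cc_ne_dd _) (cc_XR _) (dd_XR _)) n (fun p hp => ?_) _
    (NUF.ax_empty _)).symm
  exact gS_arc (K := K) (fun a ha => ((rest_restL i j).2 a).1 ha) false (fun a => NUF.ax_out hp (Xl_notMem a))

/-- the word formula, arcs of the left half. -/
theorem word_left (y : K) {m : ℕ} {i j : ℤ} (i0 : 0 ≤ i) (i1 : i < 2 * L) (j0 : 0 ≤ j) (j1 : j < 2 * L)
    (hij : i ≠ j) :
    (CR y (Dm L 0 m) * Nm.CO K (Ed L hL (iB (2 * L) 0 m i j)) (Edg_Ed iB_sub))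
        (HS.ind (cup (rt (-1) i) (rt (-1) j) Pat.empty)) Pat.empty =
      (Cv L hL).Ws y (Dm L 0 m) {(V 0 j, dL 0 j)} (V 0 i, dL 0 i) := by
  classical
  have hp : (Cv L hL).De (V 0 i, dL 0 i) := ⟨De_V.2 (Or.inr (Or.inl rfl)), nm_V i0 i1⟩
  have hq : (Cv L hL).De (V 0 j, dL 0 j) := ⟨De_V.2 (Or.inr (Or.inl rfl)), nm_V j0 j1⟩
  have m0 : (-1, i, false) ∈ iA (2 * L) 0 m :=
    mem_iA.2 ⟨⟨i0, by push_cast; exact i1⟩, fun h => by simp at h, fun _ => by omega⟩
  have m1 : (-1, j, false) ∈ iA (2 * L) 0 m :=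
    mem_iA.2 ⟨⟨j0, by push_cast; exact j1⟩, fun h => by simp at h, fun _ => by omega⟩
  have a1 : V 0 i ∉ Dm L 0 m := by
    rw [mem_Dm]
    omega
  have a2 : V 0 j ∉ Dm L 0 m := by
    rw [mem_Dm]
    omega
  have r1 : (Cv L hL).rv (V 0 i, dL 0 i) = (V (-1) i, dR (-1) i) := by
    rw [rv_L i0 i1]
    norm_num
  have r2 : (Cv L hL).rv (V 0 j, dL 0 j) = (V (-1) j, dR (-1) j) := by
    rw [rv_L j0 j1]
    norm_num
  have d1 : (Cv L hL).ed (V 0 i, dL 0 i) = (Cv L hL).ed (he (-1, i, false)) := by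
    rw [← Nm.ed_rv (h := (V 0 i, dL 0 i)) hp.2, r1]
    rfl
  have d2 : (Cv L hL).ed (V 0 j, dL 0 j) = (Cv L hL).ed (he (-1, j, false)) := by
    rw [← Nm.ed_rv (h := (V 0 j, dL 0 j)) hq.2, r2]
    rfl
  have e1 : (Cv L hL).ed (V 0 i, dL 0 i) ∉ Ed L hL (iB (2 * L) 0 m i j) := by
    intro h
    obtain ⟨t, ht, e⟩ := mem_Ed.1 h
    have h1 : t = (-1, i, false) := ed_inj rfl (iB_sub t ht) m0 (e.trans d1)
    subst h1
    exact (mem_iB.1 ht).2 ⟨rfl, rfl, Or.inl rfl⟩
  have e2 : (Cv L hL).ed (V 0 j, dL 0 j) ∉ Ed L hL (iB (2 * L) 0 m i j) := by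
    intro h
    obtain ⟨t, ht, e⟩ := mem_Ed.1 h
    have h1 : t = (-1, j, false) := ed_inj rfl (iB_sub t ht) m1 (e.trans d2)
    subst h1
    exact (mem_iB.1 ht).2 ⟨rfl, rfl, Or.inr rfl⟩
  have eE : Ed L hL (iA (2 * L) 0 m) = insert ((Cv L hL).ed (V 0 i, dL 0 i))
      (insert ((Cv L hL).ed (V 0 j, dL 0 j)) (Ed L hL (iB (2 * L) 0 m i j))) := by
    ext e
    rw [Finset.mem_insert, Finset.mem_insert, mem_Ed, mem_Ed]
    constructor
    · rintro ⟨⟨x, a, b⟩, ht, rfl⟩
      by_cases c : b = false ∧ x = -1 ∧ (a = i ∨ a = j)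
      · obtain ⟨rfl, rfl, rfl | rfl⟩ := c
        · exact Or.inl d1.symm
        · exact Or.inr (Or.inl d2.symm)
      · exact Or.inr (Or.inr ⟨(x, a, b), mem_iB.2 ⟨ht, c⟩, rfl⟩)
    · rintro (rfl | rfl | ⟨t, ht, rfl⟩)
      · exact ⟨_, m0, d1.symm⟩
      · exact ⟨_, m1, d2.symm⟩
      · exact ⟨t, iB_sub t ht, rfl⟩
  have hne : (V 0 i, dL 0 i) ≠ (V 0 j, dL 0 j) := by
    rw [Ne, Prod.mk.injEq, V_inj]
    omega
  have hne' : (Cv L hL).rv (V 0 i, dL 0 i) ≠ (V 0 j, dL 0 j) := by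
    rw [r1, Ne, Prod.mk.injEq, V_inj]
    omega
  have h1 := two_ended y (Edg_Ed iB_sub) hp hq a1 a2 hne hne' e1 e2 (Ed L hL (iA (2 * L) 0 m))
    (Edg_Ed fun _ h => h) eE
  rw [r1, r2] at h1
  refine h1.trans ?_
  refine Nm.main y {(V 0 j, dL 0 j)} _ (Dm L 0 m) rfl _ (Edg_Ed fun _ h => h)
    (V 0 i, dL 0 i) hp a1 ?_ ?_ ?_ ?_
  · rw [eE]
    exact Finset.mem_insert_self _ _
  · intro w hw d hd
    exact incl hw hd
  · intro h hh
    rw [Finset.mem_singleton] at hh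
    rw [hh]
    exact a2
  · rw [Finset.mem_singleton]
    exact hne

/-- **The iterated ring of the left half on an arc.** -/
theorem arc_left (hL : 1 ≤ L) (y : K) {i j : Fin (2 * L)} (hij : i ≠ j) (m : ℕ) :
    (NUG.ringF (wA y (2 * L)) cc dd (XL (2 * L)))^[m] (HS.ind (cup (Xl i) (Xl j) Pat.empty)) Pat.empty =
      (Cv L hL).Ws y (Dm L 0 m) {(V 0 ((j : ℕ) : ℤ), dL 0 ((j : ℕ) : ℤ))}
        (V 0 ((i : ℕ) : ℤ), dL 0 ((i : ℕ) : ℤ)) := by
  have h1 := rings_eq (hL := hL) y (n := 0) (m := m) (rest_restL i j) (Xl i) (Xl j)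
  rw [fr_Xl, fr_Xl] at h1
  have e : (2 * (-1) + 1 : ℤ) = -1 := by norm_num
  rw [e] at h1
  have h2 := word_left (hL := hL) y (m := m) (i := ((i : ℕ) : ℤ)) (j := ((j : ℕ) : ℤ)) (by positivity)
    (by exact_mod_cast i.2) (by positivity) (by exact_mod_cast j.2)
    (fun e => hij (Fin.ext (by exact_mod_cast e)))
  rw [h2] at h1
  rw [← h1]
  refine (iter_pres (NUG.pres_ringF _ (nodup_XL _) (cc_ne_dd _) (cc_XL _) (dd_XL _)) m (fun p hp => ?_) _
    (NUF.ax_empty _)).symm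
  exact gS_arc (K := K) (fun a ha => ((rest_restL i j).2 a).1 ha) true (fun a => NUF.ax_out hp (Xr_notMem a))

/-! ### the whole cylinder -/

section real

theorem cupO_nn {α : Type*} [DecidableEq α] {F : Pat α → ℝ} (hF : ∀ p, 0 ≤ F p) (a b : α) (p : Pat α) :
    0 ≤ (cupO a b : Op α ℝ) F p := by
  rw [cupO_apply]
  split_ifs
  · exact hF _
  · exact le_rfl

theorem Crv_ge {y : ℝ} (hy : 0 ≤ y) (v : Pt) {F : Pat Lab → ℝ} (hF : ∀ p, 0 ≤ F p) (p : Pat Lab) :
    F p ≤ Crv y v F p := by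
  unfold Crv Cr
  simp only [LinearMap.add_apply, Module.End.one_apply, LinearMap.smul_apply, Pi.add_apply, Pi.smul_apply,
    smul_eq_mul]
  have h1 := cupO_nn hF (hf (v, dv v)) (hf (v, rotL (rotL (dv v)))) p
  have h2 := cupO_nn hF (hf (v, dv v)) (hf (v, rotR (rotR (dv v)))) p
  have h3 := cupO_nn hF (hf (v, rotL (rotL (dv v)))) (hf (v, rotR (rotR (dv v)))) p
  have h4 := mul_nonneg hy (add_nonneg (add_nonneg h1 h2) h3)
  linarith

theorem CR_nn {y : ℝ} (hy : 0 ≤ y) (A : Finset Pt) {F : Pat Lab → ℝ} (hF : ∀ p, 0 ≤ F p) :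
    ∀ p, 0 ≤ CR y A F p := by
  refine Finset.noncommProd_induction A _ _ (fun B : Op Lab ℝ => ∀ F, (∀ p, 0 ≤ F p) → ∀ p, 0 ≤ B F p)
    (fun a b ha hb F hF => ha _ (hb F hF)) (fun F hF => hF) (fun v _ F hF p => ?_) F hF
  exact (hF p).trans (Crv_ge hy v hF p)

theorem CO_nn {C : Nm} {E : Finset (Sym2 Lab)} (hE : C.Edg E) {F : Pat Lab → ℝ} (hF : ∀ p, 0 ≤ F p) :
    ∀ p, 0 ≤ Nm.CO ℝ E hE F p := by
  refine Finset.noncommProd_induction E _ _ (fun B : Op Lab ℝ => ∀ F, (∀ p, 0 ≤ F p) → ∀ p, 0 ≤ B F p)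
    (fun a b ha hb F hF => ha _ (hb F hF)) (fun F hF => hF) (fun e he F hF p => ?_) F hF
  obtain ⟨h, h1, rfl⟩ := hE e he
  rw [Nm.CoS_ed, Co_apply]
  split_ifs
  · exact hF _
  · exact le_rfl
  · exact hF _

theorem CR_erase_le {y : ℝ} (hy : 0 ≤ y) (A : Finset Pt) (v : Pt) {F : Pat Lab → ℝ} (hF : ∀ p, 0 ≤ F p)
    (p : Pat Lab) : CR y (A.erase v) F p ≤ CR y A F p := by
  by_cases h : v ∈ A
  · have e : CR y A = Crv y v * CR y (A.erase v) := (Finset.mul_noncommProd_erase A h _ _).symm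
    rw [e, Module.End.mul_apply]
    exact Crv_ge hy v (CR_nn hy _ hF) p
  · rw [Finset.erase_eq_of_notMem h]

/-- **The words of the cylinder between the two cut edges are bounded by the rings.** -/
theorem ws_le (hL : 1 ≤ L) {y : ℝ} (hy : 0 ≤ y) {i j : Fin (2 * L)} (hij : i ≠ j) {l : List (Fin (2 * L))}
    (hl : Rest l i j) (n m : ℕ) :
    (Cv L hL).Ws y (Dm0 L n m ((i : ℕ) : ℤ) ((j : ℕ) : ℤ)) {(V (-1) ((j : ℕ) : ℤ), dR (-1) ((j : ℕ) : ℤ))}
        (V (-1) ((i : ℕ) : ℤ), dR (-1) ((i : ℕ) : ℤ)) ≤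
      (NUG.ringF (wA y (2 * L)) cc dd (XR (2 * L)))^[n] ((NUG.ringF (wA y (2 * L)) cc dd (XL (2 * L)))^[m]
        (gS ℝ l (HS.ind (cup (Xr i) (Xr j) Pat.empty)))) Pat.empty := by
  rw [rings_eq (hL := hL) y hl, fr_Xr, fr_Xr, mul_zero,
    ← word (hL := hL) y (n := n) (m := m) (i := ((i : ℕ) : ℤ)) (j := ((j : ℕ) : ℤ)) (by positivity)
    (by exact_mod_cast i.2) (by positivity) (by exact_mod_cast j.2)
    (fun e => hij (Fin.ext (by exact_mod_cast e)))]
  have hF : ∀ p : Pat Lab, (0 : ℝ) ≤ (HS.ind (cup (lf 0 ((i : ℕ) : ℤ)) (lf 0 ((j : ℕ) : ℤ)) Pat.empty) :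
      Pat Lab → ℝ) p := by
    intro p
    by_cases c : p = cup (lf 0 ((i : ℕ) : ℤ)) (lf 0 ((j : ℕ) : ℤ)) Pat.empty
    · rw [c, HS.ind_self]
      exact zero_le_one
    · rw [HS.ind_ne c]
  have h1 := CO_nn (Edg_Ed (hL := hL) (iB_sub (N := 2 * L) (n := n) (m := m) (i := ((i : ℕ) : ℤ))
    (j := ((j : ℕ) : ℤ)))) hF
  rw [Module.End.mul_apply, Module.End.mul_apply]
  unfold Dm0
  exact (CR_erase_le hy _ _ h1 _).trans (CR_erase_le hy _ _ h1 _)

end real

end Pool.Agent.MXR
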