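import Pool.Agent.MXR.Fin
import Pool.Agent.EXL.HexCol
import Pool.Agent.EXL.FormW
import Pool.Agent.NUG.Reach

/-!
# The mirrored rows are rhombi of the angle π / 4 (module M5 of nu34/22a)
-/

set_option autoImplicit false

namespace Pool.Agent.MXR

open Pool.Agent.EXL hiding cc
open Pool.Agent.EXL.Pat Pool.Agent.EXL.Net
open HexObs (xc)
open Pool.Agent.NUN (cc Xr Xl)
open Pool.Agent.NUNC (dd)
open Pool.Agent.EXL.Fm (lam)

/-- The weights at the angle π / 4. -/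
theorem wt_hexM {K : Type*} [Field K] {z : K} (h8 : z ^ 8 = -1) (h2 : z ^ 2 + 1 ≠ 0) (h20 : (2 : K) ≠ 0) :
    wt (z ^ 2) (z ^ 3) (z ^ 2) (PP (z ^ 2) (z ^ 2))⁻¹ = hexM (z / (z ^ 2 + 1)) := by
  have hP : PP (z ^ 2) (z ^ 2) = 2 * (z ^ 2 + 1) := by
    unfold PP
    linear_combination (z ^ 10 - 2 * z ^ 2 - 1) * h8
  have hq : (z ^ 2 + 1) ^ 2 ≠ 0 := pow_ne_zero 2 h2
  have hn : 2 * (z ^ 2 + 1) ≠ 0 := mul_ne_zero h20 h2
  have hv : z ^ 2 * ((z ^ 2) ^ 2 - 1) * ((z ^ 2) ^ 3 - (z ^ 2) ^ 2) * (z ^ 2 + 1) ^ 2 =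
      z ^ 2 * (2 * (z ^ 2 + 1)) := by
    linear_combination (z ^ 2 + 1) * (z ^ 6 - 2 * z ^ 2) * h8
  have hu : z ^ 3 * z ^ 2 * ((z ^ 2) ^ 2 - 1) * ((z ^ 2) ^ 2 - 1) * (z ^ 2 + 1) =
      z * (2 * (z ^ 2 + 1)) := by
    linear_combination (z ^ 2 + 1) * (z ^ 5 - 2 * z) * h8
  simp only [wt, hexM, hP, Wt.mk.injEq, div_pow]
  refine ⟨?_, ?_, ?_, ?_, ?_⟩
  · rw [← div_eq_mul_inv, div_eq_div_iff hn hq, hv]
  · rw [← div_eq_mul_inv, div_eq_div_iff hn hq, ← hv]
    ring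
  · rw [← div_eq_mul_inv, div_eq_div_iff hn h2, hu]
  · ring
  · rw [← div_eq_mul_inv, div_eq_div_iff hn hq, ← hv]
    ring

/-- **The mirrored row.** -/
theorem rwt_hexM : rwt (Real.pi / 4) = hexM (HexObs.xc : ℂ) := by
  set z := Complex.exp ((Real.pi / 8 : ℂ) * Complex.I) with hz
  have h8 : z ^ 8 = -1 := z8
  have h2 : z ^ 2 + 1 ≠ 0 := by
    intro h
    have e : z ^ 8 = 1 := by linear_combination (z ^ 6 - z ^ 4 + z ^ 2 - 1) * h
    rw [h8] at e
    norm_num at e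
  have e1 : Complex.exp (Real.pi / 4 * Complex.I) = z ^ 2 := by
    rw [hz, ← Complex.exp_nat_mul]
    congr 1
    push_cast
    ring
  have e2 : Complex.exp (3 * Real.pi / 8 * Complex.I) = z ^ 3 := by
    rw [hz, ← Complex.exp_nat_mul]
    congr 1
    push_cast
    ring
  have e3 : (HexObs.xc : ℂ) = z / (z ^ 2 + 1) := by
    have hz0 : z ≠ 0 := Complex.exp_ne_zero _
    have e4 : 2 * Complex.cos ((Real.pi / 8 : ℂ)) = z + z⁻¹ := by
      rw [Complex.two_cos, hz, ← Complex.exp_neg]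
      congr 2
      ring
    unfold HexObs.xc
    push_cast
    rw [e4]
    field_simp
  unfold rwt Dn
  rw [e1, e2, wt_hexM h8 h2 two_ne_zero, e3]

theorem hexM_map {K K' : Type*} [CommRing K] [CommRing K'] (f : K →+* K') (x : K) :
    (hexM x).map f = hexM (f x) := by
  simp only [Wt.map, hexM, map_pow, map_zero]

theorem cellW_map {K K' : Type*} [CommRing K] [CommRing K'] (f : K →+* K') (x : K) (b : Bool) :
    (cellW x b).map f = cellW (f x) b := by
  cases b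
  · exact hexW_map f x
  · exact hexM_map f x

/-- the rapidity of a row: `0` for a normal row, `- lam` for a mirrored row. -/
noncomputable def zrow (i : ℤ) : ℂ := if i % 2 = 1 then -lam else 0

/-- **The rapidities of the lines.** -/
noncomputable def z0 (N : ℕ) : NUF.St N → ℂ
  | Sum.inl (i, _) => zrow ((i : ℕ) : ℤ)
  | Sum.inr _ => 0

theorem z0_Xr {N : ℕ} (i : Fin N) : z0 N (Xr i) = zrow ((i : ℕ) : ℤ) := rfl

theorem z0_Xl {N : ℕ} (i : Fin N) : z0 N (Xl i) = zrow ((i : ℕ) : ℤ) := rfl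

theorem zrow_wt (i : ℤ) : rwt (Real.pi / 8 - zrow i) = (cellW xc (mi i)).map Complex.ofRealHom := by
  rw [cellW_map]
  unfold zrow mi cellW
  by_cases h : i % 2 = 1
  · rw [if_pos h]
    have e : (Real.pi : ℂ) / 8 - -lam = Real.pi / 4 := by
      unfold Fm.lam
      ring
    rw [e, rwt_hexM]
    simp [h]
  · rw [if_neg h, sub_zero, rwt_hex]
    simp [h]

/-- **The weights of the lines are the rhombus weights of the rapidities.** -/
theorem z0_wt {N : ℕ} (j : NUF.St N) :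
    rwt (Real.pi / 8 - z0 N j) = (wA xc N j).map Complex.ofRealHom := by
  rcases j with ⟨i, b⟩ | s
  · exact zrow_wt _
  · show rwt (Real.pi / 8 - 0) = (hexW xc).map Complex.ofRealHom
    rw [sub_zero, rwt_hex, hexW_map]
    rfl

theorem hexM_WP {x : ℝ} (hx : 0 < x) : UNI.Mv.WP (hexM x) :=
  ⟨by simp only [hexM]; positivity, by simp only [hexM]; positivity, by simp only [hexM]; positivity,
    by simp only [hexM]; exact le_refl _, by simp only [hexM]; positivity⟩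

theorem cellW_WP {x : ℝ} (hx : 0 < x) (b : Bool) : UNI.Mv.WP (cellW x b) := by
  cases b
  · exact NUG.hexW_WP hx
  · exact hexM_WP hx

/-- **The weights of the lines are positive.** -/
theorem wA_WP {x : ℝ} (hx : 0 < x) (N : ℕ) (j : NUF.St N) : UNI.Mv.WP (wA x N j) := by
  rcases j with ⟨i, b⟩ | s
  · exact cellW_WP hx _
  · exact NUG.hexW_WP hx

end Pool.Agent.MXR
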