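import Pool.Agent.NUG.MajR
import Pool.Agent.NUG.ZVstrip
import Pool.Agent.NUG.ZDun
import Pool.Agent.NUT2.Ring1

/-!
# The majorant of a ring with general positive weights (module M3 of nu34/22a, generic part)

`w : α → Wt ℝ` with `WP (w x)`.  If the values of one arc under the iterated rings, seen from the empty state, are
bounded, then the ring has the majorant property `MajW`.  Consequences: the injectivity of `1 - ring` over the real
and the complex numbers, the decay of the iterated rings on the non-empty states, existence, uniqueness and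
positivity of the functional, lower bounds for the pairing of two functionals.
-/

set_option autoImplicit false

namespace Pool.Agent.MXR

open _root_.Pool.Agent.EXL hiding cc
open _root_.Pool.Agent.EXL.Pat _root_.Pool.Agent.EXL.HS HexObs Filter Topology
open _root_.Pool.Agent.NUF
open _root_.Pool.Agent.UNI.Mv (WP)
open _root_.Pool.Agent.NUG (Leads.ind_pos)

section gen

variable {α : Type*} [DecidableEq α] {w : α → Wt ℝ} {c d : α} {X Y : List α}

/-- **The majorant property** of the ring with the weights `w`. -/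
def MajW (w : α → Wt ℝ) (c d : α) (X : List α) : Prop :=
  ∀ G : Pat α → ℝ, (∀ p, 0 ≤ G p) → (∀ p, ¬ (p ≠ Pat.empty ∧ AX X p) → G p = 0) →
    (∀ p, p ≠ Pat.empty → AX X p → G p ≤ NUG.ringF w c d X G p) → ∀ p, G p = 0

/-- the complex weights. -/
noncomputable def wC (w : α → Wt ℝ) : α → Wt ℂ := fun x => (w x).map Complex.ofRealHom

theorem posOp_ringF (hw : ∀ x, WP (w x)) : PosOp (NUG.ringF w c d X) := fun _ hF p =>
  NUG.U_nn c d (M_nn (fun x => (hw x).nn) c X (NUG.glue_nn c d hF)) p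

theorem ringF_ind_iter (w : α → Wt ℝ) (hcd : c ≠ d) (hc : c ∉ X) (m : ℕ) :
    (NUG.ringF w c d X)^[m] (HS.ind Pat.empty) = HS.ind Pat.empty := by
  induction m with
  | zero => rfl
  | succ m ih =>
    rw [Function.iterate_succ_apply', ih]
    exact NUG.ringF_ind _ hcd hc

/-- **The majorant property from one bounded arc.** -/
theorem majW_of_arc [Finite α] (hw : ∀ x, WP (w x)) (hn : X.Nodup) (hcd : c ≠ d) (hc : c ∉ X)
    (hd : d ∉ X) {a b : α} (ha : a ∈ X) (hb : b ∈ X) (hab : a ≠ b) {B : ℝ}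
    (hB : ∀ n, 1 ≤ n → (NUG.ringF w c d X)^[n] (HS.ind (cup a b Pat.empty)) Pat.empty ≤ B) :
    MajW w c d X := by
  intro G h0 hs h1
  have hP : PosOp (NUG.ringF w c d X) := posOp_ringF hw
  have hL : Lin (NUG.ringF w c d X) := NUG.lin_ringF w c d X
  have PA : Pres (AX X) (AX X) (NUG.ringF w c d X) := NUG.pres_ringF _ hn hcd hc hd
  refine NUG.major_abs hP hL PA (ax_empty X) ?_ ?_ ?_ h0 hs h1
  · intro m
    rw [ringF_ind_iter w hcd hc, HS.ind_self]
  · intro q hqe hA
    obtain ⟨m, hm⟩ := NUG.ring_irred (c := c) (d := d) hw hn hc hd hA hqe (NUG.ax_arc hb ha)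
      (NUG.arc_ne_empty hab)
    obtain ⟨r, hr, h2⟩ := NUG.leads_iter_le hP hL hm
    refine ⟨(max B 0) / r, fun k => ?_⟩
    rw [le_div_iff₀ hr, mul_comm]
    refine (h2 k).trans ?_
    rcases Nat.eq_zero_or_pos (k + m) with h3 | h3
    · rw [h3]
      show HS.ind (cup a b Pat.empty) Pat.empty ≤ _
      rw [HS.ind_ne (NUG.arc_ne_empty hab).symm]
      exact le_max_right _ _
    · exact (hB _ h3).trans (le_max_left _ _)
  · intro q hqe hA
    obtain ⟨x1, x2, X', hX⟩ := NUG.two_rows (fun x hx => ax_out hA hx) hqe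
    have m1 : x1 ∈ X := by rw [hX]; simp
    have m2 : x2 ∈ X := by rw [hX]; simp
    have h12 : x1 ≠ x2 := by
      intro e
      rw [hX, e] at hn
      simp at hn
    have hi : X.idxOf x1 < X.idxOf x2 := by
      rw [hX, idx_cons_self, idx_cons_ne h12.symm]
      omega
    have hl1 : Leads (NUG.ringF w c d X) Pat.empty (cup x1 x2 Pat.empty) :=
      NUG.mv_create hw ⟨hn, m1, m2, hi, hc, hd, rfl, rfl, fun _ _ _ _ => rfl⟩ rfl rfl
    obtain ⟨m, hm⟩ := NUG.ring_irred (c := c) (d := d) hw hn hc hd (NUG.ax_arc m2 m1)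
      (NUG.arc_ne_empty h12) hA hqe
    have hp : Pos (NUG.ringF w c d X) := NUG.pos_ringF hw
    exact ⟨m + 1, NUG.Leads.ind_pos (Leads.iterate_succ hp hl1 hm)⟩

/-- Injectivity over the real numbers. -/
theorem MajW.injN (hw : ∀ x, WP (w x)) (h : MajW w c d X) : InjN (AX X) (NUG.ringF w c d X) := by
  intro G h0 h1 p
  have hL : Lin (NUG.ringF w c d X) := NUG.lin_ringF w c d X
  have hP : PosOp (NUG.ringF w c d X) := posOp_ringF hw
  have h := h (fun q => |G q|) (fun q => abs_nonneg _)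
    (fun q hq => by rw [h0 q hq, abs_zero]) (by
      intro q hq hA
      have h2 : |NUG.ringF w c d X G q| ≤ NUG.ringF w c d X (fun r => |G r|) q := by
        rw [abs_le]
        constructor
        · have h3 := hP.mono hL (F := fun r => (-1 : ℝ) * |G r|) (G := G)
            (fun r => by
              have := neg_abs_le (G r)
              linarith) q
          rw [PosOp.smul hL (-1) (fun r => |G r|)] at h3
          linarith
        · exact hP.mono hL (fun r => le_abs_self _) q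
      rw [h1 q hq hA] at h2
      exact h2) p
  exact abs_eq_zero.1 h

/-- **The iterated rings tend to 0 on the non-empty states.** -/
theorem MajW.iter [Finite α] (hw : ∀ x, WP (w x)) (h : MajW w c d X) (hn : X.Nodup) (hcd : c ≠ d)
    (hc : c ∉ X) (hd : d ∉ X) (F : Pat α → ℝ) {p : Pat α} (hp : p ≠ Pat.empty) (hA : AX X p) :
    Tendsto (fun n => (NUG.ringF w c d X)^[n] F p) atTop (𝓝 0) :=
  iterate_tendsto (posOp_ringF hw) (NUG.lin_ringF w c d X) (NUG.pres_ringF _ hn hcd hc hd)
    (fun q _ => congrFun (NUG.ringF_ind _ hcd hc) q) (h.injN hw) h F hp hA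

/-- the complex ring on real functions. -/
theorem ringC_ofReal (w : α → Wt ℝ) (c d : α) (X : List α) (F : Pat α → ℝ) :
    NUG.ringF (wC w) c d X (fun p => (F p : ℂ)) =
      fun p => ((NUG.ringF w c d X F p : ℝ) : ℂ) := by
  have h1 : glue c d (fun p => (F p : ℂ)) = fun p => ((glue c d F p : ℝ) : ℂ) := by
    funext p
    simp only [glue]
    split_ifs <;> simp
  have h3 : M (wC w) c X (fun p => ((glue c d F p : ℝ) : ℂ)) =
      fun p => ((M w c X (glue c d F) p : ℝ) : ℂ) := M_map Complex.ofRealHom w c X (glue c d F)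
  unfold NUG.ringF
  rw [h1, h3]
  funext p
  simp only [EXL.U]
  split_ifs <;> simp

theorem ringC_iter_ofReal (w : α → Wt ℝ) (c d : α) (X : List α) (F : Pat α → ℝ) (n : ℕ) :
    (NUG.ringF (wC w) c d X)^[n] (fun p => (F p : ℂ)) =
      fun p => (((NUG.ringF w c d X)^[n] F p : ℝ) : ℂ) := by
  induction n with
  | zero => rfl
  | succ n ih =>
    rw [Function.iterate_succ_apply', ih, ringC_ofReal, Function.iterate_succ_apply']

/-- Injectivity over the complex numbers. -/
theorem MajW.injC (hw : ∀ x, WP (w x)) (h : MajW w c d X) :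
    InjN (AX X) (NUG.ringF (wC w) c d X) := by
  intro G h0 h1 p
  have hsplit := cx_split (NUG.lin_ringF (wC w) c d X) (ringC_ofReal w c d X) G
  have key : ∀ q, q ≠ Pat.empty → AX X q → NUG.ringF w c d X (fun q => (G q).re) q = (G q).re ∧
      NUG.ringF w c d X (fun q => (G q).im) q = (G q).im := by
    intro q hq hA
    have h2 := h1 q hq hA
    rw [hsplit] at h2
    constructor
    · have := congrArg Complex.re h2
      simpa using this
    · have := congrArg Complex.im h2
      simpa using this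
  apply Complex.ext
  · exact h.injN hw (fun q => (G q).re) (fun q hq => by rw [h0 q hq]; rfl)
      (fun q hq hA => (key q hq hA).1) p
  · exact h.injN hw (fun q => (G q).im) (fun q hq => by rw [h0 q hq]; rfl)
      (fun q hq hA => (key q hq hA).2) p

/-! ### The functional -/

/-- The functional of the ring with the weights `w`. -/
structure IsF (w : α → Wt ℝ) (c d : α) (X : List α) (V : Fnl α) : Prop where
  sup : Sup X V
  one : V (HS.ind Pat.empty) = 1
  fix : ∀ F, V (NUG.ringF (wC w) c d X F) = V F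

/-- the value of the functional is the limit of the iterated rings at the empty state. -/
theorem IsF.lim [Finite α] {V : Fnl α} (hV : IsF w c d X V) (hw : ∀ x, WP (w x)) (h : MajW w c d X)
    (hn : X.Nodup) (hcd : c ≠ d) (hc : c ∉ X) (hd : d ∉ X) (F : Pat α → ℝ) :
    Tendsto (fun n => (((NUG.ringF w c d X)^[n] F Pat.empty : ℝ) : ℂ)) atTop
      (𝓝 (V fun p => (F p : ℂ))) :=
  NUG.val_lim (A := AX X) hV.sup hV.one (T := NUG.ringF w c d X) (F := F)
    (fun G => by rw [← ringC_ofReal, hV.fix])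
    (fun _ hp hA => h.iter hw hn hcd hc hd F hp hA)

/-- **Positivity.** -/
theorem IsF.posC [Finite α] {V : Fnl α} (hV : IsF w c d X V) (hw : ∀ x, WP (w x))
    (h : MajW w c d X) (hn : X.Nodup) (hcd : c ≠ d) (hc : c ∉ X) (hd : d ∉ X) : NUG.PosC V := by
  intro F hF
  exact NUG.real_lim (fun n => NUG.posOp_iter (posOp_ringF hw) n F hF _)
    (hV.lim hw h hn hcd hc hd F)

theorem IsF.fixn {V : Fnl α} (hV : IsF w c d X V) (F : Pat α → ℂ) (n : ℕ) :
    V ((NUG.ringF (wC w) c d X)^[n] F) = V F := by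
  induction n with
  | zero => rfl
  | succ n ih => rw [Function.iterate_succ_apply', hV.fix, ih]

/-- the value of the functional dominates the finite cylinders. -/
theorem IsF.le [Finite α] {V : Fnl α} (hV : IsF w c d X V) (hw : ∀ x, WP (w x))
    (h : MajW w c d X) (hn : X.Nodup) (hcd : c ≠ d) (hc : c ∉ X) (hd : d ∉ X) {F : Pat α → ℝ}
    (hF : ∀ p, 0 ≤ F p) (n : ℕ) :
    (NUG.ringF w c d X)^[n] F Pat.empty ≤ (V fun p => (F p : ℂ)).re := by
  have h1 := hV.fixn (fun p => (F p : ℂ)) n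
  rw [ringC_iter_ofReal] at h1
  obtain ⟨r, hr, e⟩ := (hV.posC hw h hn hcd hc hd).ge_empty hV.one
    (F := (NUG.ringF w c d X)^[n] F) (fun p => NUG.posOp_iter (posOp_ringF hw) n F hF p)
  rw [← h1, e, Complex.add_re, Complex.ofReal_re, Complex.ofReal_re]
  linarith

/-- The pairing is fixed by the two families of rings. -/
theorem pU_fix2 [Finite α] {w' : α → Wt ℝ} {V V' : Fnl α} (hXY : ∀ x ∈ X, x ∉ Y)
    (hc : c ∉ X) (hd : d ∉ X) (hc' : c ∉ Y) (hd' : d ∉ Y)
    (hV : IsF w c d X V) (hV' : IsF w' c d Y V') (F : Pat α → ℂ) (n m : ℕ) :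
    NUG.pU V V' ((NUG.ringF (wC w) c d X)^[n] ((NUG.ringF (wC w') c d Y)^[m] F)) =
      NUG.pU V V' F := by
  have hYX : ∀ x ∈ Y, x ∉ X := fun x hx hx' => hXY x hx' hx
  have e1 : ∀ G : Pat α → ℂ, NUG.pU V V' ((NUG.ringF (wC w) c d X)^[n] G) = NUG.pU V V' G := by
    intro G
    rw [NUG.pU_apply, NUG.pU_apply, NUG.dual_swap, NUG.dual_swap V V']
    apply hV'.sup.congr
    intro q hq
    have a2 : (V fun p => (NUG.ringF (wC w) c d X)^[n] G (un p q)) =
        V ((NUG.ringF (wC w) c d X)^[n] (fun p => G (un p q))) := by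
      apply hV.sup.congr
      intro p hp
      exact NUG.ringI_un_left _ _ (NUG.dj_lists hXY hp hq) (ax_out hq hc') (ax_out hq hd')
        (fun x hx => ax_out hq (hXY x hx)) n
    rw [a2, hV.fixn]
  have e2 : ∀ G : Pat α → ℂ, NUG.pU V V' ((NUG.ringF (wC w') c d Y)^[m] G) = NUG.pU V V' G := by
    intro G
    rw [NUG.pU_apply, NUG.pU_apply]
    apply hV.sup.congr
    intro p hp
    have a2 : (V' fun q => (NUG.ringF (wC w') c d Y)^[m] G (un p q)) =
        V' ((NUG.ringF (wC w') c d Y)^[m] (fun q => G (un p q))) := by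
      apply hV'.sup.congr
      intro q hq
      exact NUG.ringI_un_right _ _ (NUG.dj_lists hXY hp hq) (ax_out hp hc) (ax_out hp hd)
        (fun x hx => ax_out hp (hYX x hx)) m
    rw [a2, hV'.fixn]
  rw [e1, e2]

theorem pU_one {V V' : Fnl α} (hXY : ∀ x ∈ X, x ∉ Y) (hV : Sup X V) (hV1 : V (HS.ind Pat.empty) = 1)
    (hV' : Sup Y V') (hV1' : V' (HS.ind Pat.empty) = 1) : NUG.pU V V' (HS.ind Pat.empty) = 1 := by
  rw [NUG.pU_apply]
  have a1 : ∀ p, AX X p → (V' fun q => (HS.ind Pat.empty : Pat α → ℂ) (un p q)) =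
      (HS.ind Pat.empty : Pat α → ℂ) p := by
    intro p hp
    have a2 : (V' fun q => (HS.ind Pat.empty : Pat α → ℂ) (un p q)) =
        V' ((HS.ind Pat.empty : Pat α → ℂ) p • (HS.ind Pat.empty : Pat α → ℂ)) := by
      apply hV'.congr
      intro q hq
      have hdj := NUG.dj_lists hXY hp hq
      rw [Pi.smul_apply, smul_eq_mul]
      by_cases h1 : p = Pat.empty
      · by_cases h2 : q = Pat.empty
        · rw [h1, h2, un_empty, ind_self, mul_one]
        · obtain ⟨x, hx⟩ := NUG.un_ne_right hdj h2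
          rw [ind_ne h2, mul_zero]
          exact ind_empty_ne hx
      · obtain ⟨x, hx⟩ := NUG.un_ne_left hdj h1
        rw [ind_ne h1, zero_mul]
        exact ind_empty_ne hx
    rw [a2, map_smul, hV1', smul_eq_mul, mul_one]
  rw [hV.congr a1, hV1]

theorem posC_pU {V V' : Fnl α} (hV : NUG.PosC V) (hV' : NUG.PosC V') : NUG.PosC (NUG.pU V V') := by
  intro F hF
  have e1 : ∀ p, ∃ r : ℝ, 0 ≤ r ∧ V' (fun q => ((F (un p q) : ℝ) : ℂ)) = r := fun p =>
    hV' (fun q => F (un p q)) fun q => hF _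
  choose g hg0 hg using e1
  obtain ⟨r, hr, e⟩ := hV g hg0
  refine ⟨r, hr, ?_⟩
  rw [NUG.pU_apply, ← e]
  exact congrArg V (funext hg)

/-- **The pairing of the two functionals dominates the finite cylinders.** -/
theorem pair_le [Finite α] {w' : α → Wt ℝ} {V V' : Fnl α} (hw : ∀ x, WP (w x))
    (hw' : ∀ x, WP (w' x)) (hX : X.Nodup) (hY : Y.Nodup) (hXY : ∀ x ∈ X, x ∉ Y) (hcd : c ≠ d)
    (hc : c ∉ X) (hd : d ∉ X) (hc' : c ∉ Y) (hd' : d ∉ Y) (hM : MajW w c d X) (hM' : MajW w' c d Y)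
    (hV : IsF w c d X V) (hV' : IsF w' c d Y V') {F : Pat α → ℝ} (hF : ∀ p, 0 ≤ F p) (n m : ℕ) :
    (NUG.ringF w c d X)^[n] ((NUG.ringF w' c d Y)^[m] F) Pat.empty ≤
      (V fun p => V' fun q => (F (un p q) : ℂ)).re := by
  have h1 := pU_fix2 hXY hc hd hc' hd' hV hV' (fun p => (F p : ℂ)) n m
  rw [ringC_iter_ofReal, ringC_iter_ofReal] at h1
  have hp : NUG.PosC (NUG.pU V V') :=
    posC_pU (hV.posC hw hM hX hcd hc hd) (hV'.posC hw' hM' hY hcd hc' hd')
  obtain ⟨r, hr, e⟩ := hp.ge_empty (pU_one hXY hV.sup hV.one hV'.sup hV'.one)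
    (F := (NUG.ringF w c d X)^[n] ((NUG.ringF w' c d Y)^[m] F)) (fun p =>
      NUG.posOp_iter (posOp_ringF hw) n _ (NUG.posOp_iter (posOp_ringF hw') m F hF) p)
  have e3 : (V fun p => V' fun q => (F (un p q) : ℂ)) = NUG.pU V V' (fun p => (F p : ℂ)) := rfl
  rw [e3, ← h1, e, Complex.add_re, Complex.ofReal_re, Complex.ofReal_re]
  linarith

end gen

/-! ### The inhomogeneous ring -/

section inh

variable {ι : Type*} [DecidableEq ι] {w : ι → Wt ℝ} {c d : ι} {X Y : List ι} {z : ι → ℂ}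

/-- the ring of rapidities `z` is the ring with the weights `w`. -/
theorem rg_wC (hz : ∀ j ∈ X, rwt (Real.pi / 8 - z j) = (w j).map Complex.ofRealHom) (hcd : c ≠ d)
    (hc : c ∉ X) : (fun F => NUT2.rg z c d (Real.pi / 8) X F) = NUG.ringF (wC w) c d X := by
  rw [NUT2.rg_fun z _ hcd hc]
  have h : M (fun j => rwt (Real.pi / 8 - z j)) c X = M (wC w) c X := M_congr' (fun j hj => hz j hj) c
  funext F
  unfold NUG.ringF
  rw [h]

/-- **Regularity.** -/
theorem MajW.regR (hw : ∀ x, WP (w x)) (h : MajW w c d X)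
    (hz : ∀ j ∈ X, rwt (Real.pi / 8 - z j) = (w j).map Complex.ofRealHom) (hcd : c ≠ d)
    (hc : c ∉ X) : NUT2.RegR c d z X := by
  unfold NUT2.RegR
  rw [rg_wC hz hcd hc]
  exact h.injC hw

theorem isF_of_isR {V : Fnl ι} (hz : ∀ j ∈ X, rwt (Real.pi / 8 - z j) = (w j).map Complex.ofRealHom)
    (hcd : c ≠ d) (hc : c ∉ X) (hV : NUT2.IsR c d z X V) : IsF w c d X V := by
  refine ⟨hV.sup, hV.one, fun F => ?_⟩
  rw [← rg_wC hz hcd hc]
  exact congrArg (fun W : Fnl ι => W F) hV.fix

/-- the functional of the ring. -/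
theorem isF_VR [Finite ι] (hw : ∀ x, WP (w x)) (h : MajW w c d X)
    (hz : ∀ j ∈ X, rwt (Real.pi / 8 - z j) = (w j).map Complex.ofRealHom) (hX : X.Nodup)
    (hcd : c ≠ d) (hc : c ∉ X) (hd : d ∉ X) : IsF w c d X (NUT2.VR c d z X) :=
  isF_of_isR hz hcd hc (NUT2.isR_VR hX hcd hc hd (h.regR hw hz hcd hc))

end inh

end Pool.Agent.MXR
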