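import Pool.Agent.MXR.Emb
import Pool.Agent.MXR.Fin
import Pool.Agent.MXR.Hex
import Pool.Agent.MXR.MajG
import Pool.Agent.NU5.RRl

/-!
# The generating function of `CW (-1, 0) k` is bounded by the two-point function of the ring functionals
(module M5 of nu34/22a)

`Wk k` is the object `WR` of `NU5.RRl` for `2 k` rows with the rapidities `0` (even rows) and `-lam` (odd rows); the
two cut rows are `0` and `k` (`k` odd).
-/

set_option autoImplicit false

namespace Pool.Agent.MXR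

open Pool.Agent.EXL hiding cc
open Pool.Agent.EXL.Pat Pool.Agent.EXL.Net
open Pool.Agent.NUF (uops)
open Pool.Agent.NUF.Cyl (Co_eq_glue)
open Pool.Agent.NUN (cc Xr Xl)
open Pool.Agent.NUNC (dd)
open HexObs (xc)
open scoped ENNReal

/-! ### the rows -/

/-- the rows `1, …, k - 1`. -/
def rowJ (k : ℕ) : List (Fin (2 * k)) :=
  (List.finRange (k - 1)).map fun i => ⟨i.val + 1, by have := i.isLt; omega⟩

/-- the rows `k + 1, …, 2 k - 1`. -/
def rowI (k : ℕ) : List (Fin (2 * k)) :=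
  (List.finRange (k - 1)).map fun i => ⟨i.val + (k + 1), by have := i.isLt; omega⟩

/-- the lines of the rows. -/
def prs {N : ℕ} (l : List (Fin N)) : List (NUF.St N × NUF.St N) := l.map fun a => (Xr a, Xl a)

theorem prs_fst {N : ℕ} (l : List (Fin N)) : (prs l).map Prod.fst = l.map Xr := by
  unfold prs
  rw [List.map_map]
  rfl

theorem prs_snd {N : ℕ} (l : List (Fin N)) : (prs l).map Prod.snd = l.map Xl := by
  unfold prs
  rw [List.map_map]
  rfl

theorem prs_append {N : ℕ} (l l' : List (Fin N)) : prs (l ++ l') = prs l ++ prs l' := by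
  unfold prs
  rw [List.map_append]

theorem map_val_inj {N : ℕ} {l l' : List (Fin N)} (h : l.map Fin.val = l'.map Fin.val) :
    l = l' := by
  induction l generalizing l' with
  | nil => cases l' with
    | nil => rfl
    | cons _ _ => simp at h
  | cons a l ih => cases l' with
    | nil => simp at h
    | cons b l' =>
      rw [List.map_cons, List.map_cons, List.cons.injEq] at h
      rw [Fin.ext h.1, ih h.2]

/-- the first cut row. -/
def r0 {k : ℕ} (hk : 1 ≤ k) : Fin (2 * k) := ⟨0, by omega⟩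

/-- the second cut row. -/
def rk {k : ℕ} (hk : 1 ≤ k) : Fin (2 * k) := ⟨k, by omega⟩

theorem map_val_range (n : ℕ) : (List.finRange n).map Fin.val = List.range n := by
  apply List.ext_getElem
  · simp
  · intro i h1 h2
    simp

theorem rows_fin {k : ℕ} (hk : 1 ≤ k) :
    List.finRange (2 * k) = r0 hk :: (rowJ k ++ rk hk :: rowI k) := by
  apply map_val_inj
  rw [map_val_range]
  obtain ⟨n, rfl⟩ : ∃ n, k = n + 1 := ⟨k - 1, by omega⟩
  have e1 : (rowJ (n + 1)).map Fin.val = (List.range n).map (fun i => i + 1) := by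
    unfold rowJ
    rw [List.map_map, ← map_val_range, List.map_map]
    rfl
  have e2 : (rowI (n + 1)).map Fin.val = (List.range n).map (fun i => i + (n + 1 + 1)) := by
    unfold rowI
    rw [List.map_map, ← map_val_range, List.map_map]
    rfl
  rw [List.map_cons, List.map_append, List.map_cons, e1, e2]
  apply List.ext_getElem
  · simp
    omega
  · intro i h1 h2
    rw [List.getElem_range]
    cases i with
    | zero => rfl
    | succ i =>
      rw [List.getElem_cons_succ, List.getElem_append]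
      split_ifs with h
      · simp
      · have h3 : n ≤ i := by simpa using h
        obtain ⟨j, rfl⟩ := Nat.exists_eq_add_of_le h3
        cases j with
        | zero => simp [rk]
        | succ j =>
          simp
          omega

theorem rest_rows {k : ℕ} (hk : 1 ≤ k) : Rest (rowI k ++ rowJ k) (r0 hk) (rk hk) := by
  have h1 : (r0 hk :: (rowJ k ++ rk hk :: rowI k)).Perm (r0 hk :: rk hk :: (rowI k ++ rowJ k)) := by
    refine List.Perm.cons _ ?_
    refine List.perm_middle.trans ?_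
    exact List.Perm.cons _ List.perm_append_comm
  rw [← rows_fin hk] at h1
  have h2 := h1.nodup (List.nodup_finRange _)
  rw [List.nodup_cons, List.nodup_cons] at h2
  refine ⟨h2.2.2, fun a => ⟨fun h => ⟨?_, ?_⟩, fun h => ?_⟩⟩
  · rintro rfl
    exact h2.1 (List.mem_cons_of_mem _ h)
  · rintro rfl
    exact h2.2.1 h
  · have h3 := h1.mem_iff.1 (List.mem_finRange a)
    rw [List.mem_cons, List.mem_cons] at h3
    rcases h3 with h3 | h3 | h3
    · exact absurd h3 h.1
    · exact absurd h3 h.2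
    · exact h3

theorem rows_R {k : ℕ} (hk : 1 ≤ k) :
    NU5.rowsR (prs (rowI k)) (prs (rowJ k)) (Xr (r0 hk)) (Xr (rk hk)) = XR (2 * k) := by
  unfold NU5.rowsR XR
  rw [prs_fst, prs_fst, rows_fin hk, List.map_cons, List.map_append, List.map_cons]

theorem rows_L {k : ℕ} (hk : 1 ≤ k) :
    (NU5.rowsL (prs (rowI k)) (prs (rowJ k)) (Xl (r0 hk)) (Xl (rk hk))).reverse = XL (2 * k) := by
  unfold NU5.rowsL XL
  rw [prs_snd, prs_snd, rows_fin hk, List.map_cons, List.map_append, List.map_cons]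

/-! ### the gluing -/

theorem Xr_ne_Xl {N : ℕ} (a b : Fin N) : Xr a ≠ Xl b := by
  intro e
  exact Xr_notMem a (e ▸ Xl_mem b)

/-- the real and the complex gluing. -/
theorem glu_prs {N : ℕ} (l : List (Fin N)) (F : Pat (NUF.St N) → ℝ) (G : Pat (NUF.St N) → ℂ)
    (h : ∀ p, G p = (F p : ℂ)) (p : Pat (NUF.St N)) :
    NU5.glu (prs l) G p = ((gS ℝ l F p : ℝ) : ℂ) := by
  induction l generalizing p with
  | nil => exact h p
  | cons a l ih =>
    have e1 : NU5.glu (prs (a :: l)) G = uops.glue (Xr a) (Xl a) (NU5.glu (prs l) G) := by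
      show NU5.glu ((Xr a, Xl a) :: prs l) G = _
      rw [NU5.glu_cons]
      rfl
    have e2 : gS ℝ (a :: l) F = Co (Xr a) (Xl a) (gS ℝ l F) := by
      unfold gS
      rw [List.map_cons, List.prod_cons]
      rfl
    rw [e1, e2, NUF.uops_glue_apply (Xr_ne_Xl a a), Co_eq_glue]
    unfold glue
    split_ifs
    · exact ih p
    · simp
    · simp
    · simp
    · exact ih _

theorem gS_nn {N : ℕ} (l : List (Fin N)) {F : Pat (NUF.St N) → ℝ} (hF : ∀ p, 0 ≤ F p) (p : Pat (NUF.St N)) :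
    0 ≤ gS ℝ l F p := by
  induction l generalizing p with
  | nil => exact hF p
  | cons a l ih =>
    have e2 : gS ℝ (a :: l) F = Co (Xr a) (Xl a) (gS ℝ l F) := by
      unfold gS
      rw [List.map_cons, List.prod_cons]
      rfl
    rw [e2, Co_apply]
    split_ifs
    · exact ih _
    · exact le_rfl
    · exact ih _

/-! ### the two-point function -/

/-- **The two-point function of the two ring functionals**, `2 k` rows, cut rows `0` and `k`. -/
noncomputable def W {k : ℕ} (hk : 1 ≤ k) : ℂ :=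
  NU5.WR cc dd (z0 (2 * k)) (prs (rowI k)) (prs (rowJ k)) (Xr (r0 hk)) (Xl (r0 hk)) (Xr (rk hk)) (Xl (rk hk))

theorem W_eq {k : ℕ} (hk : 1 ≤ k) :
    W hk = NUT2.VR cc dd (z0 (2 * k)) (XR (2 * k)) fun p => NUT2.VR cc dd (z0 (2 * k)) (XL (2 * k)) fun p' =>
      ((gS ℝ (rowI k ++ rowJ k) (HS.ind (cup (Xr (r0 hk)) (Xr (rk hk)) Pat.empty)) (NUF.un p p') : ℝ) : ℂ) := by
  unfold W NU5.WR
  rw [rows_R, rows_L, ← prs_append]
  refine congrArg _ (funext fun p => congrArg _ (funext fun p' => ?_))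
  refine glu_prs _ _ _ (fun q => ?_) _
  unfold NU5.arc
  by_cases h : q = cup (Xr (r0 hk)) (Xr (rk hk)) Pat.empty
  · rw [h, HS.ind_self, HS.ind_self, Complex.ofReal_one]
  · rw [HS.ind_ne h, HS.ind_ne h, Complex.ofReal_zero]

theorem sum_le {k : ℕ} (hk : k % 2 = 1) (hk1 : 1 ≤ k) (hM : MajW (wA xc (2 * k)) cc dd (XR (2 * k)))
    (hM' : MajW (wA xc (2 * k)) cc dd (XL (2 * k))) (P : Finset (List Bool))
    (hP : (P : Set (List Bool)) ⊆ HexObs.BAR.CW (-1, 0) k) :
    ∑ t ∈ P, xc ^ t.length ≤ (W hk1).re := by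
  obtain ⟨m0, h0⟩ := emb hk hk1 P hP
  refine (h0 m0 m0 le_rfl le_rfl).trans ?_
  have h1 := ws_le hk1 (y := xc) HexObs.xc_pos.le (i := r0 hk1) (j := rk hk1) (by
    intro e
    have := congrArg Fin.val e
    unfold r0 rk at this
    simp at this
    omega) (rest_rows hk1) m0 m0
  have e0 : (((r0 hk1 : Fin (2 * k)) : ℕ) : ℤ) = 0 := rfl
  have e1 : (((rk hk1 : Fin (2 * k)) : ℕ) : ℤ) = k := rfl
  rw [e0, e1] at h1
  refine h1.trans ?_
  have hw : ∀ x, UNI.Mv.WP (wA xc (2 * k) x) := wA_WP HexObs.xc_pos _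
  have hV := isF_VR (w := wA xc (2 * k)) (z := z0 (2 * k)) hw hM (fun j _ => z0_wt j) (nodup_XR _) (cc_ne_dd _)
    (cc_XR _) (dd_XR _)
  have hV' := isF_VR (w := wA xc (2 * k)) (z := z0 (2 * k)) hw hM' (fun j _ => z0_wt j) (nodup_XL _) (cc_ne_dd _)
    (cc_XL _) (dd_XL _)
  rw [W_eq]
  refine pair_le hw hw (nodup_XR _) (nodup_XL _) ?_ (cc_ne_dd _) (cc_XR _) (dd_XR _) (cc_XL _) (dd_XL _) hM hM' hV hV'
    (fun p => gS_nn _ (fun q => ?_) p) m0 m0
  · intro x hx hx'
    obtain ⟨a, -, rfl⟩ := List.mem_map.1 hx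
    exact Xr_notMem a hx'
  · by_cases h : q = cup (Xr (r0 hk1)) (Xr (rk hk1)) Pat.empty
    · rw [h, HS.ind_self]
      exact zero_le_one
    · rw [HS.ind_ne h]

/-- the indicator is non-negative. -/
theorem ind_nn {α : Type*} [DecidableEq α] (p q : Pat α) : (0 : ℝ) ≤ (HS.ind p : Pat α → ℝ) q := by
  by_cases h : q = p
  · rw [h, HS.ind_self]
    exact zero_le_one
  · rw [HS.ind_ne h]

/-- `W` is a non-negative real number. -/
theorem W_nn {k : ℕ} (hk1 : 1 ≤ k) (hM : MajW (wA xc (2 * k)) cc dd (XR (2 * k)))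
    (hM' : MajW (wA xc (2 * k)) cc dd (XL (2 * k))) : ∃ r : ℝ, 0 ≤ r ∧ W hk1 = r := by
  have hw : ∀ x, UNI.Mv.WP (wA xc (2 * k) x) := wA_WP HexObs.xc_pos _
  have hV := isF_VR (w := wA xc (2 * k)) (z := z0 (2 * k)) hw hM (fun j _ => z0_wt j) (nodup_XR _) (cc_ne_dd _)
    (cc_XR _) (dd_XR _)
  have hV' := isF_VR (w := wA xc (2 * k)) (z := z0 (2 * k)) hw hM' (fun j _ => z0_wt j) (nodup_XL _) (cc_ne_dd _)
    (cc_XL _) (dd_XL _)
  obtain ⟨r, hr, e⟩ := posC_pU (hV.posC hw hM (nodup_XR _) (cc_ne_dd _) (cc_XR _) (dd_XR _))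
    (hV'.posC hw hM' (nodup_XL _) (cc_ne_dd _) (cc_XL _) (dd_XL _))
    (gS ℝ (rowI k ++ rowJ k) (HS.ind (cup (Xr (r0 hk1)) (Xr (rk hk1)) Pat.empty)))
    (fun p => gS_nn _ (fun q => ind_nn _ _) p)
  refine ⟨r, hr, ?_⟩
  rw [W_eq, ← e]
  rfl

/-- **The generating function of the words of height `k` is bounded by the two-point function.** -/
theorem gf_le_of_maj {k : ℕ} (hk : k % 2 = 1) (hk1 : 1 ≤ k) (hM : MajW (wA xc (2 * k)) cc dd (XR (2 * k)))
    (hM' : MajW (wA xc (2 * k)) cc dd (XL (2 * k))) :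
    HexObs.gf (HexObs.BAR.CW (-1, 0) k) ≤ ENNReal.ofReal (W hk1).re := by
  classical
  unfold HexObs.gf
  rw [ENNReal.tsum_eq_iSup_sum]
  refine iSup_le fun s => ?_
  have h2 : ∑ u ∈ s, HexObs.wE u.1 = ENNReal.ofReal (∑ t ∈ s.image (fun u => u.1), xc ^ t.length) := by
    rw [Finset.sum_image (fun a _ c _ h => Subtype.ext h), ENNReal.ofReal_sum_of_nonneg
      (fun t _ => pow_nonneg HexObs.xc_pos.le _)]
    rfl
  rw [h2]
  apply ENNReal.ofReal_le_ofReal
  apply sum_le hk hk1 hM hM'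
  intro t ht
  obtain ⟨u, -, rfl⟩ := Finset.mem_image.1 (Finset.mem_coe.1 ht)
  exact u.2

end Pool.Agent.MXR
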