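import Pool.Agent.MXR.Brick

/-!
# The domains of the vertical cylinder (interface of M1, M4 of nu34/22a)

`Dm L n m`: the vertices `V x i`, `-2m ≤ x < 2n`, `0 ≤ i < 2L`; `Dm0 L n m i j`: without the vertices
`V (-1) i`, `V (-1) j`.
-/

set_option autoImplicit false

namespace Pool.Agent.MXR

open HexObs HexObs.LP

/-- the vertices of the columns `-m, .., n - 1`. -/
noncomputable def Dm (L n m : ℕ) : Finset Pt :=
  ((Finset.Ico (-(2 * m : ℤ)) (2 * n) ×ˢ Finset.Ico (0 : ℤ) (2 * L)).image fun w => V w.1 w.2)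

theorem mem_Dm {L n m : ℕ} {x i : ℤ} : V x i ∈ Dm L n m ↔ (-(2 * m : ℤ) ≤ x ∧ x < 2 * n) ∧ 0 ≤ i ∧ i < 2 * L := by
  unfold Dm
  rw [Finset.mem_image]
  constructor
  · rintro ⟨w, hw, e⟩
    rw [V_inj] at e
    rw [Finset.mem_product, Finset.mem_Ico, Finset.mem_Ico, e.1, e.2] at hw
    exact ⟨hw.1, hw.2⟩
  · rintro ⟨h1, h2⟩
    exact ⟨(x, i), Finset.mem_product.2 ⟨Finset.mem_Ico.2 h1, Finset.mem_Ico.2 h2⟩, rfl⟩

theorem exists_of_mem_Dm {L n m : ℕ} {v : Pt} (h : v ∈ Dm L n m) : ∃ x i : ℤ, v = V x i ∧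
    (-(2 * m : ℤ) ≤ x ∧ x < 2 * n) ∧ 0 ≤ i ∧ i < 2 * L := by
  unfold Dm at h
  rw [Finset.mem_image] at h
  obtain ⟨w, hw, rfl⟩ := h
  rw [Finset.mem_product, Finset.mem_Ico, Finset.mem_Ico] at hw
  exact ⟨w.1, w.2, rfl, hw.1, hw.2⟩

/-- the domain without the outer vertices of the two cut edges. -/
noncomputable def Dm0 (L n m : ℕ) (i j : ℤ) : Finset Pt := ((Dm L n m).erase (V (-1) i)).erase (V (-1) j)

theorem mem_Dm0 {L n m : ℕ} {i j x a : ℤ} : V x a ∈ Dm0 L n m i j ↔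
    ((-(2 * m : ℤ) ≤ x ∧ x < 2 * n) ∧ 0 ≤ a ∧ a < 2 * L) ∧ ¬ (x = -1 ∧ (a = i ∨ a = j)) := by
  unfold Dm0
  rw [Finset.mem_erase, Finset.mem_erase, Ne, Ne, V_inj, V_inj, mem_Dm]
  constructor
  · rintro ⟨h1, h2, h3⟩
    exact ⟨h3, by omega⟩
  · rintro ⟨h1, h2⟩
    exact ⟨by omega, by omega, h1⟩

end Pool.Agent.MXR
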