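import Pool.Agent.BAR.ColDefs
import Pool.Agent.MXR.Dom

/-!
# Embedding of the walks of a column into a cylinder of 2 k rows (module M4 of nu34/22a)

`C` is any family of representatives modulo the vertical translation by 2 k rows (the vector (0, 3 k)).  The words of
`CW δ k` are self-avoiding on the cylinder because their levels differ by at most 9 k / 2 < 6 k.
-/

set_option autoImplicit false

namespace Pool.Agent.MXR

open HexObs HexObs.LP Pool.Agent.NUF.Cyl Finset ENNReal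

/-- equal representatives differ by a multiple of the vertical vector of 2 k rows -/
def Ker (C : Nm) (k : ℕ) : Prop := ∀ v w : Pt, C.nm v = C.nm w → ∃ z : ℤ, v = w + (0, 3 * k * z)

variable {C : Nm} {k : ℕ} {δ : Pt}

lemma vx_shift (b d : Pt) (t : List Bool) (i : ℕ) : vx b d t i = b + vx oo d t i := by
  induction i with
  | zero => exact (add_zero b).symm
  | succ i ih => rw [vx_succ, vx_succ, ih, add_assoc]

/-- the vertices number 0, …, length + 1 are distinct on the cylinder -/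
theorem nm_ne (hk : 1 ≤ k) (hC : Ker C k) (b : Pt) {u : List Bool} (hu : u ∈ BAR.CW δ k) {i j : ℕ} (hij : i < j)
    (hj : j ≤ u.length + 1) : C.nm (vx b (-BAR.mir δ) u i) ≠ C.nm (vx b (-BAR.mir δ) u j) := by
  intro h
  obtain ⟨z, hz⟩ := hC _ _ h
  rw [vx_shift b, vx_shift b, add_assoc] at hz
  have h1 := add_left_cancel hz
  obtain ⟨-, h2, -, -, -, h3⟩ := hu
  have e1 : ip (vx oo (-BAR.mir δ) u i) up = ip (vx oo (-BAR.mir δ) u j) up + 6 * k * z := by
    rw [h1, ip_add_left]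
    congr 1
    simp only [ip, up]
    ring
  have h4 := h3 i j (by omega) hj
  have h5 := h3 j i hj (by omega)
  have hk' : (1 : ℤ) ≤ k := by exact_mod_cast hk
  have hz0 : z = 0 := by
    by_contra hne
    rcases Int.lt_or_gt_of_ne hne with h6 | h6
    · have : (k : ℤ) * z ≤ -k := by nlinarith
      linarith
    · have : (k : ℤ) ≤ k * z := by nlinarith
      linarith
  apply h2 i j hij hj
  rw [h1, hz0]
  ext <;> simp

/-- the tip -/
theorem tip_eq {u : List Bool} (hu : u ∈ BAR.CW δ k) :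
    (vx oo (-BAR.mir δ) u (u.length + 1)).1 = 0 ∧ ip (vx oo (-BAR.mir δ) u (u.length + 1)) up = 3 * k + ip δ up := by
  obtain ⟨-, -, h3, h4, h5, -⟩ := hu
  rw [vx_succ, h3]
  constructor
  · rw [Prod.fst_add, h4]
    ring
  · rw [ip_add_left, h5]

theorem tip_left {u : List Bool} (hu : u ∈ BAR.CW (-1, 0) k) :
    2 * (vx oo (1, -1) u (u.length + 1)).2 = 3 * k - 1 ∧ (vx oo (1, -1) u (u.length + 1)).1 = 0 := by
  have e : -BAR.mir (-1, 0) = ((1, -1) : Pt) := by decide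
  have h := tip_eq hu
  rw [e] at h
  obtain ⟨h1, h2⟩ := h
  refine ⟨?_, h1⟩
  have h3 : ip ((-1, 0) : Pt) up = -1 := by decide
  rw [h3] at h2
  simp only [ip, up] at h2
  rw [h1] at h2
  linarith

/-- the words of `CW (-1, 0) k` on the cylinder -/
theorem emb_word (hk : 1 ≤ k) (hC : Ker C k) {b b' : Pt} (hb : C.nm b = b) (hb' : C.nm b' = b')
    (hbb : 2 * (b'.2 - b.2) = 3 * k - 1 ∧ b'.1 = b.1) {A : Finset Pt} {u : List Bool} (hu : u ∈ BAR.CW (-1, 0) k)
    (hA : ∀ i, 1 ≤ i → i ≤ u.length → C.nm (vx b (1, -1) u i) ≠ b → C.nm (vx b (1, -1) u i) ≠ b' →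
      C.nm (vx b (1, -1) u i) ∈ A) :
    C.Arr A (b, (1, -1)) u ∧ C.rv (C.le (b, (1, -1)) u) = (b', (1, 0)) := by
  have e : -BAR.mir (-1, 0) = ((1, -1) : Pt) := by decide
  have htip : vx b (1, -1) u (u.length + 1) = b' := by
    obtain ⟨h1, h2⟩ := tip_left hu
    rw [vx_shift b]
    refine Prod.ext ?_ ?_
    · rw [Prod.fst_add, h2, hbb.2, add_zero]
    · rw [Prod.snd_add]
      have := hbb.1
      linarith
  have hne : ∀ {i j : ℕ}, i < j → j ≤ u.length + 1 → C.nm (vx b (1, -1) u i) ≠ C.nm (vx b (1, -1) u j) := by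
    intro i j hij hj
    have := nm_ne hk hC b hu hij hj
    rwa [e] at this
  refine ⟨⟨fun i h1 h2 => hA i h1 h2 ?_ ?_, fun i j h1 h2 h3 => hne h2 (by omega)⟩, ?_⟩
  · intro h
    have h3 := hne (i := 0) (j := i) (by omega) (by omega)
    apply h3
    show C.nm b = _
    rw [hb, h]
  · intro h
    have h3 := hne (i := i) (j := u.length + 1) (by omega) le_rfl
    apply h3
    rw [htip, hb', h]
  · have hdx : dx (1, -1) u u.length = ((-1, 0) : Pt) := by
      have := hu.2.2.1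
      rwa [e] at this
    unfold Nm.rv Nm.nb Nm.le
    refine Prod.ext ?_ ?_
    · show C.nm (C.nm (vx b (1, -1) u u.length) + dx (1, -1) u u.length) = b'
      rw [C.add, ← vx_succ, htip, hb']
    · show -dx (1, -1) u u.length = ((1, 0) : Pt)
      rw [hdx]
      decide

/-- the weight of `CW (-1, 0) k` is at most a bound of the sums over the words of the finite domains -/
theorem gf_CW_le (hk : 1 ≤ k) (hC : Ker C k) {b b' : Pt} (hb : C.nm b = b) (hb' : C.nm b' = b') (hbc : HexObs.cl b = 0)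
    (hbb : 2 * (b'.2 - b.2) = 3 * k - 1 ∧ b'.1 = b.1) (A : ℕ → Finset Pt)
    (hA : ∀ v : Pt, Vt v → C.nm v ≠ b → C.nm v ≠ b' → ∃ n0 : ℕ, ∀ n, n0 ≤ n → C.nm v ∈ A n) {W : ℝ}
    (hW : ∃ n1 : ℕ, ∀ n, n1 ≤ n → C.Ws xc (A n) {(b', (1, 0))} (b, (1, -1)) ≤ W) :
    gf (BAR.CW (-1, 0) k) ≤ ENNReal.ofReal W := by
  classical
  unfold gf
  rw [ENNReal.tsum_eq_iSup_sum]
  refine iSup_le fun s => ?_
  have hvt : ∀ (u : List Bool) (i : ℕ), Vt (vx b (1, -1) u i) := by
    intro u i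
    have h1 := vx_hex b (1, -1) u i
    unfold IsHex at h1
    have h2 : HexObs.cl ((1, -1) : Pt) = 2 := by decide
    rw [hbc, h2, zero_add] at h1
    unfold Vt
    rcases h1 with h3 | h3
    · rw [h3]
      decide
    · rw [h3]
      decide
  -- a domain for all the words of s
  have hdom : ∃ n0 : ℕ, ∀ n, n0 ≤ n → ∀ u ∈ s, ∀ i, 1 ≤ i → i ≤ u.1.length → C.nm (vx b (1, -1) u.1 i) ≠ b →
      C.nm (vx b (1, -1) u.1 i) ≠ b' → C.nm (vx b (1, -1) u.1 i) ∈ A n := by
    have h1 : ∀ v : Pt, ∃ n0 : ℕ, Vt v → C.nm v ≠ b → C.nm v ≠ b' → ∀ n, n0 ≤ n → C.nm v ∈ A n := by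
      intro v
      by_cases h : Vt v ∧ C.nm v ≠ b ∧ C.nm v ≠ b'
      · obtain ⟨n0, hn0⟩ := hA v h.1 h.2.1 h.2.2
        exact ⟨n0, fun _ _ _ => hn0⟩
      · exact ⟨0, fun h2 h3 h4 => absurd ⟨h2, h3, h4⟩ h⟩
    choose f hf using h1
    refine ⟨∑ u ∈ s, ∑ i ∈ Finset.range (u.1.length + 1), f (vx b (1, -1) u.1 i), fun n hn u hu i h1 h2 h3 h4 => ?_⟩
    refine hf _ (hvt u.1 i) h3 h4 n (le_trans ?_ hn)
    refine le_trans ?_ (Finset.single_le_sum (f := fun u : BAR.CW (-1, 0) k =>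
      ∑ i ∈ Finset.range (u.1.length + 1), f (vx b (1, -1) u.1 i)) (fun _ _ => Nat.zero_le _) hu)
    exact Finset.single_le_sum (f := fun i => f (vx b (1, -1) u.1 i)) (fun _ _ => Nat.zero_le _)
      (Finset.mem_range.2 (by omega))
  obtain ⟨n0, hn0⟩ := hdom
  obtain ⟨n1, hn1⟩ := hW
  obtain ⟨n, hn⟩ : ∃ n, n = max n0 n1 := ⟨_, rfl⟩
  have h0 : n0 ≤ n := by rw [hn]; exact le_max_left _ _
  have h1 : n1 ≤ n := by rw [hn]; exact le_max_right _ _
  have himg : s.image (fun u => u.1) ⊆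
      (C.arr (A n) (b, (1, -1))).filter (fun t => C.rv (C.le (b, (1, -1)) t) ∈ ({(b', (1, 0))} : Finset (Pt × Pt))) := by
    intro t ht
    obtain ⟨u, hu, rfl⟩ := Finset.mem_image.1 ht
    obtain ⟨h2, h3⟩ := emb_word hk hC hb hb' hbb u.2 (hn0 n h0 u hu)
    rw [Finset.mem_filter, Nm.mem_arr, Finset.mem_singleton]
    exact ⟨h2, h3⟩
  have h2 : ∑ u ∈ s, wE u.1 = ENNReal.ofReal (∑ t ∈ s.image (fun u => u.1), xc ^ t.length) := by
    rw [Finset.sum_image (fun a _ c _ h => Subtype.ext h), ENNReal.ofReal_sum_of_nonneg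
      (fun t _ => pow_nonneg xc_pos.le _)]
    rfl
  rw [h2]
  apply ENNReal.ofReal_le_ofReal
  refine le_trans ?_ (hn1 n h1)
  unfold Nm.Ws
  exact Finset.sum_le_sum_of_subset_of_nonneg himg fun t _ _ => pow_nonneg xc_pos.le _

/-! ### the cylinder Cv -/

theorem Ker_Cv (L : ℕ) (hL : 1 ≤ L) : Ker (Cv L hL) L := by
  intro v w h
  refine ⟨ri v / (2 * L) - ri w / (2 * L), ?_⟩
  have h1 : trv (-((L : ℤ) * (ri v / (2 * L)))) v = trv (-((L : ℤ) * (ri w / (2 * L)))) w := h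
  simp only [trv, Prod.mk.injEq] at h1
  refine Prod.ext ?_ ?_
  · rw [Prod.fst_add]
    simpa using h1.1
  · rw [Prod.snd_add]
    have := h1.2
    simp only
    linarith

lemma vx_col (b : Pt) {d : Pt} (hd : d ∈ dirs) (t : List Bool) (i : ℕ) : |(vx b d t i).1 - b.1| ≤ i := by
  induction i with
  | zero =>
    show |b.1 - b.1| ≤ _
    simp
  | succ i ih =>
    have h1 : ∀ d ∈ dirs, |d.1| ≤ 1 := by decide
    have h2 := h1 _ (dx_mem hd t i)
    rw [vx_succ, Prod.fst_add]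
    have h3 := abs_add_le ((vx b d t i).1 - b.1) (dx d t i).1
    push_cast
    have e : (vx b d t i).1 + (dx d t i).1 - b.1 = (vx b d t i).1 - b.1 + (dx d t i).1 := by ring
    rw [e]
    linarith

/-- module M4: the words of the plane are words of the cylinder with 2 k rows -/
theorem emb {k : ℕ} (hk : k % 2 = 1) (hk1 : 1 ≤ k) (P : Finset (List Bool))
    (hP : (P : Set (List Bool)) ⊆ HexObs.BAR.CW (-1, 0) k) :
    ∃ m0 : ℕ, ∀ n m : ℕ, m0 ≤ n → m0 ≤ m → ∑ t ∈ P, xc ^ t.length ≤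
      (Cv k hk1).Ws xc (Dm0 k n m 0 k) {(V (-1) k, dR (-1) k)} (V (-1) 0, dR (-1) 0) := by
  classical
  have eb : V (-1) 0 = ((-1, 2) : Pt) := by decide
  have ed : dR (-1) 0 = ((1, -1) : Pt) := by decide
  have ed' : dR (-1) k = ((1, 0) : Pt) := by
    unfold dR
    rw [if_pos (by omega)]
  have hb : (Cv k hk1).nm (V (-1) 0) = V (-1) 0 := nm_V le_rfl (by omega)
  have hb' : (Cv k hk1).nm (V (-1) k) = V (-1) k := nm_V (by omega) (by omega)
  have hbb : 2 * ((V (-1) k).2 - (V (-1) 0).2) = 3 * k - 1 ∧ (V (-1) k).1 = (V (-1) 0).1 := by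
    simp only [V, and_true]
    omega
  refine ⟨∑ t ∈ P, t.length + 1, fun n m hn hm => ?_⟩
  rw [ed, ed']
  have himg : P ⊆ ((Cv k hk1).arr (Dm0 k n m 0 k) (V (-1) 0, (1, -1))).filter
      (fun t => (Cv k hk1).rv ((Cv k hk1).le (V (-1) 0, (1, -1)) t) ∈
        ({(V (-1) k, (1, 0))} : Finset (Pt × Pt))) := by
    intro u hu
    have hlen : u.length ≤ ∑ t ∈ P, t.length :=
      Finset.single_le_sum (f := fun t : List Bool => t.length) (fun _ _ => Nat.zero_le _) hu
    obtain ⟨h2, h3⟩ := emb_word (A := Dm0 k n m 0 k) hk1 (Ker_Cv k hk1) hb hb' hbb (hP hu) (by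
      intro i hi1 hi2 hne hne'
      have hvt : Vt (vx (V (-1) 0) (1, -1) u i) := by
        have h1 := vx_hex (V (-1) 0) (1, -1) u i
        unfold IsHex at h1
        have h2 : HexObs.cl ((1, -1) : Pt) = 2 := by decide
        have h3 : HexObs.cl (V (-1) 0) = 0 := by decide
        rw [h3, h2, zero_add] at h1
        unfold Vt
        rcases h1 with h4 | h4
        · rw [h4]
          decide
        · rw [h4]
          decide
      obtain ⟨x, a, hxa⟩ := exists_V hvt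
      have hcol := vx_col (V (-1) 0) (d := (1, -1)) (by decide) u i
      rw [hxa, V_fst, V_fst, abs_le] at hcol
      rw [hxa, nm_Vm] at hne hne' ⊢
      rw [mem_Dm0]
      have ha1 : 0 ≤ a % (2 * (k : ℤ)) := Int.emod_nonneg _ (by omega)
      have ha2 : a % (2 * (k : ℤ)) < 2 * k := Int.emod_lt_of_pos _ (by omega)
      refine ⟨⟨by omega, ha1, ha2⟩, ?_⟩
      rintro ⟨h4, h5 | h5⟩
      · apply hne
        rw [h4, h5]
      · apply hne'
        rw [h4, h5])
    rw [Finset.mem_filter, Nm.mem_arr, Finset.mem_singleton]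
    exact ⟨h2, h3⟩
  unfold Nm.Ws
  exact Finset.sum_le_sum_of_subset_of_nonneg himg fun t _ _ => pow_nonneg xc_pos.le _

end Pool.Agent.MXR
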