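import Pool.Agent.MXR.WindN
import Pool.Agent.MXR.Emb

/-!
# The walks around the cut edges (module M2 of nu34/22a)

The walks that start at the left side of a domain of the columns `0 ≤ x < 2 n`, and end at the left side in a row of the
same parity, have the total weight at most `1 / cos (3 π / 8)`: all exits of a large rectangle of the brick wall have
windings of absolute value at most 4.
-/

set_option autoImplicit false

namespace Pool.Agent.MXR

open HexObs HexObs.LP Pool.Agent.NUF.Cyl Complex Finset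

/-! ### the angles -/

theorem arg_nn {d : Pt} (h : d = (1, 0) ∨ d = (1, -1)) : |arg (HexObs.emb d / HexObs.emb (2, -1))| ≤ Real.pi / 6 := by
  have hpi := Real.pi_pos
  have hs : (Real.sqrt 3) ^ 2 = 3 := Real.sq_sqrt (by norm_num)
  have hs0 : 0 < Real.sqrt 3 := Real.sqrt_pos.2 (by norm_num)
  have hne : HexObs.emb (2, -1) ≠ 0 := by
    intro h
    have h1 := congrArg Complex.re h
    rw [emb_re] at h1
    norm_num at h1
  rcases h with rfl | rfl
  · have e : HexObs.emb (1, 0) / HexObs.emb (2, -1) =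
        ((1 / Real.sqrt 3 : ℝ) : ℂ) * (Complex.cos ((Real.pi / 6 : ℝ) : ℂ) + Complex.sin ((Real.pi / 6 : ℝ) : ℂ) * I) := by
      rw [div_eq_iff hne, ← Complex.ofReal_cos, ← Complex.ofReal_sin, Real.cos_pi_div_six, Real.sin_pi_div_six]
      apply Complex.ext
      · simp only [emb_re, emb_im, Complex.mul_re, Complex.mul_im, Complex.add_re, Complex.add_im, Complex.ofReal_re,
          Complex.ofReal_im, Complex.I_re, Complex.I_im]
        push_cast
        field_simp
        nlinarith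
      · simp only [emb_re, emb_im, Complex.mul_re, Complex.mul_im, Complex.add_re, Complex.add_im, Complex.ofReal_re,
          Complex.ofReal_im, Complex.I_re, Complex.I_im]
        push_cast
        field_simp
        nlinarith
    rw [e, Complex.arg_mul_cos_add_sin_mul_I (by positivity) ⟨by linarith, by linarith⟩, abs_of_pos (by positivity)]
  · have e : HexObs.emb (1, -1) / HexObs.emb (2, -1) =
        ((1 / Real.sqrt 3 : ℝ) : ℂ) * (Complex.cos ((-(Real.pi / 6) : ℝ) : ℂ) +
          Complex.sin ((-(Real.pi / 6) : ℝ) : ℂ) * I) := by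
      rw [div_eq_iff hne, ← Complex.ofReal_cos, ← Complex.ofReal_sin, Real.cos_neg, Real.sin_neg,
        Real.cos_pi_div_six, Real.sin_pi_div_six]
      apply Complex.ext
      · simp only [emb_re, emb_im, Complex.mul_re, Complex.mul_im, Complex.add_re, Complex.add_im, Complex.ofReal_re,
          Complex.ofReal_im, Complex.I_re, Complex.I_im]
        push_cast
        field_simp
        nlinarith
      · simp only [emb_re, emb_im, Complex.mul_re, Complex.mul_im, Complex.add_re, Complex.add_im, Complex.ofReal_re,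
          Complex.ofReal_im, Complex.I_re, Complex.I_im]
        push_cast
        field_simp
        nlinarith
    rw [e, Complex.arg_mul_cos_add_sin_mul_I (by positivity) ⟨by linarith, by linarith⟩, abs_neg,
      abs_of_pos (by positivity)]

theorem arg_nn' {d : Pt} (h : d = (-1, 0) ∨ d = (-1, 1)) : |arg (HexObs.emb d / HexObs.emb (-2, 1))| ≤ Real.pi / 6 := by
  have h1 : -d = (1, 0) ∨ -d = (1, -1) := by
    rcases h with rfl | rfl
    · exact Or.inl rfl
    · exact Or.inr rfl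
  have h2 := arg_nn h1
  have e : HexObs.emb (-2, 1) = - HexObs.emb (2, -1) := by
    rw [← emb_neg]
    rfl
  rw [e]
  rw [emb_neg] at h2
  rwa [div_neg, ← neg_div]

/-! ### the brick rectangle -/

/-- the rectangle of the columns 0, …, 2 n - 1 and the rows -T, …, T. -/
noncomputable def Bx (n T : ℕ) : Finset Pt :=
  ((Finset.Ico (0 : ℤ) (2 * n) ×ˢ Finset.Icc (-(T : ℤ)) T).image fun w => V w.1 w.2)

theorem mem_Bx {n T : ℕ} {x i : ℤ} : V x i ∈ Bx n T ↔ (0 ≤ x ∧ x < 2 * n) ∧ -(T : ℤ) ≤ i ∧ i ≤ T := by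
  unfold Bx
  rw [Finset.mem_image]
  constructor
  · rintro ⟨w, hw, e⟩
    rw [V_inj] at e
    rw [Finset.mem_product, Finset.mem_Ico, Finset.mem_Icc, e.1, e.2] at hw
    exact ⟨hw.1, hw.2⟩
  · rintro ⟨h1, h2⟩
    exact ⟨(x, i), Finset.mem_product.2 ⟨Finset.mem_Ico.2 h1, Finset.mem_Icc.2 h2⟩, rfl⟩

theorem exists_of_mem_Bx {n T : ℕ} {v : Pt} (h : v ∈ Bx n T) : ∃ x i : ℤ, v = V x i ∧
    (0 ≤ x ∧ x < 2 * n) ∧ -(T : ℤ) ≤ i ∧ i ≤ T := by
  unfold Bx at h
  rw [Finset.mem_image] at h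
  obtain ⟨w, hw, rfl⟩ := h
  rw [Finset.mem_product, Finset.mem_Ico, Finset.mem_Icc] at hw
  exact ⟨w.1, w.2, rfl, hw.1, hw.2⟩

theorem ip_nn (v w : Pt) : ip (v - w) (2, -1) = 3 * (v.1 - w.1) := by
  simp only [ip, Prod.fst_sub, Prod.snd_sub]
  ring

theorem ip_nn' (v w : Pt) : ip (v - w) (-2, 1) = 3 * (w.1 - v.1) := by
  simp only [ip, Prod.fst_sub, Prod.snd_sub]
  ring

theorem ip_up (v w : Pt) : ip (v - w) (0, 1) = (v.1 + 2 * v.2) - (w.1 + 2 * w.2) := by
  simp only [ip, Prod.fst_sub, Prod.snd_sub]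
  ring

theorem ip_dn (v w : Pt) : ip (v - w) (0, -1) = (w.1 + 2 * w.2) - (v.1 + 2 * v.2) := by
  simp only [ip, Prod.fst_sub, Prod.snd_sub]
  ring

theorem V_lev (x i : ℤ) : (V x i).1 + 2 * (V x i).2 = if (x - i) % 2 = 0 then 3 * i + 2 else 3 * i + 3 := by
  simp only [V]
  split_ifs <;> omega

theorem Vt_vx (t : List Bool) (i : ℕ) : Vt (vx ((-1, 2) : Pt) (1, -1) t i) := by
  have h1 := vx_hex ((-1, 2) : Pt) (1, -1) t i
  unfold IsHex at h1
  have h2 : HexObs.cl ((1, -1) : Pt) = 2 := by decide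
  have h3 : HexObs.cl ((-1, 2) : Pt) = 0 := by decide
  rw [h3, h2, zero_add] at h1
  unfold Vt
  rcases h1 with h4 | h4
  · rw [h4]
    decide
  · rw [h4]
    decide

/-- all exits of the rectangle have windings of absolute value at most 4. -/
theorem wind_Bx {n T : ℕ} {t : List Bool} (ht : t ∈ exits (Bx n T) (-1, 2) (1, -1)) : |wind t| ≤ 4 := by
  classical
  unfold exits at ht
  rw [Finset.mem_filter, mem_arr] at ht
  obtain ⟨ha, hout⟩ := ht
  rcases Nat.eq_zero_or_pos t.length with hz | hlen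
  · have : t = [] := List.length_eq_zero_iff.1 hz
    rw [this]
    decide
  have h0 : ((1, -1) : Pt) ∈ dirs := by decide
  have hv : ∀ i, 1 ≤ i → i ≤ t.length → ∃ x a : ℤ, vx ((-1, 2) : Pt) (1, -1) t i = V x a ∧
      (0 ≤ x ∧ x < 2 * n) ∧ -(T : ℤ) ≤ a ∧ a ≤ T := fun i h1 h2 => exists_of_mem_Bx (ha.mem i h1 h2)
  obtain ⟨x, a, hxa, hx, haT⟩ := hv t.length hlen le_rfl
  have htip : tip ((-1, 2) : Pt) (1, -1) t = vx ((-1, 2) : Pt) (1, -1) t t.length + dx (1, -1) t t.length := rfl
  have hdm : dx ((1, -1) : Pt) t t.length ∈ dirs := ds_mem h0 _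
  have hDe : De (V x a, dx ((1, -1) : Pt) t t.length) := by
    refine ⟨hdm, Vt_V _ _, ?_⟩
    show Vt (V x a + dx ((1, -1) : Pt) t t.length)
    rw [← hxa, ← htip]
    exact Vt_vx t _
  have hhalf : ∀ i, 1 ≤ i → i ≤ t.length → 0 < ip (vx ((-1, 2) : Pt) (1, -1) t i - (-1, 2)) (2, -1) := by
    intro i h1 h2
    obtain ⟨x', a', e', hx', -⟩ := hv i h1 h2
    rw [ip_nn, e', V_fst]
    show 0 < 3 * (x' - (-1))
    omega
  have hcol : ∀ i, 1 ≤ i → i ≤ t.length → 0 ≤ (vx ((-1, 2) : Pt) (1, -1) t i).1 ∧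
      (vx ((-1, 2) : Pt) (1, -1) t i).1 < 2 * n := by
    intro i h1 h2
    obtain ⟨x', a', e', hx', -⟩ := hv i h1 h2
    rw [e', V_fst]
    exact hx'
  rcases De_V.1 hDe with hd | hd | hd
  · -- to the right
    have e1 : tip ((-1, 2) : Pt) (1, -1) t = V (x + 1) a := by
      rw [htip, hxa, hd, V_dR]
    have hx2 : x + 1 = 2 * n := by
      rw [e1, mem_Bx] at hout
      omega
    refine wind_absN (nn := (2, -1)) (mm := (2, -1)) h0 hlen ha.inj hhalf ?_ ?_ ?_ ?_ ?_
    · rw [ip_nn, e1, V_fst]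
      show 0 ≤ 3 * (x + 1 - (-1))
      omega
    · intro i h1 h2
      rw [ip_nn, e1, V_fst]
      have := hcol i h1 h2
      omega
    · intro i h1 h2
      rw [ip_nn, hxa, V_fst]
      have := hcol i h1 h2
      omega
    · rw [hd]
      apply arg_nn
      unfold dR
      split_ifs
      · exact Or.inl rfl
      · exact Or.inr rfl
    · rw [hd]
      unfold dR
      split_ifs <;> decide
  · -- to the left
    have e1 : tip ((-1, 2) : Pt) (1, -1) t = V (x - 1) a := by
      rw [htip, hxa, hd, V_dL]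
    have hx2 : x = 0 := by
      rw [e1, mem_Bx] at hout
      omega
    refine wind_absN (nn := (2, -1)) (mm := (-2, 1)) h0 hlen ha.inj hhalf ?_ ?_ ?_ ?_ ?_
    · rw [ip_nn, e1, V_fst]
      show 0 ≤ 3 * (x - 1 - (-1))
      omega
    · intro i h1 h2
      rw [ip_nn', e1, V_fst]
      have := hcol i h1 h2
      omega
    · intro i h1 h2
      rw [ip_nn', hxa, V_fst]
      have := hcol i h1 h2
      omega
    · rw [hd]
      apply arg_nn'
      unfold dL
      split_ifs
      · exact Or.inr rfl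
      · exact Or.inl rfl
    · rw [hd]
      unfold dL
      split_ifs <;> decide
  · -- vertical
    have e1 : tip ((-1, 2) : Pt) (1, -1) t = V x (io x a) := by
      rw [htip, hxa, hd, V_dU]
    have htip0 : 0 ≤ ip (tip ((-1, 2) : Pt) (1, -1) t - (-1, 2)) (2, -1) := by
      rw [ip_nn, e1, V_fst]
      show 0 ≤ 3 * (x - (-1))
      omega
    rw [e1, mem_Bx] at hout
    have hself : ∀ d : Pt, d ∈ dirs → arg (HexObs.emb d / HexObs.emb d) = 0 := by
      intro d hd
      rw [div_self (emb_ne hd), Complex.arg_one]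
    by_cases hpar : (x - a) % 2 = 0
    · have hio : io x a = a - 1 := by
        unfold io
        rw [if_pos hpar]
      rw [hio] at hout e1
      have haT' : a = -T := by omega
      have hd' : dx ((1, -1) : Pt) t t.length = (0, -1) := by
        rw [hd]
        unfold dU
        rw [if_pos hpar]
      have hex : ∀ i, 1 ≤ i → i ≤ t.length →
          0 ≤ ip (vx ((-1, 2) : Pt) (1, -1) t t.length - vx ((-1, 2) : Pt) (1, -1) t i) (0, -1) := by
        intro i h1 h2
        obtain ⟨x', a', e', -, ha'⟩ := hv i h1 h2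
        rw [ip_dn, hxa, e', V_lev, V_lev, if_pos hpar]
        split_ifs <;> omega
      refine wind_absN (nn := (2, -1)) (mm := (0, -1)) h0 hlen ha.inj hhalf htip0 ?_ hex ?_ ?_
      · intro i h1 h2
        have h3 := hex i h1 h2
        have e4 : tip ((-1, 2) : Pt) (1, -1) t - vx ((-1, 2) : Pt) (1, -1) t i =
            (vx ((-1, 2) : Pt) (1, -1) t t.length - vx ((-1, 2) : Pt) (1, -1) t i) + (0, -1) := by
          rw [htip, hd']
          abel
        rw [e4, ip_add_left]
        have : ip ((0, -1) : Pt) (0, -1) = 2 := by decide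
        omega
      · rw [hd', hself _ (by decide), abs_zero]
        positivity
      · rw [hd']
        decide
    · have hio : io x a = a + 1 := by
        unfold io
        rw [if_neg hpar]
      rw [hio] at hout e1
      have haT' : a = T := by omega
      have hd' : dx ((1, -1) : Pt) t t.length = (0, 1) := by
        rw [hd]
        unfold dU
        rw [if_neg hpar]
      have hex : ∀ i, 1 ≤ i → i ≤ t.length →
          0 ≤ ip (vx ((-1, 2) : Pt) (1, -1) t t.length - vx ((-1, 2) : Pt) (1, -1) t i) (0, 1) := by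
        intro i h1 h2
        obtain ⟨x', a', e', -, ha'⟩ := hv i h1 h2
        rw [ip_up, hxa, e', V_lev, V_lev, if_neg hpar]
        split_ifs <;> omega
      refine wind_absN (nn := (2, -1)) (mm := (0, 1)) h0 hlen ha.inj hhalf htip0 ?_ hex ?_ ?_
      · intro i h1 h2
        have h3 := hex i h1 h2
        have e4 : tip ((-1, 2) : Pt) (1, -1) t - vx ((-1, 2) : Pt) (1, -1) t i =
            (vx ((-1, 2) : Pt) (1, -1) t t.length - vx ((-1, 2) : Pt) (1, -1) t i) + (0, 1) := by
          rw [htip, hd']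
          abel
        rw [e4, ip_add_left]
        have : ip ((0, 1) : Pt) (0, 1) = 2 := by decide
        omega
      · rw [hd', hself _ (by decide), abs_zero]
        positivity
      · rw [hd']
        decide

/-- the walks of the rectangle that leave through the left side in the rows of the parity of the start. -/
theorem plane_bd (n T : ℕ) : ∑ t ∈ (exits (Bx n T) (-1, 2) (1, -1)).filter
    (fun t => dx (1, -1) t t.length = (-1, 1)), xc ^ t.length ≤ 1 / Real.cos (3 * Real.pi / 8) := by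
  classical
  have h0 : ((1, -1) : Pt) ∈ dirs := by decide
  have hpi := Real.pi_pos
  have hc : 0 < Real.cos (3 * Real.pi / 8) := by
    apply Real.cos_pos_of_mem_Ioo
    constructor <;> linarith
  have hid := identity_reN (Bx n T) (v0 := (-1, 2)) (d0 := (1, -1)) h0 (nn := (2, -1)) (by
    intro v hv
    obtain ⟨x, a, rfl, hx, -⟩ := exists_of_mem_Bx hv
    rw [ip_nn, V_fst]
    show 0 < 3 * (x - (-1))
    omega)
  rw [le_div_iff₀ hc, ← hid, Finset.sum_mul]
  have hnn : ∀ t ∈ exits (Bx n T) (-1, 2) (1, -1), 0 ≤ Real.cos (wind t * (Real.pi / 8)) * xc ^ t.length := by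
    intro t ht
    have h1 := wind_Bx ht
    have h2 : |((wind t : ℤ) : ℝ)| ≤ 4 := by exact_mod_cast h1
    rw [abs_le] at h2
    apply mul_nonneg _ (pow_nonneg xc_pos.le _)
    apply Real.cos_nonneg_of_mem_Icc
    constructor <;> nlinarith
  refine le_trans (le_of_eq ?_) (Finset.sum_le_sum_of_subset_of_nonneg
    (Finset.filter_subset (fun t => dx ((1, -1) : Pt) t t.length = (-1, 1)) _) (fun t ht _ => hnn t ht))
  apply Finset.sum_congr rfl
  intro t ht
  rw [Finset.mem_filter] at ht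
  have h1 := wind_Bx ht.1
  have h2 := ang_dx h0 t
  rw [ht.2] at h2
  have h3 : wind t = 3 ∨ wind t = -3 := by
    rw [abs_le] at h1
    obtain ⟨W, hW⟩ : ∃ W, W = wind t := ⟨_, rfl⟩
    rw [← hW] at h1 h2 ⊢
    have hc : W = 0 ∨ W = 1 ∨ W = -1 ∨ W = 2 ∨ W = -2 ∨ W = 3 ∨ W = -3 ∨ W = 4 ∨ W = -4 := by omega
    rcases hc with rfl | rfl | rfl | rfl | rfl | rfl | rfl | rfl | rfl
    all_goals first | exact Or.inl rfl | exact Or.inr rfl | (exfalso; revert h2; decide)
  have h4 : Real.cos (wind t * (Real.pi / 8)) = Real.cos (3 * Real.pi / 8) := by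
    rcases h3 with h | h
    · rw [h]
      congr 1
      push_cast
      ring
    · rw [h, ← Real.cos_neg]
      congr 1
      push_cast
      ring
  rw [h4]
  ring

lemma vx_row (b : Pt) {d : Pt} (hd : d ∈ dirs) (t : List Bool) (i : ℕ) : |(vx b d t i).2 - b.2| ≤ i := by
  induction i with
  | zero =>
    show |b.2 - b.2| ≤ _
    simp
  | succ i ih =>
    have h1 : ∀ d ∈ dirs, |d.2| ≤ 1 := by decide
    have h2 := h1 _ (dx_mem hd t i)
    rw [vx_succ, Prod.snd_add]
    have h3 := abs_add_le ((vx b d t i).2 - b.2) (dx d t i).2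
    push_cast
    have e : (vx b d t i).2 + (dx d t i).2 - b.2 = (vx b d t i).2 - b.2 + (dx d t i).2 := by ring
    rw [e]
    linarith

/-- module M2: the words around the cut edges have a bounded weight -/
theorem arc_bd {L : ℕ} {hL : 1 ≤ L} (h2 : 2 ≤ L) (n : ℕ) (hn : 1 ≤ n) :
    (Cv L hL).Ws xc (Dm L n 0) {(V (-1) 2, dR (-1) 2)} (V (-1) 0, dR (-1) 0) ≤ 1 / Real.cos (3 * Real.pi / 8) := by
  classical
  have eb : V (-1) 0 = ((-1, 2) : Pt) := by decide
  have ed : dR (-1) 0 = ((1, -1) : Pt) := by decide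
  have ed' : dR (-1) 2 = ((1, -1) : Pt) := by decide
  rw [eb, ed, ed']
  have hpl := plane_bd n ((Dm L n 0).card + 3)
  refine le_trans ?_ hpl
  unfold Nm.Ws
  refine Finset.sum_le_sum_of_subset_of_nonneg ?_ fun t _ _ => pow_nonneg xc_pos.le _
  intro t ht
  rw [Finset.mem_filter, Nm.mem_arr, Finset.mem_singleton] at ht
  obtain ⟨harr, hle⟩ := ht
  have hlen := harr.length_le
  have hcol : ∀ i, 1 ≤ i → i ≤ t.length → ∃ x a : ℤ, vx ((-1, 2) : Pt) (1, -1) t i = V x a ∧
      (0 ≤ x ∧ x < 2 * n) ∧ -(((Dm L n 0).card + 3 : ℕ) : ℤ) ≤ a ∧ a ≤ (((Dm L n 0).card + 3 : ℕ) : ℤ) := by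
    intro i h1 h2'
    obtain ⟨x, a, hxa⟩ := exists_V (Vt_vx t i)
    have h3 := harr.mem i h1 h2'
    have h4 : (Cv L hL).nm (vx ((-1, 2) : Pt) (1, -1) t i) ∈ Dm L n 0 := h3
    rw [hxa, nm_Vm, mem_Dm] at h4
    refine ⟨x, a, hxa, ⟨by have := h4.1.1; push_cast at this; omega, h4.1.2⟩, ?_⟩
    have h5 := vx_row ((-1, 2) : Pt) (d := (1, -1)) (by decide) t i
    have h6 := vx_col ((-1, 2) : Pt) (d := (1, -1)) (by decide) t i
    rw [hxa, abs_le] at h5 h6
    have h7 := ri_V x a
    unfold ri at h7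
    have h8 : ((-1, 2) : Pt).1 = -1 := rfl
    have h9 : ((-1, 2) : Pt).2 = 2 := rfl
    rw [h9] at h5
    rw [h8] at h6
    push_cast
    omega
  have hle1 : dx ((1, -1) : Pt) t t.length = (-1, 1) := by
    have h3 := congrArg Prod.snd hle
    have h4 : -(dx ((1, -1) : Pt) t t.length) = (1, -1) := h3
    rw [← neg_neg (dx ((1, -1) : Pt) t t.length), h4]
    rfl
  have hle2 : (tip ((-1, 2) : Pt) (1, -1) t).1 = -1 := by
    have h3 := congrArg (fun p : Pt × Pt => p.1.1) hle
    exact h3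
  rw [Finset.mem_filter]
  refine ⟨?_, hle1⟩
  unfold exits
  rw [Finset.mem_filter, mem_arr]
  refine ⟨⟨?_, ?_⟩, ?_⟩
  · intro i h1 h2'
    obtain ⟨x, a, hxa, hx, ha⟩ := hcol i h1 h2'
    rw [hxa, mem_Bx]
    exact ⟨hx, ha⟩
  · intro i k hik hk e
    rcases Nat.eq_zero_or_pos i with h3 | h3
    · subst h3
      obtain ⟨x, a, hxa, hx, -⟩ := hcol k (by omega) hk
      rw [hxa] at e
      have h4 := congrArg Prod.fst e
      rw [V_fst] at h4
      have h5 : (-1 : ℤ) = x := h4
      omega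
    · exact harr.inj i k h3 hik hk (congrArg (Cv L hL).nm e)
  · intro h3
    obtain ⟨x, a, hxa, hx, -⟩ := exists_of_mem_Bx h3
    rw [hxa, V_fst] at hle2
    omega

/-! ### the other side -/

/-- the rectangle of the columns -2 n, …, -1 and the rows -T, …, T. -/
noncomputable def By (n T : ℕ) : Finset Pt :=
  ((Finset.Ico (-(2 * n : ℤ)) 0 ×ˢ Finset.Icc (-(T : ℤ)) T).image fun w => V w.1 w.2)

theorem mem_By {n T : ℕ} {x i : ℤ} : V x i ∈ By n T ↔ (-(2 * n : ℤ) ≤ x ∧ x < 0) ∧ -(T : ℤ) ≤ i ∧ i ≤ T := by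
  unfold By
  rw [Finset.mem_image]
  constructor
  · rintro ⟨w, hw, e⟩
    rw [V_inj] at e
    rw [Finset.mem_product, Finset.mem_Ico, Finset.mem_Icc, e.1, e.2] at hw
    exact ⟨hw.1, hw.2⟩
  · rintro ⟨h1, h2⟩
    exact ⟨(x, i), Finset.mem_product.2 ⟨Finset.mem_Ico.2 h1, Finset.mem_Icc.2 h2⟩, rfl⟩

theorem exists_of_mem_By {n T : ℕ} {v : Pt} (h : v ∈ By n T) : ∃ x i : ℤ, v = V x i ∧
    (-(2 * n : ℤ) ≤ x ∧ x < 0) ∧ -(T : ℤ) ≤ i ∧ i ≤ T := by
  unfold By at h
  rw [Finset.mem_image] at h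
  obtain ⟨w, hw, rfl⟩ := h
  rw [Finset.mem_product, Finset.mem_Ico, Finset.mem_Icc] at hw
  exact ⟨w.1, w.2, rfl, hw.1, hw.2⟩

theorem Vt_vx' (t : List Bool) (i : ℕ) : Vt (vx ((0, 1) : Pt) (-1, 1) t i) := by
  have h1 := vx_hex ((0, 1) : Pt) (-1, 1) t i
  unfold IsHex at h1
  have h2 : HexObs.cl ((-1, 1) : Pt) = 1 := by decide
  have h3 : HexObs.cl ((0, 1) : Pt) = 2 := by decide
  rw [h3, h2] at h1
  unfold Vt
  rcases h1 with h4 | h4
  · rw [h4]
    decide
  · rw [h4]
    decide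

/-- all exits of the rectangle have windings of absolute value at most 4. -/
theorem wind_By {n T : ℕ} {t : List Bool} (ht : t ∈ exits (By n T) (0, 1) (-1, 1)) : |wind t| ≤ 4 := by
  classical
  unfold exits at ht
  rw [Finset.mem_filter, mem_arr] at ht
  obtain ⟨ha, hout⟩ := ht
  rcases Nat.eq_zero_or_pos t.length with hz | hlen
  · have : t = [] := List.length_eq_zero_iff.1 hz
    rw [this]
    decide
  have h0 : ((-1, 1) : Pt) ∈ dirs := by decide
  have hv : ∀ i, 1 ≤ i → i ≤ t.length → ∃ x a : ℤ, vx ((0, 1) : Pt) (-1, 1) t i = V x a ∧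
      (-(2 * n : ℤ) ≤ x ∧ x < 0) ∧ -(T : ℤ) ≤ a ∧ a ≤ T := fun i h1 h2 => exists_of_mem_By (ha.mem i h1 h2)
  obtain ⟨x, a, hxa, hx, haT⟩ := hv t.length hlen le_rfl
  have htip : tip ((0, 1) : Pt) (-1, 1) t = vx ((0, 1) : Pt) (-1, 1) t t.length + dx (-1, 1) t t.length := rfl
  have hdm : dx ((-1, 1) : Pt) t t.length ∈ dirs := ds_mem h0 _
  have hDe : De (V x a, dx ((-1, 1) : Pt) t t.length) := by
    refine ⟨hdm, Vt_V _ _, ?_⟩
    show Vt (V x a + dx ((-1, 1) : Pt) t t.length)
    rw [← hxa, ← htip]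
    exact Vt_vx' t _
  have hhalf : ∀ i, 1 ≤ i → i ≤ t.length → 0 < ip (vx ((0, 1) : Pt) (-1, 1) t i - (0, 1)) (-2, 1) := by
    intro i h1 h2
    obtain ⟨x', a', e', hx', -⟩ := hv i h1 h2
    rw [ip_nn', e', V_fst]
    show 0 < 3 * (0 - x')
    omega
  have hcol : ∀ i, 1 ≤ i → i ≤ t.length → -(2 * n : ℤ) ≤ (vx ((0, 1) : Pt) (-1, 1) t i).1 ∧
      (vx ((0, 1) : Pt) (-1, 1) t i).1 < 0 := by
    intro i h1 h2
    obtain ⟨x', a', e', hx', -⟩ := hv i h1 h2
    rw [e', V_fst]
    exact hx'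
  rcases De_V.1 hDe with hd | hd | hd
  · -- to the right
    have e1 : tip ((0, 1) : Pt) (-1, 1) t = V (x + 1) a := by
      rw [htip, hxa, hd, V_dR]
    have hx2 : x = -1 := by
      rw [e1, mem_By] at hout
      omega
    refine wind_absN (nn := (-2, 1)) (mm := (2, -1)) h0 hlen ha.inj hhalf ?_ ?_ ?_ ?_ ?_
    · rw [ip_nn', e1, V_fst]
      show 0 ≤ 3 * (0 - (x + 1))
      omega
    · intro i h1 h2
      rw [ip_nn, e1, V_fst]
      have := hcol i h1 h2
      omega
    · intro i h1 h2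
      rw [ip_nn, hxa, V_fst]
      have := hcol i h1 h2
      omega
    · rw [hd]
      apply arg_nn
      unfold dR
      split_ifs
      · exact Or.inl rfl
      · exact Or.inr rfl
    · rw [hd]
      unfold dR
      split_ifs <;> decide
  · -- to the left
    have e1 : tip ((0, 1) : Pt) (-1, 1) t = V (x - 1) a := by
      rw [htip, hxa, hd, V_dL]
    have hx2 : x = -(2 * n : ℤ) := by
      rw [e1, mem_By] at hout
      omega
    refine wind_absN (nn := (-2, 1)) (mm := (-2, 1)) h0 hlen ha.inj hhalf ?_ ?_ ?_ ?_ ?_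
    · rw [ip_nn', e1, V_fst]
      show 0 ≤ 3 * (0 - (x - 1))
      omega
    · intro i h1 h2
      rw [ip_nn', e1, V_fst]
      have := hcol i h1 h2
      omega
    · intro i h1 h2
      rw [ip_nn', hxa, V_fst]
      have := hcol i h1 h2
      omega
    · rw [hd]
      apply arg_nn'
      unfold dL
      split_ifs
      · exact Or.inr rfl
      · exact Or.inl rfl
    · rw [hd]
      unfold dL
      split_ifs <;> decide
  · -- vertical
    have e1 : tip ((0, 1) : Pt) (-1, 1) t = V x (io x a) := by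
      rw [htip, hxa, hd, V_dU]
    have htip0 : 0 ≤ ip (tip ((0, 1) : Pt) (-1, 1) t - (0, 1)) (-2, 1) := by
      rw [ip_nn', e1, V_fst]
      show 0 ≤ 3 * (0 - x)
      omega
    rw [e1, mem_By] at hout
    have hself : ∀ d : Pt, d ∈ dirs → arg (HexObs.emb d / HexObs.emb d) = 0 := by
      intro d hd
      rw [div_self (emb_ne hd), Complex.arg_one]
    by_cases hpar : (x - a) % 2 = 0
    · have hio : io x a = a - 1 := by
        unfold io
        rw [if_pos hpar]
      rw [hio] at hout e1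
      have haT' : a = -T := by omega
      have hd' : dx ((-1, 1) : Pt) t t.length = (0, -1) := by
        rw [hd]
        unfold dU
        rw [if_pos hpar]
      have hex : ∀ i, 1 ≤ i → i ≤ t.length →
          0 ≤ ip (vx ((0, 1) : Pt) (-1, 1) t t.length - vx ((0, 1) : Pt) (-1, 1) t i) (0, -1) := by
        intro i h1 h2
        obtain ⟨x', a', e', -, ha'⟩ := hv i h1 h2
        rw [ip_dn, hxa, e', V_lev, V_lev, if_pos hpar]
        split_ifs <;> omega
      refine wind_absN (nn := (-2, 1)) (mm := (0, -1)) h0 hlen ha.inj hhalf htip0 ?_ hex ?_ ?_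
      · intro i h1 h2
        have h3 := hex i h1 h2
        have e4 : tip ((0, 1) : Pt) (-1, 1) t - vx ((0, 1) : Pt) (-1, 1) t i =
            (vx ((0, 1) : Pt) (-1, 1) t t.length - vx ((0, 1) : Pt) (-1, 1) t i) + (0, -1) := by
          rw [htip, hd']
          abel
        rw [e4, ip_add_left]
        have : ip ((0, -1) : Pt) (0, -1) = 2 := by decide
        omega
      · rw [hd', hself _ (by decide), abs_zero]
        positivity
      · rw [hd']
        decide
    · have hio : io x a = a + 1 := by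
        unfold io
        rw [if_neg hpar]
      rw [hio] at hout e1
      have haT' : a = T := by omega
      have hd' : dx ((-1, 1) : Pt) t t.length = (0, 1) := by
        rw [hd]
        unfold dU
        rw [if_neg hpar]
      have hex : ∀ i, 1 ≤ i → i ≤ t.length →
          0 ≤ ip (vx ((0, 1) : Pt) (-1, 1) t t.length - vx ((0, 1) : Pt) (-1, 1) t i) (0, 1) := by
        intro i h1 h2
        obtain ⟨x', a', e', -, ha'⟩ := hv i h1 h2
        rw [ip_up, hxa, e', V_lev, V_lev, if_neg hpar]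
        split_ifs <;> omega
      refine wind_absN (nn := (-2, 1)) (mm := (0, 1)) h0 hlen ha.inj hhalf htip0 ?_ hex ?_ ?_
      · intro i h1 h2
        have h3 := hex i h1 h2
        have e4 : tip ((0, 1) : Pt) (-1, 1) t - vx ((0, 1) : Pt) (-1, 1) t i =
            (vx ((0, 1) : Pt) (-1, 1) t t.length - vx ((0, 1) : Pt) (-1, 1) t i) + (0, 1) := by
          rw [htip, hd']
          abel
        rw [e4, ip_add_left]
        have : ip ((0, 1) : Pt) (0, 1) = 2 := by decide
        omega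
      · rw [hd', hself _ (by decide), abs_zero]
        positivity
      · rw [hd']
        decide

theorem plane_bd' (n T : ℕ) : ∑ t ∈ (exits (By n T) (0, 1) (-1, 1)).filter
    (fun t => dx (-1, 1) t t.length = (1, -1)), xc ^ t.length ≤ 1 / Real.cos (3 * Real.pi / 8) := by
  classical
  have h0 : ((-1, 1) : Pt) ∈ dirs := by decide
  have hpi := Real.pi_pos
  have hc : 0 < Real.cos (3 * Real.pi / 8) := by
    apply Real.cos_pos_of_mem_Ioo
    constructor <;> linarith
  have hid := identity_reN (By n T) (v0 := (0, 1)) (d0 := (-1, 1)) h0 (nn := (-2, 1)) (by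
    intro v hv
    obtain ⟨x, a, rfl, hx, -⟩ := exists_of_mem_By hv
    rw [ip_nn', V_fst]
    show 0 < 3 * (0 - x)
    omega)
  rw [le_div_iff₀ hc, ← hid, Finset.sum_mul]
  have hnn : ∀ t ∈ exits (By n T) (0, 1) (-1, 1), 0 ≤ Real.cos (wind t * (Real.pi / 8)) * xc ^ t.length := by
    intro t ht
    have h1 := wind_By ht
    have h2 : |((wind t : ℤ) : ℝ)| ≤ 4 := by exact_mod_cast h1
    rw [abs_le] at h2
    apply mul_nonneg _ (pow_nonneg xc_pos.le _)
    apply Real.cos_nonneg_of_mem_Icc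
    constructor <;> nlinarith
  refine le_trans (le_of_eq ?_) (Finset.sum_le_sum_of_subset_of_nonneg
    (Finset.filter_subset (fun t => dx ((-1, 1) : Pt) t t.length = (1, -1)) _) (fun t ht _ => hnn t ht))
  apply Finset.sum_congr rfl
  intro t ht
  rw [Finset.mem_filter] at ht
  have h1 := wind_By ht.1
  have h2 := ang_dx h0 t
  rw [ht.2] at h2
  have h3 : wind t = 3 ∨ wind t = -3 := by
    rw [abs_le] at h1
    obtain ⟨W, hW⟩ : ∃ W, W = wind t := ⟨_, rfl⟩
    rw [← hW] at h1 h2 ⊢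
    have hc : W = 0 ∨ W = 1 ∨ W = -1 ∨ W = 2 ∨ W = -2 ∨ W = 3 ∨ W = -3 ∨ W = 4 ∨ W = -4 := by omega
    rcases hc with rfl | rfl | rfl | rfl | rfl | rfl | rfl | rfl | rfl
    all_goals first | exact Or.inl rfl | exact Or.inr rfl | (exfalso; revert h2; decide)
  have h4 : Real.cos (wind t * (Real.pi / 8)) = Real.cos (3 * Real.pi / 8) := by
    rcases h3 with h | h
    · rw [h]
      congr 1
      push_cast
      ring
    · rw [h, ← Real.cos_neg]
      congr 1
      push_cast
      ring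
  rw [h4]
  ring

/-- module M2, the left side -/
theorem arc_bd' {L : ℕ} {hL : 1 ≤ L} (h2 : 2 ≤ L) (n : ℕ) (hn : 1 ≤ n) :
    (Cv L hL).Ws xc (Dm L 0 n) {(V 0 2, dL 0 2)} (V 0 0, dL 0 0) ≤ 1 / Real.cos (3 * Real.pi / 8) := by
  classical
  have eb : V 0 0 = ((0, 1) : Pt) := by decide
  have ed : dL 0 0 = ((-1, 1) : Pt) := by decide
  have ed' : dL 0 2 = ((-1, 1) : Pt) := by decide
  rw [eb, ed, ed']
  have hpl := plane_bd' n ((Dm L 0 n).card + 3)
  refine le_trans ?_ hpl
  unfold Nm.Ws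
  refine Finset.sum_le_sum_of_subset_of_nonneg ?_ fun t _ _ => pow_nonneg xc_pos.le _
  intro t ht
  rw [Finset.mem_filter, Nm.mem_arr, Finset.mem_singleton] at ht
  obtain ⟨harr, hle⟩ := ht
  have hlen := harr.length_le
  have hcol : ∀ i, 1 ≤ i → i ≤ t.length → ∃ x a : ℤ, vx ((0, 1) : Pt) (-1, 1) t i = V x a ∧
      (-(2 * n : ℤ) ≤ x ∧ x < 0) ∧ -(((Dm L 0 n).card + 3 : ℕ) : ℤ) ≤ a ∧ a ≤ (((Dm L 0 n).card + 3 : ℕ) : ℤ) := by
    intro i h1 h2'
    obtain ⟨x, a, hxa⟩ := exists_V (Vt_vx' t i)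
    have h3 := harr.mem i h1 h2'
    have h4 : (Cv L hL).nm (vx ((0, 1) : Pt) (-1, 1) t i) ∈ Dm L 0 n := h3
    rw [hxa, nm_Vm, mem_Dm] at h4
    refine ⟨x, a, hxa, ⟨h4.1.1, by have := h4.1.2; push_cast at this; omega⟩, ?_⟩
    have h5 := vx_row ((0, 1) : Pt) (d := (-1, 1)) (by decide) t i
    have h6 := vx_col ((0, 1) : Pt) (d := (-1, 1)) (by decide) t i
    rw [hxa, abs_le] at h5 h6
    have h7 := ri_V x a
    unfold ri at h7
    have h8 : ((0, 1) : Pt).1 = 0 := rfl
    have h9 : ((0, 1) : Pt).2 = 1 := rfl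
    rw [h9] at h5
    rw [h8] at h6
    push_cast
    omega
  have hle1 : dx ((-1, 1) : Pt) t t.length = (1, -1) := by
    have h3 := congrArg Prod.snd hle
    have h4 : -(dx ((-1, 1) : Pt) t t.length) = (-1, 1) := h3
    rw [← neg_neg (dx ((-1, 1) : Pt) t t.length), h4]
    rfl
  have hle2 : (tip ((0, 1) : Pt) (-1, 1) t).1 = 0 := by
    have h3 := congrArg (fun p : Pt × Pt => p.1.1) hle
    exact h3
  rw [Finset.mem_filter]
  refine ⟨?_, hle1⟩
  unfold exits
  rw [Finset.mem_filter, mem_arr]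
  refine ⟨⟨?_, ?_⟩, ?_⟩
  · intro i h1 h2'
    obtain ⟨x, a, hxa, hx, ha⟩ := hcol i h1 h2'
    rw [hxa, mem_By]
    exact ⟨hx, ha⟩
  · intro i k hik hk e
    rcases Nat.eq_zero_or_pos i with h3 | h3
    · subst h3
      obtain ⟨x, a, hxa, hx, -⟩ := hcol k (by omega) hk
      rw [hxa] at e
      have h4 := congrArg Prod.fst e
      rw [V_fst] at h4
      have h5 : (0 : ℤ) = x := h4
      omega
    · exact harr.inj i k h3 hik hk (congrArg (Cv L hL).nm e)
  · intro h3
    obtain ⟨x, a, hxa, hx, -⟩ := exists_of_mem_By h3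
    rw [hxa, V_fst] at hle2
    omega

end Pool.Agent.MXR
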