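import Pool.Agent.HexObs.Main

/-!
# The vertex identity for a half plane with any normal (first part of the module M2 of nu34/22a)

The proofs of `HexObs.loop_turn` and `HexObs.identity` work for a domain in a half plane with any normal `nn`
whose boundary passes through the starting vertex.
-/

set_option autoImplicit false

namespace Pool.Agent.MXR

open HexObs Complex Finset

section

variable {v0 d0 : Pt} {τ : ℕ → Bool}

/-- The loop lemma for a half plane with any normal. -/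
theorem loop_turnN (h0 : d0 ∈ dirs) {j l : ℕ} (hj : 1 ≤ j) (hjl : j ≤ l)
    (hclosed : vs v0 d0 τ (l + 1) = vs v0 d0 τ j)
    (hd : ∀ i k, i < k → k ≤ l → vs v0 d0 τ i ≠ vs v0 d0 τ k)
    (nn : Pt) (hhalf : ∀ i, 1 ≤ i → i ≤ l → 0 < ip (vs v0 d0 τ i - v0) nn) :
    ∑ k ∈ range (l - j), sgn (τ (j + k)) = -5 * sgn (τ (j - 1)) := by
  -- lengths
  have hjl1 : j ≠ l := by
    rintro rfl
    rw [vs_succ] at hclosed
    have : ds d0 τ j = 0 := by simpa using hclosed
    have h1 := mem_dirs.1 (ds_mem h0 (τ := τ) j)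
    rw [this] at h1
    simp [nrm] at h1
  have hjl2 : j + 1 ≠ l := by
    rintro rfl
    rw [vs_succ, vs_succ, add_assoc, ds_succ] at hclosed
    have : ds d0 τ j + turn (τ j) (ds d0 τ j) = 0 := by simpa using hclosed
    exact turn_ne_neg _ (ds_mem h0 j) _ this
  obtain ⟨j', rfl⟩ : ∃ j', j = j' + 1 := ⟨j - 1, by omega⟩
  obtain ⟨l', rfl⟩ : ∃ l', l = l' + 1 := ⟨l - 1, by omega⟩
  rw [Nat.add_sub_cancel]
  obtain ⟨b, hb⟩ : ∃ b, b = τ j' := ⟨_, rfl⟩
  rw [← hb]
  set d := ds d0 τ j' with hdd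
  have hdm : d ∈ dirs := ds_mem h0 j'
  have hdj : ds d0 τ (j' + 1) = turn b d := by rw [ds_succ, hb]
  obtain ⟨e, he⟩ : ∃ e, e = ds d0 τ (l' + 1) := ⟨_, rfl⟩
  have hem : e ∈ dirs := by
    rw [he]
    exact ds_mem h0 _
  -- class of e
  have hcl : cl e = cl d := by
    have h1 := congrArg cl hclosed
    rw [cl_vs, cl_vs] at h1
    have hne := cl_dir_ne h0
    rw [he, hdd, cl_ds, cl_ds]
    by_cases ha : Even (l' + 1 + 1) <;> by_cases hb' : Even (j' + 1)
    · have e1 : ¬ Even (l' + 1) := by simpa [Nat.even_add_one] using ha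
      have e2 : ¬ Even j' := by simpa [Nat.even_add_one] using hb'
      rw [if_neg e1, if_neg e2]
    · rw [if_pos ha, if_neg hb'] at h1
      exact absurd (by simpa using h1.symm) hne
    · rw [if_neg ha, if_pos hb'] at h1
      exact absurd (by simpa using h1) hne
    · have e1 : Even (l' + 1) := by
        rw [Nat.even_add_one, not_not] at ha
        exact ha
      have e2 : Even j' := by
        rw [Nat.even_add_one, not_not] at hb'
        exact hb'
      rw [if_pos e1, if_pos e2]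
  have hvl : vs v0 d0 τ (l' + 1) = vs v0 d0 τ (j' + 1) - e := by
    rw [eq_sub_iff_add_eq, he, ← vs_succ, hclosed]
  have hne1 : e ≠ d := by
    intro h
    apply hd j' (l' + 1) (by omega) le_rfl
    rw [hvl, h, vs_succ, hdd]
    abel
  have hne2 : -e ≠ turn b d := by
    intro h
    apply hd (j' + 1 + 1) (l' + 1) (by omega) le_rfl
    rw [hvl, vs_succ (j' + 1), hdj, ← h]
    abel
  have hee := check_return d hdm e hem b hcl hne1 hne2
  have hme : -e = turn (!b) d := by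
    rw [hee]
    exact neg_turn_turn d hdm b
  -- the mid point z
  set z : Pt := vs v0 d0 τ (l' + 1) + vs v0 d0 τ (l' + 1) + e with hz
  have hz2 : z = vs v0 d0 τ (j' + 1) + vs v0 d0 τ (j' + 1) + (-e) := by
    rw [hz, hvl]
    abel
  set V : ℕ → ℂ := fun i => emb (vs v0 d0 τ i + vs v0 d0 τ i) with hV
  -- E1
  obtain ⟨m, rfl⟩ : ∃ m, l' = j' + 1 + m := ⟨l' - j' - 1, by omega⟩
  have E1 := hopf_half (v0 := v0) (τ := τ) h0 (a := 0) (b := j' + 1 + m + 1) (by omega) (c := τ (j' + 1 + m))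
    (fun i k _ h1 h2 => hd i k h1 h2)
  have E2 := hopf_half (v0 := v0) (τ := τ) h0 (a := 0) (b := j' + 1) (by omega) (c := !b)
    (fun i k _ h1 h2 => hd i k h1 (by omega))
  have E3 := hopf_half (v0 := v0) (τ := τ) h0 (a := j' + 1) (b := j' + 1 + m + 1) (by omega) (c := τ (j' + 1 + m))
    (fun i k _ h1 h2 => hd i k h1 h2)
  have E4 := hopf_full (v0 := v0) (τ := τ) h0 (a := j' + 1) (b := j' + 1 + m + 1) (by omega)
    (fun i k _ h1 h2 => hd i k h1 h2) (fun i => V (j' + 1 + i)) (fun i => rfl)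
  have E5 := hopf_start (v0 := v0) (τ := τ) h0 (a := j' + 1) (b := j' + 1 + m + 1) (by omega) (c := !b) hem
    (by rw [hdj, hee, turn_turn]) (fun i k _ h1 h2 => hd i k h1 h2) (fun i => V (j' + 1 + i)) (fun i => rfl)
    z hz2
  have r1 : j' + 1 + m + 1 - (j' + 1) = m + 1 := by omega
  have r2 : j' + 1 + m + 1 - 1 - (j' + 1) = m := by omega
  have r3 : j' + 1 + m + 1 - 1 = j' + 1 + m := by omega
  rw [r1, r2] at E3 E4 E5
  rw [r3] at E3
  simp only [Nat.add_sub_cancel, Nat.sub_zero] at E1 E2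
  rw [← ds_succ, ← he] at E1 E3
  rw [← hdd, ← hme] at E2
  -- values of the polygons
  have p1 : ∀ i, i ≤ j' + 1 + m + 1 → poly v0 d0 τ 0 (j' + 1 + m + 1) e i = vs v0 d0 τ i + vs v0 d0 τ i := by
    intro i hi
    unfold poly
    rw [if_pos (by omega), zero_add]
  have p1z : poly v0 d0 τ 0 (j' + 1 + m + 1) e (j' + 1 + m + 1 + 1) = z := by
    unfold poly
    rw [if_neg (by omega)]
  have p2 : ∀ i, i ≤ j' + 1 → poly v0 d0 τ 0 (j' + 1) (-e) i = vs v0 d0 τ i + vs v0 d0 τ i := by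
    intro i hi
    unfold poly
    rw [if_pos (by omega), zero_add]
  have p2z : poly v0 d0 τ 0 (j' + 1) (-e) (j' + 1 + 1) = z := by
    unfold poly
    rw [if_neg (by omega), hz2]
  have p3 : ∀ i, i ≤ m + 1 → poly v0 d0 τ (j' + 1) (j' + 1 + m + 1) e i =
      vs v0 d0 τ (j' + 1 + i) + vs v0 d0 τ (j' + 1 + i) := by
    intro i hi
    unfold poly
    rw [if_pos (by omega)]
  have p3z : poly v0 d0 τ (j' + 1) (j' + 1 + m + 1) e (m + 1 + 1) = z := by
    unfold poly
    rw [if_neg (by omega)]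
  -- half plane facts
  have hh : ∀ i, 1 ≤ i → i ≤ j' + 1 + m + 1 →
      0 < ip (vs v0 d0 τ i + vs v0 d0 τ i - (vs v0 d0 τ 0 + vs v0 d0 τ 0)) nn := by
    intro i h1 h2
    have := hhalf i h1 h2
    have e1 : vs v0 d0 τ i + vs v0 d0 τ i - (vs v0 d0 τ 0 + vs v0 d0 τ 0) =
        (vs v0 d0 τ i - v0) + (vs v0 d0 τ i - v0) := by
      show vs v0 d0 τ i + vs v0 d0 τ i - (v0 + v0) = _
      abel
    rw [e1, ip_add_left]
    linarith
  have hhz : 0 < ip (z - (vs v0 d0 τ 0 + vs v0 d0 τ 0)) nn := by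
    have e1 : z - (vs v0 d0 τ 0 + vs v0 d0 τ 0) =
        (vs v0 d0 τ (j' + 1 + m + 1) - v0) + (vs v0 d0 τ (j' + 1) - v0) := by
      rw [hz]
      have : vs v0 d0 τ (j' + 1) = vs v0 d0 τ (j' + 1 + m + 1) + e := by
        rw [hvl]
        abel
      rw [this]
      show _ - (v0 + v0) = _
      abel
    rw [e1, ip_add_left]
    have h1 := hhalf (j' + 1 + m + 1) (by omega) le_rfl
    have h2 := hhalf (j' + 1) (by omega) (by omega)
    linarith
  -- first sums of E1, E2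
  have X1 := half_sum (poly v0 d0 τ 0 (j' + 1 + m + 1) e) nn (j' + 1 + m + 1) (by
    intro i h1 h2
    rcases Nat.lt_or_ge (j' + 1 + m + 1) i with h3 | h3
    · have : i = j' + 1 + m + 1 + 1 := by omega
      rw [this, p1z, p1 0 (by omega)]
      exact hhz
    · rw [p1 i h3, p1 0 (by omega)]
      exact hh i h1 h3)
  have X2 := half_sum (poly v0 d0 τ 0 (j' + 1) (-e)) nn (j' + 1) (by
    intro i h1 h2
    rcases Nat.lt_or_ge (j' + 1) i with h3 | h3
    · have : i = j' + 1 + 1 := by omega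
      rw [this, p2z, p2 0 (by omega)]
      exact hhz
    · rw [p2 i h3, p2 0 (by omega)]
      exact hh i h1 (by omega))
  rw [X1, p1z, p1 0 (by omega), p1 1 (by omega)] at E1
  rw [X2, p2z, p2 0 (by omega), p2 1 (by omega)] at E2
  -- second sums
  have S1 : ∑ i ∈ range (j' + 1 + m + 1), arg ((emb z - emb (poly v0 d0 τ 0 (j' + 1 + m + 1) e (i + 1))) /
      (emb z - emb (poly v0 d0 τ 0 (j' + 1 + m + 1) e i))) =
      ∑ i ∈ range (j' + 1 + m + 1), arg ((emb z - V (i + 1)) / (emb z - V i)) := by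
    apply Finset.sum_congr rfl
    intro i hi
    rw [mem_range] at hi
    rw [p1 _ (by omega), p1 _ (by omega)]
  have S2 : ∑ i ∈ range (j' + 1), arg ((emb z - emb (poly v0 d0 τ 0 (j' + 1) (-e) (i + 1))) /
      (emb z - emb (poly v0 d0 τ 0 (j' + 1) (-e) i))) =
      ∑ i ∈ range (j' + 1), arg ((emb z - V (i + 1)) / (emb z - V i)) := by
    apply Finset.sum_congr rfl
    intro i hi
    rw [mem_range] at hi
    rw [p2 _ (by omega), p2 _ (by omega)]
  have S3 : ∑ i ∈ range (m + 1), arg ((emb z - emb (poly v0 d0 τ (j' + 1) (j' + 1 + m + 1) e (i + 1))) /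
      (emb z - emb (poly v0 d0 τ (j' + 1) (j' + 1 + m + 1) e i))) =
      ∑ i ∈ range (m + 1), arg ((emb z - V (j' + 1 + i + 1)) / (emb z - V (j' + 1 + i))) := by
    apply Finset.sum_congr rfl
    intro i hi
    rw [mem_range] at hi
    rw [p3 _ (by omega), p3 _ (by omega)]
    rfl
  have S4 : ∑ i ∈ range (m + 1), arg ((emb (poly v0 d0 τ (j' + 1) (j' + 1 + m + 1) e (i + 2)) -
      emb (poly v0 d0 τ (j' + 1) (j' + 1 + m + 1) e 0)) /
      (emb (poly v0 d0 τ (j' + 1) (j' + 1 + m + 1) e (i + 1)) - emb (poly v0 d0 τ (j' + 1) (j' + 1 + m + 1) e 0))) =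
      ∑ i ∈ range m, arg ((V (j' + 1 + (i + 2)) - V (j' + 1 + 0)) / (V (j' + 1 + (i + 1)) - V (j' + 1 + 0))) := by
    rw [Finset.sum_range_succ]
    have last : arg ((emb (poly v0 d0 τ (j' + 1) (j' + 1 + m + 1) e (m + 2)) -
      emb (poly v0 d0 τ (j' + 1) (j' + 1 + m + 1) e 0)) /
      (emb (poly v0 d0 τ (j' + 1) (j' + 1 + m + 1) e (m + 1)) -
        emb (poly v0 d0 τ (j' + 1) (j' + 1 + m + 1) e 0))) = 0 := by
      rw [show m + 2 = m + 1 + 1 from rfl, p3z, p3 _ le_rfl, p3 0 (by omega), ← emb_sub, ← emb_sub]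
      have g1 : z - (vs v0 d0 τ (j' + 1 + 0) + vs v0 d0 τ (j' + 1 + 0)) = -e := by
        rw [hz2, add_zero]
        abel
      have g2 : vs v0 d0 τ (j' + 1 + (m + 1)) + vs v0 d0 τ (j' + 1 + (m + 1)) -
          (vs v0 d0 τ (j' + 1 + 0) + vs v0 d0 τ (j' + 1 + 0)) = -e + -e := by
        rw [show j' + 1 + (m + 1) = j' + 1 + m + 1 from rfl, hvl, add_zero]
        abel
      rw [g1, g2, emb_two]
      have hne : emb (-e) ≠ 0 := emb_ne (by rw [mem_dirs, nrm_neg]; exact mem_dirs.1 hem)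
      have g3 : emb (-e) / (((2 : ℝ) : ℂ) * emb (-e)) = ((1 / 2 : ℝ) : ℂ) := by
        push_cast
        field_simp
      rw [g3, Complex.arg_ofReal_of_nonneg (by norm_num)]
    rw [last, add_zero]
    apply Finset.sum_congr rfl
    intro i hi
    rw [mem_range] at hi
    rw [p3 _ (by omega), p3 _ (by omega), p3 _ (by omega)]
  have S5 : ∑ j ∈ range (m + 1), arg ((V (j' + 1 + (j + 1)) - emb z) / (V (j' + 1 + j) - emb z)) =
      ∑ i ∈ range (m + 1), arg ((emb z - V (j' + 1 + i + 1)) / (emb z - V (j' + 1 + i))) := by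
    apply Finset.sum_congr rfl
    intro i _
    congr 1
    have h1 : V (j' + 1 + i + 1) = V (j' + 1 + (i + 1)) := rfl
    rw [h1, ← neg_div_neg_eq (emb z - V (j' + 1 + (i + 1))), neg_sub, neg_sub]
  have S6 : arg ((V (j' + 1 + (m + 1)) - V (j' + 1 + 0)) / (V (j' + 1 + (m + 1)) - emb z)) = 0 := by
    show arg ((emb (vs v0 d0 τ (j' + 1 + (m + 1)) + vs v0 d0 τ (j' + 1 + (m + 1))) -
      emb (vs v0 d0 τ (j' + 1 + 0) + vs v0 d0 τ (j' + 1 + 0))) /
      (emb (vs v0 d0 τ (j' + 1 + (m + 1)) + vs v0 d0 τ (j' + 1 + (m + 1))) - emb z)) = 0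
    rw [← emb_sub, ← emb_sub]
    have g1 : vs v0 d0 τ (j' + 1 + (m + 1)) + vs v0 d0 τ (j' + 1 + (m + 1)) - z = -e := by
      rw [hz, show j' + 1 + (m + 1) = j' + 1 + m + 1 from rfl]
      abel
    have g2 : vs v0 d0 τ (j' + 1 + (m + 1)) + vs v0 d0 τ (j' + 1 + (m + 1)) -
        (vs v0 d0 τ (j' + 1 + 0) + vs v0 d0 τ (j' + 1 + 0)) = -e + -e := by
      rw [show j' + 1 + (m + 1) = j' + 1 + m + 1 from rfl, hvl, add_zero]
      abel
    rw [g1, g2, emb_two]
    have hne : emb (-e) ≠ 0 := emb_ne (by rw [mem_dirs, nrm_neg]; exact mem_dirs.1 hem)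
    have g3 : (((2 : ℝ) : ℂ) * emb (-e)) / emb (-e) = ((2 : ℝ) : ℂ) := by
      field_simp
    rw [g3, Complex.arg_ofReal_of_nonneg (by norm_num)]
  rw [S1] at E1
  rw [S2] at E2
  rw [p3z, S3, S4] at E3
  rw [S5, S6, zero_add] at E5
  -- splitting
  have hsplit : ∑ i ∈ range (j' + 1 + m + 1), arg ((emb z - V (i + 1)) / (emb z - V i)) =
      ∑ i ∈ range (j' + 1), arg ((emb z - V (i + 1)) / (emb z - V i)) +
      ∑ i ∈ range (m + 1), arg ((emb z - V (j' + 1 + i + 1)) / (emb z - V (j' + 1 + i))) := by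
    rw [show j' + 1 + m + 1 = (j' + 1) + (m + 1) from rfl, Finset.sum_range_add]
  rw [hsplit] at E1
  have hLsplit : (∑ k ∈ range (j' + 1 + m), (sgn (τ (0 + k)) : ℝ)) =
      ∑ k ∈ range j', (sgn (τ (0 + k)) : ℝ) + sgn b + ∑ k ∈ range m, (sgn (τ (j' + 1 + k)) : ℝ) := by
    rw [Finset.sum_range_add, Finset.sum_range_succ, hb]
    simp only [zero_add]
  rw [hLsplit] at E1
  have hns : (sgn (!b) : ℝ) = - (sgn b : ℝ) := by
    rw [sgn_not]
    push_cast
    ring
  rw [hns] at E2 E5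
  have goal1 : j' + 1 + m + 1 - (j' + 1) = m + 1 := by omega
  rw [goal1, Finset.sum_range_succ]
  have hpi := Real.pi_pos
  set A := ∑ i ∈ range (m + 1), arg ((emb z - V (j' + 1 + i + 1)) / (emb z - V (j' + 1 + i))) with hA
  set L1 := ∑ k ∈ range m, (sgn (τ (j' + 1 + k)) : ℝ) with hL1
  set A1 := ∑ i ∈ range m, arg ((V (j' + 1 + (i + 2)) - V (j' + 1 + 0)) / (V (j' + 1 + (i + 1)) - V (j' + 1 + 0)))
    with hA1
  set x : ℝ := (sgn (τ (j' + 1 + m)) : ℝ) with hx
  set eps : ℝ := (sgn b : ℝ) with heps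
  -- E3 : (L1 + x) * (pi/3) = A1 + A ; E4, E5: -eps*(pi/3) = A - A1 ; E1 - E2: (2 eps + L1 + x)(pi/3) = A
  have F1 : (2 * eps + L1 + x) * (Real.pi / 3) = A := by linarith
  have F2 : A1 = A + eps * (Real.pi / 3) := by linarith
  have F3 : (L1 + x) * (Real.pi / 3) = A1 + A := E3
  have F4 : (L1 + x + 5 * eps) * (Real.pi / 3) = 0 := by
    rw [F2, ← F1] at F3
    linarith
  have F5 : L1 + x + 5 * eps = 0 := by
    rcases mul_eq_zero.1 F4 with h | h
    · exact h
    · linarith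
  have F6 : ((∑ k ∈ range m, sgn (τ (j' + 1 + k)) + sgn (τ (j' + 1 + m)) : ℤ) : ℝ) = ((-5 * sgn b : ℤ) : ℝ) := by
    push_cast
    linarith
  exact_mod_cast F6


end

variable {Ω : Finset Pt} {v0 d0 : Pt}

lemma back_retN {nn : Pt} (hhalf : ∀ v ∈ Ω, 0 < ip (v - v0) nn) {t : List Bool} (ht : t ∈ back Ω v0 d0) :
    1 ≤ ret v0 d0 t ∧ ret v0 d0 t ≤ t.length ∧ vx v0 d0 t (ret v0 d0 t) = tip v0 d0 t := by
  classical
  rw [mem_back] at ht
  obtain ⟨harr, hmem, hnot⟩ := ht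
  push Not at hnot
  obtain ⟨i, hi, hv⟩ := hnot
  have hi1 : 1 ≤ i := by
    rcases Nat.eq_zero_or_pos i with h0 | h0
    · exfalso
      rw [h0] at hv
      have h1 : v0 = tip v0 d0 t := hv
      have h2 := hhalf _ hmem
      rw [← h1, sub_self] at h2
      simp [ip] at h2
    · exact h0
  rw [ret_unique harr hi1 hi hv]
  exact ⟨hi1, hi, hv⟩

lemma halfN {nn : Pt} (hhalf : ∀ v ∈ Ω, 0 < ip (v - v0) nn) {t : List Bool} (h : IsArr Ω v0 d0 t) :
    ∀ i, 1 ≤ i → i ≤ t.length → 0 < ip (vs v0 d0 (tf t) i - v0) nn :=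
  fun i h1 h2 => hhalf _ (h.mem i h1 h2)

/-- the winding of a word that came back, and of its reversal. -/
lemma wind_backN (h0 : d0 ∈ dirs) {nn : Pt} (hhalf : ∀ v ∈ Ω, 0 < ip (v - v0) nn) {t : List Bool}
    (h : IsArr Ω v0 d0 t) {j : ℕ} (hj : 1 ≤ j) (hjl : j ≤ t.length) (hv : vx v0 d0 t j = tip v0 d0 t) :
    wind t = ∑ i ∈ range (j - 1), sgn (tf t i) - 4 * sgn (tf t (j - 1)) := by
  rw [wind_sum]
  obtain ⟨m, hm⟩ : ∃ m, t.length = (j - 1) + 1 + m := ⟨t.length - j, by omega⟩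
  rw [hm, Finset.sum_range_add, Finset.sum_range_succ]
  have := loop_turnN (τ := tf t) h0 hj hjl hv.symm h.inj nn (halfN hhalf h)
  have e1 : t.length - j = m := by omega
  rw [e1] at this
  have e2 : j - 1 + 1 = j := by omega
  rw [e2, this]
  ring

lemma wt_revwN (h0 : d0 ∈ dirs) {nn : Pt} (hhalf : ∀ v ∈ Ω, 0 < ip (v - v0) nn) {t : List Bool}
    (h : IsArr Ω v0 d0 t) {j : ℕ} (hj : 1 ≤ j) (hjl : j ≤ t.length) (hv : vx v0 d0 t j = tip v0 d0 t) :
    wt t + wt (revw t j) = 0 := by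
  obtain ⟨h', hv', -⟩ := revw_back h0 h hj hjl hv
  have hl := revw_length t j
  have w1 := wind_backN h0 hhalf h hj hjl hv
  have w2 := wind_backN h0 hhalf h' hj (by omega) hv'
  have e1 : ∑ i ∈ range (j - 1), sgn (tf (revw t j) i) = ∑ i ∈ range (j - 1), sgn (tf t i) := by
    apply Finset.sum_congr rfl
    intro i hi
    rw [mem_range] at hi
    rw [tf_revw (by omega), revτ_lt (by omega)]
  have e2 : sgn (tf (revw t j) (j - 1)) = - sgn (tf t (j - 1)) := by
    rw [tf_revw (by omega), revτ_eq hj, sgn_not]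
  rw [e1, e2] at w2
  have e3 : wind (revw t j) = wind t + 8 * sgn (tf t (j - 1)) := by
    rw [w1, w2]
    ring
  unfold wt
  rw [hl, e3]
  have e4 : (((((wind t + 8 * sgn (tf t (j - 1)) : ℤ) : ℝ) * (Real.pi / 8) : ℝ)) : ℂ) * I =
      (((wind t : ℝ) * (Real.pi / 8) : ℝ) : ℂ) * I + (sgn (tf t (j - 1)) : ℂ) * (Real.pi * I) := by
    push_cast
    ring
  rw [e4, Complex.exp_add]
  have e5 : Complex.exp ((sgn (tf t (j - 1)) : ℂ) * (Real.pi * I)) = -1 := by
    cases tf t (j - 1)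
    · simp only [sgn, Bool.false_eq_true, if_false]
      push_cast
      rw [neg_one_mul, Complex.exp_neg, Complex.exp_pi_mul_I]
      norm_num
    · simp only [sgn, if_true]
      push_cast
      rw [one_mul, Complex.exp_pi_mul_I]
  rw [e5]
  ring

theorem sum_backN (h0 : d0 ∈ dirs) {nn : Pt} (hhalf : ∀ v ∈ Ω, 0 < ip (v - v0) nn) :
    ∑ t ∈ back Ω v0 d0, wt t = 0 := by
  refine Finset.sum_involution (fun t _ => revw t (ret v0 d0 t)) ?_ ?_ ?_ ?_
  · intro t ht
    obtain ⟨h1, h2, h3⟩ := back_retN hhalf ht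
    exact wt_revwN h0 hhalf (mem_back.1 ht).1 h1 h2 h3
  · intro t ht _
    obtain ⟨h1, h2, h3⟩ := back_retN hhalf ht
    exact revw_ne h1 h2
  · intro t ht
    obtain ⟨h1, h2, h3⟩ := back_retN hhalf ht
    obtain ⟨h', hv', ht'⟩ := revw_back h0 (mem_back.1 ht).1 h1 h2 h3
    rw [mem_back]
    refine ⟨h', ?_, ?_⟩
    · rw [ht']
      exact (mem_back.1 ht).2.1
    · push Not
      exact ⟨ret v0 d0 t, by rw [revw_length]; exact h2, hv'⟩
  · intro t ht
    obtain ⟨h1, h2, h3⟩ := back_retN hhalf ht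
    obtain ⟨h', hv', ht'⟩ := revw_back h0 (mem_back.1 ht).1 h1 h2 h3
    show revw (revw t (ret v0 d0 t)) (ret v0 d0 (revw t (ret v0 d0 t))) = t
    rw [ret_unique h' h1 (by rw [revw_length]; exact h2) hv']
    exact revw_revw h1 h2

/-- THE IDENTITY of Duminil-Copin and Smirnov: for walks that start at the boundary of a half plane containing
the domain, the weights of the walks leaving the domain sum to 1. -/
theorem identityN (Ω : Finset Pt) {v0 d0 : Pt} (h0 : d0 ∈ dirs) {nn : Pt} (hhalf : ∀ v ∈ Ω, 0 < ip (v - v0) nn) :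
    ∑ t ∈ exits Ω v0 d0, wt t = 1 := by
  have h1 := sum_arr Ω v0 d0 wt
  rw [sum_arr' Ω v0 d0, sum_backN h0 hhalf] at h1
  linear_combination -h1

/-- the real part. -/
theorem identity_reN (Ω : Finset Pt) {v0 d0 : Pt} (h0 : d0 ∈ dirs) {nn : Pt} (hhalf : ∀ v ∈ Ω, 0 < ip (v - v0) nn) :
    ∑ t ∈ exits Ω v0 d0, Real.cos (wind t * (Real.pi / 8)) * xc ^ t.length = 1 := by
  have h1 := congrArg Complex.re (identityN Ω h0 hhalf)
  rw [Complex.re_sum, Complex.one_re] at h1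
  rw [← h1]
  apply Finset.sum_congr rfl
  intro t _
  unfold wt
  rw [← Complex.ofReal_pow, Complex.re_mul_ofReal, Complex.exp_ofReal_mul_I_re]

end Pool.Agent.MXR
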