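import Pool.Agent.MXR.LoopN
import Pool.Agent.HexObs.Exit2

/-!
# A bound of the winding (second part of the module M2 of nu34/22a)

A walk starts at the boundary of a half plane with the normal `nn`, and its last step leaves a half plane with
the normal `mm`; if the angle between the last step and `mm` is at most 30 degrees then the winding is at most
4 (in units of 60 degrees).
-/

set_option autoImplicit false

namespace Pool.Agent.MXR

open HexObs Complex Finset

/-- the angle at the start, general position. -/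
theorem arg_sum_le {U : ℂ} (h0 : U ≠ 0) (h1 : U ≠ 1) : |arg U + arg ((U - 1) / U)| ≤ Real.pi := by
  have hpi := Real.pi_pos
  have hU1 : U - 1 ≠ 0 := sub_ne_zero.2 h1
  rcases lt_trichotomy U.im 0 with him | him | him
  · -- conjugate
    have key : ∀ V : ℂ, 0 < V.im → |arg V + arg ((V - 1) / V)| ≤ Real.pi := by
      intro V hV
      have hV0 : V ≠ 0 := by
        rintro rfl
        simp at hV
      have a1 : 0 < arg V := by
        rcases lt_or_eq_of_le (Complex.arg_nonneg_iff.2 hV.le) with h | h
        · exact h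
        · exfalso
          have := Complex.arg_eq_zero_iff.1 h.symm
          linarith [this.2]
      have a2 : arg V ≤ Real.pi := Complex.arg_le_pi V
      have hV1 : 0 < (V - 1).im := by simpa using hV
      have a3 : 0 < arg (V - 1) := by
        rcases lt_or_eq_of_le (Complex.arg_nonneg_iff.2 hV1.le) with h | h
        · exact h
        · exfalso
          have := Complex.arg_eq_zero_iff.1 h.symm
          linarith [this.2]
      have a4 : arg (V - 1) ≤ Real.pi := Complex.arg_le_pi _
      have e : arg ((V - 1) / V) = arg (V - 1) - arg V := by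
        have hx : (0 : ℝ) < (V * (starRingEnd ℂ) I).re := by
          simp
          exact hV
        have hy : (0 : ℝ) < ((V - 1) * (starRingEnd ℂ) I).re := by
          simp
          exact hV
        have hb1 : V / I ∈ Complex.slitPlane := by
          left
          simpa using hV
        have hb2 : (V - 1) / I ∈ Complex.slitPlane := by
          left
          simpa using hV
        rw [arg_div_of_half hx hy]
        have k : ∀ W : ℂ, 0 < W.im → arg (W / I) = arg W - Real.pi / 2 := by
          intro W hW
          have hW0 : W ≠ 0 := by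
            rintro rfl
            simp at hW
          have b1 : 0 < arg W := by
            rcases lt_or_eq_of_le (Complex.arg_nonneg_iff.2 hW.le) with h | h
            · exact h
            · exfalso
              have := Complex.arg_eq_zero_iff.1 h.symm
              linarith [this.2]
          have b2 : arg W ≤ Real.pi := Complex.arg_le_pi W
          rw [div_eq_mul_inv, Complex.inv_I, Complex.arg_mul hW0 (neg_ne_zero.2 Complex.I_ne_zero)]
          · rw [Complex.arg_neg_I]
            ring
          · rw [Complex.arg_neg_I]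
            constructor <;> linarith
        rw [k _ hV1, k _ hV]
        ring
      rw [e, abs_le]
      constructor <;> linarith
    have h := key ((starRingEnd ℂ) U) (by rw [Complex.conj_im]; linarith)
    have e1 : ((starRingEnd ℂ) U - 1) / (starRingEnd ℂ) U = (starRingEnd ℂ) ((U - 1) / U) := by
      rw [map_div₀, map_sub, map_one]
    have him2 : ((U - 1) / U).im ≠ 0 := by
      have e : (U - 1) / U = ((U - 1) * (starRingEnd ℂ) U) / (Complex.normSq U : ℂ) := by
        rw [div_eq_div_iff h0 (by exact_mod_cast (Complex.normSq_pos.2 h0).ne')]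
        rw [mul_assoc, ← Complex.mul_conj, mul_comm ((starRingEnd ℂ) U) U]
      rw [e, Complex.div_ofReal_im]
      apply div_ne_zero _ (Complex.normSq_pos.2 h0).ne'
      rw [Complex.mul_im, Complex.conj_re, Complex.conj_im]
      simp only [Complex.sub_re, Complex.sub_im, Complex.one_re, Complex.one_im]
      nlinarith
    have c1 : arg ((starRingEnd ℂ) U) = - arg U := by
      rw [Complex.arg_conj, if_neg]
      intro h'
      have := Complex.arg_eq_pi_iff.1 h'
      linarith [this.2]
    have c2 : arg ((starRingEnd ℂ) ((U - 1) / U)) = - arg ((U - 1) / U) := by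
      rw [Complex.arg_conj, if_neg]
      intro h'
      exact him2 (Complex.arg_eq_pi_iff.1 h').2
    rw [e1, c1, c2, ← neg_add, abs_neg] at h
    exact h
  · -- real
    obtain ⟨r, hr⟩ : ∃ r : ℝ, U = (r : ℂ) := ⟨U.re, by
      apply Complex.ext
      · simp
      · simp [him]⟩
    subst hr
    have hr0 : r ≠ 0 := by exact_mod_cast h0
    have e2 : ((r : ℂ) - 1) / (r : ℂ) = (((r - 1) / r : ℝ) : ℂ) := by
      push_cast
      rfl
    rw [e2]
    rcases lt_or_gt_of_ne hr0 with h | h
    · rw [Complex.arg_ofReal_of_neg h, Complex.arg_ofReal_of_nonneg, add_zero, abs_of_pos hpi]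
      exact div_nonneg_of_nonpos (by linarith) h.le
    · rw [Complex.arg_ofReal_of_nonneg h.le, zero_add]
      exact Complex.abs_arg_le_pi _
  · have a1 : 0 < arg U := by
      rcases lt_or_eq_of_le (Complex.arg_nonneg_iff.2 him.le) with h | h
      · exact h
      · exfalso
        have := Complex.arg_eq_zero_iff.1 h.symm
        linarith [this.2]
    have hV1 : 0 < (U - 1).im := by simpa using him
    have k : ∀ W : ℂ, 0 < W.im → 0 < arg W ∧ arg (W / I) = arg W - Real.pi / 2 := by
      intro W hW
      have hW0 : W ≠ 0 := by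
        rintro rfl
        simp at hW
      have b1 : 0 < arg W := by
        rcases lt_or_eq_of_le (Complex.arg_nonneg_iff.2 hW.le) with h | h
        · exact h
        · exfalso
          have := Complex.arg_eq_zero_iff.1 h.symm
          linarith [this.2]
      have b2 : arg W ≤ Real.pi := Complex.arg_le_pi W
      refine ⟨b1, ?_⟩
      rw [div_eq_mul_inv, Complex.inv_I, Complex.arg_mul hW0 (neg_ne_zero.2 Complex.I_ne_zero)]
      · rw [Complex.arg_neg_I]
        ring
      · rw [Complex.arg_neg_I]
        constructor <;> linarith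
    have e : arg ((U - 1) / U) = arg (U - 1) - arg U := by
      have hx : (0 : ℝ) < (U * (starRingEnd ℂ) I).re := by
        simp
        exact him
      have hy : (0 : ℝ) < ((U - 1) * (starRingEnd ℂ) I).re := by
        simp
        exact him
      rw [arg_div_of_half hx hy, (k _ hV1).2, (k _ him).2]
      ring
    rw [e, abs_le]
    have := (k _ hV1).1
    have := Complex.arg_le_pi (U - 1)
    constructor <;> linarith

/-- the winding is at most 4. -/
theorem wind_absN {v0 d0 nn mm : Pt} (h0 : d0 ∈ dirs) {t : List Bool} (hlen : 1 ≤ t.length)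
    (hinj : ∀ i k, i < k → k ≤ t.length → vx v0 d0 t i ≠ vx v0 d0 t k)
    (hhalf : ∀ i, 1 ≤ i → i ≤ t.length → 0 < ip (vx v0 d0 t i - v0) nn)
    (htip : 0 ≤ ip (tip v0 d0 t - v0) nn)
    (hexit : ∀ i, 1 ≤ i → i ≤ t.length → 0 < ip (tip v0 d0 t - vx v0 d0 t i) mm)
    (hexit' : ∀ i, 1 ≤ i → i ≤ t.length → 0 ≤ ip (vx v0 d0 t t.length - vx v0 d0 t i) mm)
    (hang : |arg (emb (dx d0 t t.length) / emb mm)| ≤ Real.pi / 6)
    (hdm : 0 < ip (dx d0 t t.length) mm) : |wind t| ≤ 4 := by
  obtain ⟨l, hl⟩ : ∃ l, t.length = l + 1 := ⟨t.length - 1, by omega⟩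
  set d1 := dx d0 t t.length with hd1
  have hd1m : d1 ∈ dirs := ds_mem h0 _
  have htip' : tip v0 d0 t = vx v0 d0 t t.length + d1 := rfl
  set Z : Pt := vx v0 d0 t t.length + vx v0 d0 t t.length + d1 with hZ
  have H1 : 0 < ip (Z - (v0 + v0)) nn := by
    have e1 : Z - (v0 + v0) = (vx v0 d0 t t.length - v0) + (tip v0 d0 t - v0) := by
      rw [hZ, htip']
      abel
    rw [e1, ip_add_left]
    have := hhalf t.length hlen le_rfl
    linarith
  have H3 : ∀ i, 1 ≤ i → i ≤ t.length → 0 < ip (Z - (vx v0 d0 t i + vx v0 d0 t i)) mm := by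
    intro i h1 h2
    have e1 : Z - (vx v0 d0 t i + vx v0 d0 t i) =
        (tip v0 d0 t - vx v0 d0 t i) + (vx v0 d0 t t.length - vx v0 d0 t i) := by
      rw [hZ, htip']
      abel
    rw [e1, ip_add_left]
    have := hexit i h1 h2
    have := hexit' i h1 h2
    linarith
  -- Hopf
  have E := hopf_half (v0 := v0) (τ := tf t) h0 (a := 0) (b := t.length) (by omega) (c := tf t (t.length - 1))
    (fun i k _ h1 h2 => hinj i k h1 h2)
  have hds : turn (tf t (t.length - 1)) (ds d0 (tf t) (t.length - 1)) = d1 := by
    rw [hd1, hl]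
    rfl
  rw [hds] at E
  have p1 : ∀ i, i ≤ t.length → poly v0 d0 (tf t) 0 t.length d1 i = vx v0 d0 t i + vx v0 d0 t i := by
    intro i hi
    unfold poly
    rw [if_pos (by omega), zero_add]
    rfl
  have p1z : poly v0 d0 (tf t) 0 t.length d1 (t.length + 1) = Z := by
    unfold poly
    rw [if_neg (by omega)]
    rfl
  have X1 := half_sum (poly v0 d0 (tf t) 0 t.length d1) nn t.length (by
    intro i h1 h2
    rcases Nat.lt_or_ge t.length i with h3 | h3
    · have : i = t.length + 1 := by omega
      rw [this, p1z, p1 0 (by omega)]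
      exact H1
    · rw [p1 i h3, p1 0 (by omega)]
      have := hhalf i h1 h3
      have e1 : vx v0 d0 t i + vx v0 d0 t i - (vx v0 d0 t 0 + vx v0 d0 t 0) =
          (vx v0 d0 t i - v0) + (vx v0 d0 t i - v0) := by
        show vx v0 d0 t i + vx v0 d0 t i - (v0 + v0) = _
        abel
      rw [e1, ip_add_left]
      linarith)
  simp only [Nat.sub_zero] at E
  rw [X1, p1z] at E
  have X2 : ∑ i ∈ range t.length, arg ((emb Z - emb (poly v0 d0 (tf t) 0 t.length d1 (i + 1))) /
      (emb Z - emb (poly v0 d0 (tf t) 0 t.length d1 i))) =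
      arg ((emb Z - emb (vx v0 d0 t t.length + vx v0 d0 t t.length)) / (emb Z - emb (vx v0 d0 t 1 + vx v0 d0 t 1))) +
      arg ((emb Z - emb (vx v0 d0 t 1 + vx v0 d0 t 1)) / (emb Z - emb (vx v0 d0 t 0 + vx v0 d0 t 0))) := by
    rw [hl, Finset.sum_range_succ', ← hl]
    have X3 := half_sum_end (fun i => poly v0 d0 (tf t) 0 t.length d1 i) Z mm l (by
      intro i h1 h2
      show 0 < ip (Z - poly v0 d0 (tf t) 0 t.length d1 i) mm
      rw [p1 i (by omega)]
      exact H3 i h1 (by omega))
    rw [X3, zero_add, p1 1 (by omega), p1 0 (by omega), p1 (l + 1) (by omega)]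
    rw [← hl]
  rw [X2, p1 0 (by omega), p1 1 (by omega)] at E
  -- the winding
  have hW : ∑ k ∈ range (t.length - 1), (sgn (tf t (0 + k)) : ℝ) + (sgn (tf t (t.length - 1)) : ℝ) = (wind t : ℝ) := by
    rw [wind_sum, hl, Finset.sum_range_succ]
    simp
  rw [hW] at E
  -- the angles
  have v1e : vx v0 d0 t 1 + vx v0 d0 t 1 - (vx v0 d0 t 0 + vx v0 d0 t 0) = d0 + d0 := by
    show v0 + d0 + (v0 + d0) - (v0 + v0) = d0 + d0
    abel
  set P : Pt := Z - (v0 + v0) with hP
  have hZP : Z - (vx v0 d0 t 0 + vx v0 d0 t 0) = P := rfl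
  have hZP1 : Z - (vx v0 d0 t 1 + vx v0 d0 t 1) = P - (d0 + d0) := by
    show Z - (v0 + d0 + (v0 + d0)) = Z - (v0 + v0) - (d0 + d0)
    abel
  rw [← emb_sub, ← emb_sub, ← emb_sub, ← emb_sub, hZP, v1e, hZP1] at E
  set U : ℂ := emb P / emb (d0 + d0) with hU
  have hd0ne : emb (d0 + d0) ≠ 0 := by
    rw [emb_two]
    exact mul_ne_zero (by norm_num) (emb_ne h0)
  have hPne : emb P ≠ 0 := by
    intro h
    have h1 := re_emb_mul P nn
    rw [h, zero_mul, Complex.zero_re] at h1
    have : (0 : ℝ) < ip P nn := by exact_mod_cast H1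
    linarith
  have hQ : 0 < ip (P - (d0 + d0)) mm := by
    rw [← hZP1]
    exact H3 1 le_rfl hlen
  have hQne : emb (P - (d0 + d0)) ≠ 0 := by
    intro h
    have h1 := re_emb_mul (P - (d0 + d0)) mm
    rw [h, zero_mul, Complex.zero_re] at h1
    have : (0 : ℝ) < ip (P - (d0 + d0)) mm := by exact_mod_cast hQ
    linarith
  have hU1 : emb (P - (d0 + d0)) / emb P = (U - 1) / U := by
    rw [emb_sub, hU]
    field_simp
  rw [hU1] at E
  have hUne : U ≠ 0 := div_ne_zero hPne hd0ne
  have hUne1 : U ≠ 1 := by
    intro h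
    rw [hU, div_eq_iff hd0ne, one_mul] at h
    apply hQne
    rw [emb_sub, h, sub_self]
  have B1 := arg_sum_le hUne hUne1
  -- the last angle
  have e1 : Z - (vx v0 d0 t t.length + vx v0 d0 t t.length) = d1 := by
    rw [hZ]
    abel
  rw [e1] at E
  have hq : 0 < (emb (P - (d0 + d0)) * (starRingEnd ℂ) (emb mm)).re := by
    rw [re_emb_mul]
    have : (0 : ℝ) < ip (P - (d0 + d0)) mm := by exact_mod_cast hQ
    linarith
  have hd : 0 < (emb d1 * (starRingEnd ℂ) (emb mm)).re := by
    rw [re_emb_mul]
    have : (0 : ℝ) < ip d1 mm := by exact_mod_cast hdm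
    linarith
  have e2 := arg_div_of_half hq hd
  have hmne : emb mm ≠ 0 := by
    intro h
    rw [h] at hd
    simp at hd
  have hθb : |arg (emb (P - (d0 + d0)) / emb mm)| < Real.pi / 2 := by
    apply Complex.abs_arg_lt_pi_div_two_iff.2
    left
    have e3 : emb (P - (d0 + d0)) / emb mm =
        (emb (P - (d0 + d0)) * (starRingEnd ℂ) (emb mm)) / (Complex.normSq (emb mm) : ℂ) := by
      rw [div_eq_div_iff hmne (by exact_mod_cast (Complex.normSq_pos.2 hmne).ne')]
      rw [mul_assoc, ← Complex.mul_conj, mul_comm ((starRingEnd ℂ) _) (emb _)]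
    rw [e3, Complex.div_ofReal_re]
    exact div_pos hq (Complex.normSq_pos.2 hmne)
  rw [e2] at E
  rw [abs_lt] at hθb
  rw [abs_le] at hang B1
  have hpi := Real.pi_pos
  rw [abs_le]
  constructor
  · have : (-5 : ℝ) < wind t := by
      by_contra hcon
      push Not at hcon
      nlinarith
    have h' : (-5 : ℤ) < wind t := by exact_mod_cast this
    omega
  · have : (wind t : ℝ) < 5 := by
      by_contra hcon
      push Not at hcon
      nlinarith
    have h' : wind t < 5 := by exact_mod_cast this
    omega

end Pool.Agent.MXR
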