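import Pool.Agent.MXR.Maj

/-!
# The module M2 of nu34/22a as one proposition
-/

set_option autoImplicit false

namespace Pool.Agent.MXR

/-- the words around the cut edges have bounded weights, on both sides -/
theorem arcBd {L : ℕ} {hL : 1 ≤ L} (h2 : 2 ≤ L) : ArcBd L hL (1 / Real.cos (3 * Real.pi / 8)) :=
  fun n hn => ⟨arc_bd h2 n hn, arc_bd' h2 n hn⟩

end Pool.Agent.MXR
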