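import Pool.Agent.NUF.Cyl.Ring
import Pool.Agent.NUN.LMain

/-!
# The honeycomb lattice as a brick wall, the vertical cylinder (module M1 of nu34/22a)

`V x i` = the vertex with the column coordinate `x` in the row `i`.  The vertices `V x i`, `V (x + 1) i` are
neighbours; `V x i`, `V x (i + 1)` are neighbours if `x - i` is odd.
-/

set_option autoImplicit false

namespace Pool.Agent.MXR

open Pool.Agent.EXL Pool.Agent.EXL.Net HexObs HexObs.LP
open Pool.Agent.NUF.Cyl (ri Nm)

variable {K : Type*} [CommRing K]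

/-- the vertex with the coordinates x, i. -/
def V (x i : ℤ) : Pt := (x, (3 * i + 3 - x) / 2)

theorem V_inj {x i x' i' : ℤ} : V x i = V x' i' ↔ x = x' ∧ i = i' := by
  simp only [V, Prod.mk.injEq]
  omega

theorem V_fst (x i : ℤ) : (V x i).1 = x := rfl

@[simp] theorem ri_V (x i : ℤ) : ri (V x i) = i := by
  simp only [ri, V]
  omega

/-- the direction to the right. -/
def dR (x i : ℤ) : Pt := if (x - i) % 2 = 0 then (1, 0) else (1, -1)

/-- the direction to the left. -/
def dL (x i : ℤ) : Pt := if (x - i) % 2 = 0 then (-1, 1) else (-1, 0)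

/-- the vertical direction. -/
def dU (x i : ℤ) : Pt := if (x - i) % 2 = 0 then (0, -1) else (0, 1)

/-- the row of the vertical neighbour. -/
def io (x i : ℤ) : ℤ := if (x - i) % 2 = 0 then i - 1 else i + 1

theorem V_dR (x i : ℤ) : V x i + dR x i = V (x + 1) i := by
  simp only [V, dR]
  split_ifs <;> simp only [Prod.mk_add_mk, Prod.mk.injEq, true_and] <;> omega

theorem V_dL (x i : ℤ) : V x i + dL x i = V (x - 1) i := by
  simp only [V, dL]
  split_ifs <;> simp only [Prod.mk_add_mk, Prod.mk.injEq, true_and] <;> omega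

theorem V_dU (x i : ℤ) : V x i + dU x i = V x (io x i) := by
  simp only [V, dU, io]
  split_ifs <;> simp only [Prod.mk_add_mk, Prod.mk.injEq, true_and] <;> omega

theorem neg_dR (x i : ℤ) : - dR x i = dL (x + 1) i := by
  unfold dR dL
  by_cases h : (x - i) % 2 = 0
  · rw [if_pos h, if_neg (by omega)]
    rfl
  · rw [if_neg h, if_pos (by omega)]
    rfl

theorem neg_dL (x i : ℤ) : - dL x i = dR (x - 1) i := by
  unfold dR dL
  by_cases h : (x - i) % 2 = 0
  · rw [if_pos h, if_neg (by omega)]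
    rfl
  · rw [if_neg h, if_pos (by omega)]
    rfl

theorem io_io (x i : ℤ) : io x (io x i) = i := by
  unfold io
  split_ifs <;> omega

theorem neg_dU (x i : ℤ) : - dU x i = dU x (io x i) := by
  unfold dU io
  by_cases h : (x - i) % 2 = 0
  · rw [if_pos h, if_pos h, if_neg (by omega)]
    rfl
  · rw [if_neg h, if_neg h, if_pos (by omega)]
    rfl

theorem dR_fst (x i : ℤ) : (dR x i).1 = 1 := by
  unfold dR
  split_ifs <;> rfl

theorem dL_fst (x i : ℤ) : (dL x i).1 = -1 := by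
  unfold dL
  split_ifs <;> rfl

theorem dU_fst (x i : ℤ) : (dU x i).1 = 0 := by
  unfold dU
  split_ifs <;> rfl

/-! ### labels -/

/-- the right leg. -/
def rt (x i : ℤ) : Lab := hf (V x i, dR x i)

/-- the left leg. -/
def lf (x i : ℤ) : Lab := hf (V x i, dL x i)

/-- the vertical leg. -/
def vt (x i : ℤ) : Lab := hf (V x i, dU x i)

@[simp] theorem rt_inj {x i x' i' : ℤ} : rt x i = rt x' i' ↔ x = x' ∧ i = i' := by
  unfold rt
  rw [Sum.inl.injEq, Prod.mk.injEq, V_inj]
  constructor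
  · exact fun h => h.1
  · rintro ⟨rfl, rfl⟩
    exact ⟨⟨rfl, rfl⟩, rfl⟩

@[simp] theorem lf_inj {x i x' i' : ℤ} : lf x i = lf x' i' ↔ x = x' ∧ i = i' := by
  unfold lf
  rw [Sum.inl.injEq, Prod.mk.injEq, V_inj]
  constructor
  · exact fun h => h.1
  · rintro ⟨rfl, rfl⟩
    exact ⟨⟨rfl, rfl⟩, rfl⟩

@[simp] theorem vt_inj {x i x' i' : ℤ} : vt x i = vt x' i' ↔ x = x' ∧ i = i' := by
  unfold vt
  rw [Sum.inl.injEq, Prod.mk.injEq, V_inj]
  constructor
  · exact fun h => h.1
  · rintro ⟨rfl, rfl⟩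
    exact ⟨⟨rfl, rfl⟩, rfl⟩

theorem hf_dir {h k : Pt × Pt} (e : hf h = hf k) : h.2.1 = k.2.1 := by
  rw [Sum.inl.injEq] at e
  rw [e]

@[simp] theorem rt_ne_lf (x i x' i' : ℤ) : (rt x i = lf x' i') = False := by
  refine eq_false fun h => ?_
  have h1 := hf_dir h
  rw [dR_fst, dL_fst] at h1
  omega

@[simp] theorem lf_ne_rt (x i x' i' : ℤ) : (lf x i = rt x' i') = False := by
  refine eq_false fun h => ?_
  have h1 := hf_dir h
  rw [dR_fst, dL_fst] at h1
  omega

@[simp] theorem rt_ne_vt (x i x' i' : ℤ) : (rt x i = vt x' i') = False := by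
  refine eq_false fun h => ?_
  have h1 := hf_dir h
  rw [dR_fst, dU_fst] at h1
  omega

@[simp] theorem vt_ne_rt (x i x' i' : ℤ) : (vt x i = rt x' i') = False := by
  refine eq_false fun h => ?_
  have h1 := hf_dir h
  rw [dR_fst, dU_fst] at h1
  omega

@[simp] theorem lf_ne_vt (x i x' i' : ℤ) : (lf x i = vt x' i') = False := by
  refine eq_false fun h => ?_
  have h1 := hf_dir h
  rw [dL_fst, dU_fst] at h1
  omega

@[simp] theorem vt_ne_lf (x i x' i' : ℤ) : (vt x i = lf x' i') = False := by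
  refine eq_false fun h => ?_
  have h1 := hf_dir h
  rw [dL_fst, dU_fst] at h1
  omega

@[simp] theorem lX_ne_rt (l : ℕ) (x i : ℤ) : (lX l = rt x i) = False := by
  refine eq_false fun h => ?_
  have h1 := hf_dir h
  rw [dR_fst] at h1
  simp only at h1
  omega

@[simp] theorem rt_ne_lX (l : ℕ) (x i : ℤ) : (rt x i = lX l) = False := by
  refine eq_false fun h => ?_
  have h1 := hf_dir h
  rw [dR_fst] at h1
  simp only at h1
  omega

@[simp] theorem lX_ne_lf (l : ℕ) (x i : ℤ) : (lX l = lf x i) = False := by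
  refine eq_false fun h => ?_
  have h1 := hf_dir h
  rw [dL_fst] at h1
  simp only at h1
  omega

@[simp] theorem lf_ne_lX (l : ℕ) (x i : ℤ) : (lf x i = lX l) = False := by
  refine eq_false fun h => ?_
  have h1 := hf_dir h
  rw [dL_fst] at h1
  simp only at h1
  omega

@[simp] theorem lX_ne_vt (l : ℕ) (x i : ℤ) : (lX l = vt x i) = False := by
  refine eq_false fun h => ?_
  have h1 := hf_dir h
  rw [dU_fst] at h1
  simp only at h1
  omega

@[simp] theorem vt_ne_lX (l : ℕ) (x i : ℤ) : (vt x i = lX l) = False := by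
  refine eq_false fun h => ?_
  have h1 := hf_dir h
  rw [dU_fst] at h1
  simp only at h1
  omega

/-! ### vertices -/

theorem V_even {x i : ℤ} (h : (x - i) % 2 = 0) : ∃ q : ℤ, x = i + 2 * q ∧ V x i = (i + 2 * q, i + 1 - q) := by
  refine ⟨(x - i) / 2, by omega, ?_⟩
  simp only [V, Prod.mk.injEq]
  omega

theorem V_odd {x i : ℤ} (h : (x - i) % 2 ≠ 0) :
    ∃ q : ℤ, x = i + 2 * q + 1 ∧ V x i = (i + 2 * q + 1, i + 1 - q) := by
  refine ⟨(x - i - 1) / 2, by omega, ?_⟩
  simp only [V, Prod.mk.injEq]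
  omega

theorem cl_even {x i : ℤ} (h : (x - i) % 2 = 0) : cl (V x i) = 2 := by
  obtain ⟨q, -, e⟩ := V_even h
  rw [e]
  unfold cl
  have : (i + 2 * q - (i + 1 - q) : ℤ) = 3 * (q - 1) + 2 := by ring
  simp only [this]
  push_cast
  have h3 : (3 : ZMod 3) = 0 := by decide
  rw [h3, zero_mul, zero_add]

theorem cl_odd {x i : ℤ} (h : (x - i) % 2 ≠ 0) : cl (V x i) = 0 := by
  obtain ⟨q, -, e⟩ := V_odd h
  rw [e]
  unfold cl
  have : (i + 2 * q + 1 - (i + 1 - q) : ℤ) = 3 * q := by ring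
  simp only [this]
  push_cast
  have h3 : (3 : ZMod 3) = 0 := by decide
  rw [h3, zero_mul]

theorem dv_V (x i : ℤ) : dv (V x i) = dU x i := by
  unfold dv dU
  by_cases h : (x - i) % 2 = 0
  · rw [cl_even h, if_pos h, if_neg (by decide)]
  · rw [cl_odd h, if_neg h, if_pos rfl]

theorem Vt_V (x i : ℤ) : Vt (V x i) := by
  unfold Vt
  by_cases h : (x - i) % 2 = 0
  · rw [cl_even h]
    decide
  · rw [cl_odd h]
    decide

theorem Crv_V (y : K) (x i : ℤ) : Crv y (V x i) = Cr y (vt x i) (rt x i) (lf x i) := by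
  unfold Crv
  rw [dv_V]
  unfold vt rt lf dU dR dL
  by_cases h : (x - i) % 2 = 0
  · rw [if_pos h, if_pos h, if_pos h]
    rfl
  · rw [if_neg h, if_neg h, if_neg h, Cr_swap23]
    rfl

theorem De_V {x i : ℤ} {d : Pt} : De (V x i, d) ↔ d = dR x i ∨ d = dL x i ∨ d = dU x i := by
  have h0 := Vt_V x i
  constructor
  · intro h
    rcases Pool.Agent.NUN.dv_all h with h1 | h1 | h1
    · rw [dv_V] at h1
      exact Or.inr (Or.inr h1)
    · rw [dv_V] at h1
      unfold dU at h1
      unfold dR dL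
      by_cases c : (x - i) % 2 = 0
      · rw [if_pos c] at h1 ⊢
        left
        rw [h1]
        rfl
      · rw [if_neg c] at h1 ⊢
        right; left
        rw [if_neg c, h1]
        rfl
    · rw [dv_V] at h1
      unfold dU at h1
      unfold dR dL
      by_cases c : (x - i) % 2 = 0
      · rw [if_pos c] at h1 ⊢
        right; left
        rw [if_pos c, h1]
        rfl
      · rw [if_neg c] at h1 ⊢
        left
        rw [h1]
        rfl
  · rintro (rfl | rfl | rfl)
    · refine ⟨?_, h0, ?_⟩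
      · show dR x i ∈ dirs
        unfold dR
        split_ifs <;> decide
      · show Vt (V x i + dR x i)
        rw [V_dR]
        exact Vt_V _ _
    · refine ⟨?_, h0, ?_⟩
      · show dL x i ∈ dirs
        unfold dL
        split_ifs <;> decide
      · show Vt (V x i + dL x i)
        rw [V_dL]
        exact Vt_V _ _
    · refine ⟨?_, h0, ?_⟩
      · show dU x i ∈ dirs
        unfold dU
        split_ifs <;> decide
      · show Vt (V x i + dU x i)
        rw [V_dU]
        exact Vt_V _ _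

/-- all vertices of the honeycomb lattice. -/
theorem exists_V {v : Pt} (h : Vt v) : ∃ x i : ℤ, v = V x i := by
  obtain ⟨a, b⟩ := v
  refine ⟨a, (a + 2 * b - 2) / 3, ?_⟩
  have h1 : ((a - b : ℤ) : ZMod 3) ≠ 1 := h
  have h2 : ¬ (3 : ℤ) ∣ (a - b - 1) := by
    intro h3
    apply h1
    have h4 : ((a - b - 1 : ℤ) : ZMod 3) = 0 := by
      rw [ZMod.intCast_zmod_eq_zero_iff_dvd]
      exact h3
    push_cast at h4 ⊢
    linear_combination h4
  simp only [V, Prod.mk.injEq, true_and]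
  omega

/-! ### the vertical cylinder -/

/-- translation by 2 t rows. -/
def trv (t : ℤ) (v : Pt) : Pt := (v.1, v.2 + 3 * t)

theorem ri_trv (t : ℤ) (v : Pt) : ri (trv t v) = ri v + 2 * t := by
  simp only [ri, trv]
  omega

theorem trv_V (t x i : ℤ) : trv t (V x i) = V x (i + 2 * t) := by
  simp only [trv, V, Prod.mk.injEq, true_and]
  omega

/-- the representative on the cylinder with 2 L rows. -/
def nmv (L : ℕ) (v : Pt) : Pt := trv (-((L : ℤ) * (ri v / (2 * L)))) v

theorem nmv_trv (L : ℕ) (hL : 1 ≤ L) (t : ℤ) (v : Pt) : nmv L (trv (L * t) v) = nmv L v := by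
  unfold nmv
  rw [ri_trv]
  have h : (ri v + 2 * (L * t)) / (2 * (L : ℤ)) = ri v / (2 * L) + t := by
    rw [← mul_assoc]
    exact Int.add_mul_ediv_left _ _ (by omega)
  rw [h]
  simp only [trv, Prod.mk.injEq, true_and]
  ring

/-- the vertical cylinder with 2 L rows. -/
def Cv (L : ℕ) (hL : 1 ≤ L) : Nm where
  nm := nmv L
  add v d := by
    have : nmv L v + d = trv (L * (-(ri v / (2 * L)))) (v + d) := by
      simp only [nmv, trv, Prod.ext_iff, Prod.fst_add, Prod.snd_add, true_and]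
      ring
    rw [this, nmv_trv L hL]
  cl v := by
    simp only [nmv, trv, cl]
    push_cast
    have h3 : (3 : ZMod 3) = 0 := by decide
    rw [h3, zero_mul, add_zero]

variable {L : ℕ} {hL : 1 ≤ L}

theorem nm_fst (v : Pt) : ((Cv L hL).nm v).1 = v.1 := rfl

theorem nm_Vm (x i : ℤ) : (Cv L hL).nm (V x i) = V x (i % (2 * L)) := by
  show nmv L (V x i) = _
  unfold nmv
  rw [ri_V, trv_V]
  congr 1
  have := Int.mul_ediv_add_emod i (2 * L)
  linarith

theorem nm_V {x i : ℤ} (h1 : 0 ≤ i) (h2 : i < 2 * L) : (Cv L hL).nm (V x i) = V x i := by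
  rw [nm_Vm, Int.emod_eq_of_lt h1 h2]

theorem nm_iff {x i : ℤ} : (Cv L hL).nm (V x i) = V x i ↔ 0 ≤ i ∧ i < 2 * L := by
  constructor
  · rw [nm_Vm, V_inj]
    rintro ⟨-, h⟩
    rw [← h]
    exact ⟨Int.emod_nonneg _ (by omega), Int.emod_lt_of_pos _ (by omega)⟩
  · rintro ⟨h1, h2⟩
    exact nm_V h1 h2

theorem nb_R {x i : ℤ} (h1 : 0 ≤ i) (h2 : i < 2 * L) : (Cv L hL).nb (V x i, dR x i) = V (x + 1) i := by
  unfold Nm.nb
  rw [V_dR, nm_V h1 h2]

theorem nb_L {x i : ℤ} (h1 : 0 ≤ i) (h2 : i < 2 * L) : (Cv L hL).nb (V x i, dL x i) = V (x - 1) i := by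
  unfold Nm.nb
  rw [V_dL, nm_V h1 h2]

theorem nb_U (x i : ℤ) : (Cv L hL).nb (V x i, dU x i) = V x (io x i % (2 * L)) := by
  unfold Nm.nb
  rw [V_dU, nm_Vm]

theorem rv_R {x i : ℤ} (h1 : 0 ≤ i) (h2 : i < 2 * L) :
    (Cv L hL).rv (V x i, dR x i) = (V (x + 1) i, dL (x + 1) i) := by
  unfold Nm.rv
  rw [nb_R h1 h2, neg_dR]

theorem rv_L {x i : ℤ} (h1 : 0 ≤ i) (h2 : i < 2 * L) :
    (Cv L hL).rv (V x i, dL x i) = (V (x - 1) i, dR (x - 1) i) := by
  unfold Nm.rv
  rw [nb_L h1 h2, neg_dL]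

theorem dU_mod (x i : ℤ) : dU x (i % (2 * L)) = dU x i := by
  unfold dU
  have h := Int.mul_ediv_add_emod i (2 * L)
  have h' : i = 2 * ((L : ℤ) * (i / (2 * L))) + i % (2 * L) := by linarith
  have e : ((x - i % (2 * (L : ℤ))) % 2 = 0) = ((x - i) % 2 = 0) := by
    rw [eq_iff_iff]
    generalize i % (2 * (L : ℤ)) = r at h' ⊢
    generalize (L : ℤ) * (i / (2 * L)) = s at h'
    omega
  simp only [e]

theorem rv_U (x i : ℤ) :
    (Cv L hL).rv (V x i, dU x i) = (V x (io x i % (2 * L)), dU x (io x i % (2 * L))) := by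
  unfold Nm.rv
  rw [nb_U, dU_mod, neg_dU]

end Pool.Agent.MXR
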