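import Pool.Agent.EXL.NetCol
import Pool.Agent.EXL.Front

/-!
# The cell of a mirrored row of the honeycomb lattice (module M1 of nu34/22a)

A cell has the vertices `P` (with the incoming column leg) and `Q` (with the outgoing column leg).  In a normal row
the incoming row leg belongs to `Q` (weights `hexW`), in a mirrored row it belongs to `P` (weights `hexM`).
-/

set_option autoImplicit false

namespace Pool.Agent.MXR

open Pool.Agent.EXL Pool.Agent.EXL.Pat Pool.Agent.EXL.Net

/-- The weights of the mirrored rhombus. -/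
def hexM {K : Type*} [CommRing K] (x : K) : Wt K where
  v := x ^ 2
  u1 := x ^ 2
  u2 := x
  w1 := 0
  w2 := x ^ 2

variable {α β K : Type*} [DecidableEq α] [DecidableEq β] [CommRing K]

def fRm (i j : β) : FOp β := fun p =>
  if p i = i then
    if p j = j then [(0, p), (1, cup i j p)] else [(2, p), (2, swap i j p)]
  else if p j = j then [(2, p), (2, swap i j p)]
  else if p i = j then []
  else [(1, cut i j p), (2, cup i j (cut i j p))]

theorem rep_Rm (x : K) (i j : β) : Rep x (fRm i j) (R (hexM x) i j) := by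
  intro F p
  simp only [R, fRm, ev, hexM]
  split_ifs <;> simp

/-! sites s, e, m, bN, bW (+ partners): merge s, e to m, split m to bN, bW = mirrored rhombus, renamed -/

theorem mir_5 (x : K) (F : Pat (Fin 5) → K) :
    Mer x 0 1 2 (Spl x 2 3 4 F) m5 = R (hexM x) 0 1 (ren 1 4 (ren 0 3 F)) m5 :=
  rep_eq ((rep_Mer x 0 1 2).comp (rep_Spl x 2 3 4))
    ((rep_Rm x 0 1).comp ((rep_Ren x 1 4).comp (rep_Ren x 0 3))) (by decide +kernel) F

theorem mir_5j (x : K) (F : Pat (Fin 5) → K) :
    Mer x 0 1 2 (Spl x 2 3 4 F) m5j = R (hexM x) 0 1 (ren 1 4 (ren 0 3 F)) m5j :=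
  rep_eq ((rep_Mer x 0 1 2).comp (rep_Spl x 2 3 4))
    ((rep_Rm x 0 1).comp ((rep_Ren x 1 4).comp (rep_Ren x 0 3))) (by decide +kernel) F

theorem mir_6s (x : K) (F : Pat (Fin 6) → K) :
    Mer x 0 1 2 (Spl x 2 3 4 F) m6s = R (hexM x) 0 1 (ren 1 4 (ren 0 3 F)) m6s :=
  rep_eq ((rep_Mer x 0 1 2).comp (rep_Spl x 2 3 4))
    ((rep_Rm x 0 1).comp ((rep_Ren x 1 4).comp (rep_Ren x 0 3))) (by decide +kernel) F

theorem mir_6m (x : K) (F : Pat (Fin 6) → K) :
    Mer x 0 1 2 (Spl x 2 3 4 F) m6m = R (hexM x) 0 1 (ren 1 4 (ren 0 3 F)) m6m :=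
  rep_eq ((rep_Mer x 0 1 2).comp (rep_Spl x 2 3 4))
    ((rep_Rm x 0 1).comp ((rep_Ren x 1 4).comp (rep_Ren x 0 3))) (by decide +kernel) F

theorem mir_7 (x : K) (F : Pat (Fin 7) → K) :
    Mer x 0 1 2 (Spl x 2 3 4 F) m7 = R (hexM x) 0 1 (ren 1 4 (ren 0 3 F)) m7 :=
  rep_eq ((rep_Mer x 0 1 2).comp (rep_Spl x 2 3 4))
    ((rep_Rm x 0 1).comp ((rep_Ren x 1 4).comp (rep_Ren x 0 3))) (by decide +kernel) F

theorem mir_gen (x : K) {s e m bN bW : α} (h01 : s ≠ e) (h02 : s ≠ m) (h03 : s ≠ bN)
    (h04 : s ≠ bW) (h12 : e ≠ m) (h13 : e ≠ bN) (h14 : e ≠ bW) (h23 : m ≠ bN) (h24 : m ≠ bW)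
    (h34 : bN ≠ bW) (F : Pat α → K) {p : Pat α} (pa : p m = m) (pb : p bN = bN)
    (pc : p bW = bW) : Mer x s e m (Spl x m bN bW F) p =
      R (hexM x) s e (ren e bW (ren s bN F)) p := by
  have i0 : p (p s) = s := p.inv s
  have i1 : p (p e) = e := p.inv e
  by_cases c0 : p s = s
  · by_cases c1 : p e = e
    · have hφ : Function.Injective ![s, e, m, bN, bW] := by
        intro i j; fin_cases i <;> fin_cases j <;> simp <;> grind
      have hc : ∀ b, p (![s, e, m, bN, bW] b) = ![s, e, m, bN, bW] (m5 b) := by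
        intro b; fin_cases b
        · exact c0
        · exact c1
        · exact pa
        · exact pb
        · exact pc
      have key := mir_5 x (fun q => F ((temb _ hφ p m5 hc).st q))
      have hst := temb_st _ hφ p m5 hc
      set E := temb _ hφ p m5 hc
      have k1 : Mer x (E.φ 0) (E.φ 1) (E.φ 2) (Spl x (E.φ 2) (E.φ 3) (E.φ 4) F) (E.st m5) =
          R (hexM x) (E.φ 0) (E.φ 1) (ren (E.φ 1) (E.φ 4) (ren (E.φ 0) (E.φ 3) F)) (E.st m5) := by
        rw [Mer_st, R_st]; simp only [Spl_st, ren_st]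
        exact key
      rw [hst] at k1
      exact k1
    · have hφ : Function.Injective ![s, e, m, bN, bW, p e] := by
        intro i j; fin_cases i <;> fin_cases j <;> simp <;> grind
      have hc : ∀ b, p (![s, e, m, bN, bW, p e] b) = ![s, e, m, bN, bW, p e] (m6m b) := by
        intro b; fin_cases b
        · exact c0
        · exact rfl
        · exact pa
        · exact pb
        · exact pc
        · exact i1
      have key := mir_6m x (fun q => F ((temb _ hφ p m6m hc).st q))
      have hst := temb_st _ hφ p m6m hc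
      set E := temb _ hφ p m6m hc
      have k1 : Mer x (E.φ 0) (E.φ 1) (E.φ 2) (Spl x (E.φ 2) (E.φ 3) (E.φ 4) F) (E.st m6m) =
          R (hexM x) (E.φ 0) (E.φ 1) (ren (E.φ 1) (E.φ 4) (ren (E.φ 0) (E.φ 3) F)) (E.st m6m) := by
        rw [Mer_st, R_st]; simp only [Spl_st, ren_st]
        exact key
      rw [hst] at k1
      exact k1
  · by_cases c1 : p e = e
    · have hφ : Function.Injective ![s, e, m, bN, bW, p s] := by
        intro i j; fin_cases i <;> fin_cases j <;> simp <;> grind
      have hc : ∀ b, p (![s, e, m, bN, bW, p s] b) = ![s, e, m, bN, bW, p s] (m6s b) := by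
        intro b; fin_cases b
        · exact rfl
        · exact c1
        · exact pa
        · exact pb
        · exact pc
        · exact i0
      have key := mir_6s x (fun q => F ((temb _ hφ p m6s hc).st q))
      have hst := temb_st _ hφ p m6s hc
      set E := temb _ hφ p m6s hc
      have k1 : Mer x (E.φ 0) (E.φ 1) (E.φ 2) (Spl x (E.φ 2) (E.φ 3) (E.φ 4) F) (E.st m6s) =
          R (hexM x) (E.φ 0) (E.φ 1) (ren (E.φ 1) (E.φ 4) (ren (E.φ 0) (E.φ 3) F)) (E.st m6s) := by
        rw [Mer_st, R_st]; simp only [Spl_st, ren_st]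
        exact key
      rw [hst] at k1
      exact k1
    · by_cases c2 : p s = e
      · have hφ : Function.Injective ![s, e, m, bN, bW] := by
          intro i j; fin_cases i <;> fin_cases j <;> simp <;> grind
        have hc : ∀ b, p (![s, e, m, bN, bW] b) = ![s, e, m, bN, bW] (m5j b) := by
          intro b; fin_cases b
          · exact c2
          · exact (by rw [← c2]; exact i0)
          · exact pa
          · exact pb
          · exact pc
        have key := mir_5j x (fun q => F ((temb _ hφ p m5j hc).st q))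
        have hst := temb_st _ hφ p m5j hc
        set E := temb _ hφ p m5j hc
        have k1 : Mer x (E.φ 0) (E.φ 1) (E.φ 2) (Spl x (E.φ 2) (E.φ 3) (E.φ 4) F) (E.st m5j) =
            R (hexM x) (E.φ 0) (E.φ 1) (ren (E.φ 1) (E.φ 4) (ren (E.φ 0) (E.φ 3) F)) (E.st m5j) := by
          rw [Mer_st, R_st]; simp only [Spl_st, ren_st]
          exact key
        rw [hst] at k1
        exact k1
      · have hφ : Function.Injective ![s, e, m, bN, bW, p s, p e] := by
          intro i j; fin_cases i <;> fin_cases j <;> simp <;> grind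
        have hc : ∀ b, p (![s, e, m, bN, bW, p s, p e] b) = ![s, e, m, bN, bW, p s, p e] (m7 b) := by
          intro b; fin_cases b
          · exact rfl
          · exact rfl
          · exact pa
          · exact pb
          · exact pc
          · exact i0
          · exact i1
        have key := mir_7 x (fun q => F ((temb _ hφ p m7 hc).st q))
        have hst := temb_st _ hφ p m7 hc
        set E := temb _ hφ p m7 hc
        have k1 : Mer x (E.φ 0) (E.φ 1) (E.φ 2) (Spl x (E.φ 2) (E.φ 3) (E.φ 4) F) (E.st m7) =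
            R (hexM x) (E.φ 0) (E.φ 1) (ren (E.φ 1) (E.φ 4) (ren (E.φ 0) (E.φ 3) F)) (E.st m7) := by
          rw [Mer_st, R_st]; simp only [Spl_st, ren_st]
          exact key
        rw [hst] at k1
        exact k1

theorem Mer_congr {x : K} {s e m : α} {F F' : Pat α → K} {p : Pat α} (S : Finset α)
    (hS : ∀ a ∈ S, p a = a) (hs : s ∉ S) (he : e ∉ S) (hm : m ∉ S)
    (h : ∀ q : Pat α, (∀ a ∈ S, q a = a) → F q = F' q) : Mer x s e m F p = Mer x s e m F' p := by
  have k1 : ∀ i j : α, i ∉ S → j ∉ S → ∀ a ∈ S, swap i j p a = a := by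
    intro i j hi hj a ha
    have h1 : a ≠ i := fun h => hi (h ▸ ha)
    have h2 : a ≠ j := fun h => hj (h ▸ ha)
    show Equiv.swap i j (p (Equiv.swap i j a)) = a
    rw [Equiv.swap_apply_of_ne_of_ne h1 h2, hS a ha, Equiv.swap_apply_of_ne_of_ne h1 h2]
  have k2 : ∀ a ∈ S, cut s e p a = a := by
    intro a ha
    have h1 : a ≠ s := fun h => hs (h ▸ ha)
    have h2 : a ≠ e := fun h => he (h ▸ ha)
    have h0 := hS a ha
    have i1 := p.inv s
    have i2 := p.inv e
    simp only [cut]
    grind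
  unfold Mer
  rw [h p hS, h _ k2, h _ (k1 e m he hm), h _ (k1 s m hs hm)]

/-- the mirrored cell: `P = {cin, rin, m}`, `Q = {cout, rout, m'}`. -/
theorem mir_local (x : K) {s e aS aE am bm bN bW : α}
    (hd : [s, e, aS, aE, am, bm, bN, bW].Nodup) (G : Pat α → K) {p : Pat α} (p1 : p aS = aS)
    (p2 : p aE = aE) (p3 : p am = am) (p4 : p bm = bm) (p5 : p bN = bN) (p6 : p bW = bW) :
    (Cr x aS aE am * Cr x bm bN bW * (Co s aS * Co e aE * Co am bm) : Op α K) G p =
      R (hexM x) s e (ren e bW (ren s bN G)) p := by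
  simp only [List.nodup_cons, List.mem_cons, not_or, List.not_mem_nil, not_false_eq_true,
    and_true, List.nodup_nil] at hd
  obtain ⟨⟨a1, a2, a3, a4, a5, a6, a7⟩, ⟨b1, b2, b3, b4, b5, b6⟩, ⟨c1, c2, c3, c4, c5⟩,
    ⟨d1, d2, d3, d4⟩, ⟨e1, e2, e3⟩, ⟨f1, f2⟩, g1⟩ := hd
  have w1 : Commute (Cr x bm bN bW : Op α K) (Co s aS) :=
    Cr_Co_comm (by tauto) (by tauto) (by tauto) (by tauto) (by tauto) (by tauto)
  have w2 : Commute (Cr x bm bN bW : Op α K) (Co e aE) :=
    Cr_Co_comm (by tauto) (by tauto) (by tauto) (by tauto) (by tauto) (by tauto)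
  have e0 : (Cr x aS aE am * Cr x bm bN bW * (Co s aS * Co e aE * Co am bm) : Op α K) =
      Cr x aS aE am * (Co s aS * (Co e aE * (Cr x bm bN bW * Co am bm))) := by
    calc _ = Cr x aS aE am * ((Cr x bm bN bW * Co s aS) * Co e aE * Co am bm) := by
          simp only [mul_assoc]
      _ = Cr x aS aE am * (Co s aS * (Cr x bm bN bW * Co e aE) * Co am bm) := by
          rw [w1.eq]
          simp only [mul_assoc]
      _ = _ := by
          rw [w2.eq]
          simp only [mul_assoc]
  rw [e0]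
  simp only [Module.End.mul_apply]
  rw [Cr_eq, Co_eq, Co_eq]
  have hm := merge_gen x (s := s) (m := e) (aS := aS) (am := aE) (aW := am) a1 a2 a3 a4 b1 b2 b3
    c1 c2 d1 ((Cr x bm bN bW) ((Co am bm) G)) p1 p2 p3
  rw [hm]
  have step : ∀ q : Pat α, (∀ a ∈ ({bm, bN, bW} : Finset α), q a = a) →
      (Cr x bm bN bW) ((Co am bm) G) q = Spl x am bN bW G q := by
    intro q hq
    rw [Cr_eq, Co_eq]
    exact split_gen x e1 e2 e3 f1 f2 g1 _ (hq _ (by simp)) (hq _ (by simp)) (hq _ (by simp))
  rw [Mer_congr {bm, bN, bW} (by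
      intro a ha
      simp only [Finset.mem_insert, Finset.mem_singleton] at ha
      rcases ha with rfl | rfl | rfl
      · exact p4
      · exact p5
      · exact p6) (by simp; tauto) (by simp; tauto) (by simp; tauto) step]
  exact mir_gen x a1 a4 a6 a7 b3 b5 b6 e2 e3 g1 G p3 p5 p6

/-! ### both kinds of cells -/

/-- The cell: `s`, `e` the partners of the incoming column leg `ci` and of the incoming row leg `ri`, `co`, `ro`
the outgoing legs, `m`, `m'` the legs of the inner edge. -/
def cellO (K : Type*) [CommRing K] (x : K) (b : Bool) (s e ci ri ro co m m' : α) : Op α K :=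
  (if b then Cr x ci ri m * Cr x m' co ro else Cr x ci m ro * Cr x ri co m') *
    (Co s ci * Co e ri * Co m m')

/-- The weights of the cell. -/
def cellW {K : Type*} [CommRing K] (x : K) (b : Bool) : Wt K := if b then hexM x else hexW x

theorem cell_local (x : K) (b : Bool) {s e ci ri ro co m m' : α}
    (hd : [s, e, ci, ri, ro, co, m, m'].Nodup) (G : Pat α → K) {p : Pat α} (p1 : p ci = ci)
    (p2 : p ri = ri) (p3 : p ro = ro) (p4 : p co = co) (p5 : p m = m) (p6 : p m' = m') :
    cellO K x b s e ci ri ro co m m' G p = R (cellW x b) s e (ren e ro (ren s co G)) p := by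
  have hd' := hd
  simp only [List.nodup_cons, List.mem_cons, not_or, List.not_mem_nil, not_false_eq_true,
    and_true, List.nodup_nil] at hd'
  obtain ⟨⟨a1, a2, a3, a4, a5, a6, a7⟩, ⟨b1, b2, b3, b4, b5, b6⟩, ⟨c1, c2, c3, c4, c5⟩,
    ⟨d1, d2, d3, d4⟩, ⟨e1, e2, e3⟩, ⟨f1, f2⟩, g1⟩ := hd'
  cases b
  · have h : [e, s, ci, ro, m, m', ri, co].Nodup := by
      simp only [List.nodup_cons, List.mem_cons, not_or, List.not_mem_nil, not_false_eq_true,
        and_true, List.nodup_nil]
      tauto
    exact rho_local x h G p1 p3 p5 p6 p2 p4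
  · have h : [s, e, ci, ri, m, m', co, ro].Nodup := by
      simp only [List.nodup_cons, List.mem_cons, not_or, List.not_mem_nil, not_false_eq_true,
        and_true, List.nodup_nil]
      tauto
    exact mir_local x h G p1 p2 p5 p6 p4 p3

/-- The cell on a front. -/
theorem cell_gen (x : K) (b : Bool) {ι : Type*} [DecidableEq ι] {κ κ' : ι → α}
    (hκ : Function.Injective κ) (hκ' : Function.Injective κ') {c j : ι}
    {s e ci ri ro co m m' : α} (h1 : κ c = s) (h2 : κ j = e) (h3 : κ' c = co) (h4 : κ' j = ro)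
    (h5 : ∀ b, b ≠ c → b ≠ j → κ' b = κ b) (hd : [s, e, ci, ri, ro, co, m, m'].Nodup)
    (hout : ∀ y ∈ [ci, ri, ro, co, m, m'], ∀ b, κ b ≠ y) (G : Pat α → K) (q : Pat ι) :
    cellO K x b s e ci ri ro co m m' G (lft κ hκ q) =
      R (cellW x b) c j (fun q => G (lft κ' hκ' q)) q := by
  have f : ∀ y ∈ [ci, ri, ro, co, m, m'], ∀ q : Pat ι, lft κ hκ q y = y := by
    intro y hy q
    apply lft_of_notMem
    rintro ⟨b, hb⟩
    exact hout y hy b hb
  have hl := cell_local x b hd G (f ci (by simp) q) (f ri (by simp) q) (f ro (by simp) q)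
    (f co (by simp) q) (f m (by simp) q) (f m' (by simp) q)
  have hd' := hd
  simp only [List.nodup_cons, List.mem_cons, not_or, List.not_mem_nil, not_false_eq_true,
    and_true, List.nodup_nil] at hd'
  obtain ⟨⟨a1, a2, a3, a4, a5, a6, a7⟩, ⟨b1, b2, b3, b4, b5, b6⟩, ⟨c1, c2, c3, c4, c5⟩,
    ⟨d1, d2, d3, d4⟩, ⟨e1, e2, e3⟩, ⟨f1, f2⟩, g1⟩ := hd'
  rw [hl]
  have h6 := R_lft (cellW x b) κ hκ c j (ren e ro (ren s co G)) q
  rw [h1, h2] at h6
  rw [h6]
  congr 1
  funext q
  unfold ren
  rw [if_pos (f ro (by simp) q)]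
  rw [swap_lft, swap_lft]
  have hk : (fun b => Equiv.swap s co (Equiv.swap e ro (κ b))) = κ' := by
    funext b
    by_cases hb : b = c
    · subst hb
      rw [h1, h3, Equiv.swap_apply_of_ne_of_ne a1 a4, Equiv.swap_apply_left]
    · by_cases hb' : b = j
      · subst hb'
        rw [h2, h4, Equiv.swap_apply_left, Equiv.swap_apply_of_ne_of_ne (Ne.symm a4) e1]
      · rw [h5 b hb hb', Equiv.swap_apply_of_ne_of_ne (fun e => hb' (hκ (e.trans h2.symm)))
          (hout ro (by simp) b), Equiv.swap_apply_of_ne_of_ne (fun e => hb (hκ (e.trans h1.symm)))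
          (hout co (by simp) b)]
  rw [if_pos]
  · congr 1
    exact lft_congr _ _ (fun b _ => congrFun hk b)
  · rw [lft_of_notMem]
    rintro ⟨b, hb⟩
    refine hout co (by simp) b ?_
    have h7 := congrArg (Equiv.swap e ro) hb
    beta_reduce at h7
    rwa [Equiv.swap_apply_self, Equiv.swap_apply_of_ne_of_ne (Ne.symm b4) (Ne.symm e1)] at h7

end Pool.Agent.MXR
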