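import Pool.Agent.NUF.Cyl.Seam
import Pool.Agent.EXL.H1b

/-!
# Networks with both ends created by the last function (module M1 of nu34/22a)

The network evaluated at the empty state on the indicator of the single arc `a, b` is the network of the words from
the half edge of `a` to the half edge of `b`.
-/

set_option autoImplicit false

namespace Pool.Agent.MXR

open Pool.Agent.EXL Pool.Agent.EXL.Pat Pool.Agent.EXL.Net HexObs HexObs.LP
open Pool.Agent.NUF.Cyl (PO PO_apply PO_cupO_comm PO_Co_comm PO_Crv_comm cupO_Crv_comm Nm)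

variable {K : Type*} [CommRing K]

section gen

variable {α : Type*} [DecidableEq α]

theorem cup_e {i j : α} {p : Pat α} (h1 : p i = i) (h2 : p j = j) (x : α) :
    cup i j p x = if x = i then j else if x = j then i else p x := by
  simp only [cup]
  rw [if_pos ⟨h1, h2⟩]

theorem cut_e {i j : α} {p : Pat α} (h1 : i ≠ j) (h2 : p i ≠ i) (h3 : p j ≠ j) (h4 : p i ≠ j) (x : α) :
    cut i j p x = if x = i then i else if x = j then j else if x = p i then p j else if x = p j then p i
        else p x := by
  simp only [cut]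
  rw [if_pos ⟨h1, h2, h3, h4⟩]

/-- The end operators. -/
theorem ends_val {e t P Q a b : α} (hd : [e, t, P, Q, a, b].Nodup) {q : Pat α} (qe : q e = e) (qt : q t = t)
    (qP : q P = P) (qQ : q Q = Q) :
    (Co P a * (En t Q * Co Q b) : Op α K) (HS.ind (cup e t Pat.empty)) (cup e P q) =
      HS.ind (cup a b Pat.empty) q := by
  simp only [List.nodup_cons, List.mem_cons, not_or, List.not_mem_nil, not_false_eq_true,
    and_true, List.nodup_nil] at hd
  obtain ⟨⟨n1, n2, n3, n4, n5⟩, ⟨n6, n7, n8, n9⟩, ⟨n10, n11, n12⟩, ⟨n13, n14⟩, n15⟩ := hd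
  have em : ∀ x, (Pat.empty : Pat α) x = x := fun _ => rfl
  have full : ∀ x, cup e t (Pat.empty : Pat α) x = if x = e then t else if x = t then e else x :=
    fun x => cup_e rfl rfl x
  have arc : ∀ x, cup a b (Pat.empty : Pat α) x = if x = a then b else if x = b then a else x :=
    fun x => cup_e rfl rfl x
  set s1 := cup e P q with hs1
  have f1 : ∀ x, s1 x = if x = e then P else if x = P then e else q x := fun x => cup_e qe qP x
  have s1P : s1 P = e := by rw [f1, if_neg (Ne.symm n2), if_pos rfl]
  have s1a : s1 a = q a := by rw [f1, if_neg (Ne.symm n4), if_neg (Ne.symm n11)]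
  rw [Module.End.mul_apply, Co_apply]
  by_cases h1 : q a = a
  · rw [if_neg (fun h => n2 (s1P.symm.trans h.1)), if_pos (Or.inr (Or.inl (s1a.trans h1))), HS.ind_ne]
    intro h
    have h2 : q a = b := by
      rw [h, arc, if_pos rfl]
    exact n15 (h1.symm.trans h2)
  · rw [if_neg (fun h => n2 (s1P.symm.trans h.1)), if_neg (by
      rintro (h | h | h)
      · exact n2 (s1P.symm.trans h)
      · exact h1 (s1a.symm.trans h)
      · exact n4 (s1P.symm.trans h))]
    set s2 := cut P a s1 with hs2
    have f2 : ∀ x, s2 x = if x = P then P else if x = a then a else if x = e then q a else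
        if x = q a then e else s1 x := by
      intro x
      have := cut_e (i := P) (j := a) (p := s1) n11 (by rw [s1P]; exact n2) (by rw [s1a]; exact h1)
        (by rw [s1P]; exact n4) x
      rw [s1P, s1a] at this
      exact this
    have qa_e : q a ≠ e := fun h => n4 (by rw [← qe, ← h, q.inv])
    have qa_t : q a ≠ t := fun h => n8 (by rw [← qt, ← h, q.inv])
    have qa_P : q a ≠ P := fun h => n11 (by rw [← qP, ← h, q.inv])
    have qa_Q : q a ≠ Q := fun h => n13 (by rw [← qQ, ← h, q.inv])
    have s2t : s2 t = t := by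
      rw [f2, if_neg n6, if_neg n8, if_neg (Ne.symm n1), if_neg (Ne.symm qa_t), f1, if_neg (Ne.symm n1),
        if_neg n6, qt]
    have s2Q : s2 Q = Q := by
      rw [f2, if_neg (Ne.symm n10), if_neg n13, if_neg (Ne.symm n3), if_neg (Ne.symm qa_Q), f1,
        if_neg (Ne.symm n3), if_neg (Ne.symm n10), qQ]
    have s2e : s2 e = q a := by
      rw [f2, if_neg n2, if_neg n4, if_pos rfl]
    have g0 : ∀ s : Pat α, s t = t → (HS.ind (cup e t Pat.empty) : Pat α → K) s = 0 := by
      intro s hs
      apply HS.ind_ne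
      intro h
      rw [h, full, if_neg (Ne.symm n1), if_pos rfl] at hs
      exact n1 hs
    have g1 : (Co Q b : Op α K) (HS.ind (cup e t Pat.empty)) s2 = 0 := by
      rw [Co_apply]
      by_cases h2 : s2 b = b
      · rw [if_pos ⟨s2Q, h2⟩, g0 _ s2t]
      · rw [if_neg (fun h => h2 h.2), if_pos (Or.inl s2Q)]
    have e1 : (En t Q * Co Q b : Op α K) (HS.ind (cup e t Pat.empty)) s2 =
        (Co Q b : Op α K) (HS.ind (cup e t Pat.empty)) (cup t Q s2) := by
      rw [Module.End.mul_apply]
      unfold En
      simp only [LinearMap.add_apply, Module.End.one_apply, Pi.add_apply]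
      rw [g1, zero_add, cupO_apply, if_pos ⟨s2t, s2Q⟩]
    rw [e1]
    set s3 := cup t Q s2 with hs3
    have f3 : ∀ x, s3 x = if x = t then Q else if x = Q then t else s2 x := fun x => cup_e s2t s2Q x
    have s3Q : s3 Q = t := by rw [f3, if_neg (Ne.symm n7), if_pos rfl]
    have s3b : s3 b = s2 b := by rw [f3, if_neg (Ne.symm n9), if_neg (Ne.symm n14)]
    have s3e : s3 e = q a := by rw [f3, if_neg n1, if_neg n3, s2e]
    rw [Co_apply]
    by_cases h2 : q a = b
    · have s2b : s2 b = e := by
        rw [f2, if_neg (Ne.symm n12), if_neg (Ne.symm n15), if_neg (Ne.symm n5), if_pos h2.symm]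
      rw [if_neg (fun h => n7 (s3Q.symm.trans h.1)), if_neg (by
        rintro (h | h | h)
        · exact n7 (s3Q.symm.trans h)
        · rw [s3b, s2b] at h
          exact n5 h
        · rw [s3Q] at h
          exact n9 h)]
      set s4 := cut Q b s3 with hs4
      have f4 : ∀ x, s4 x = if x = Q then Q else if x = b then b else if x = t then e else
          if x = e then t else s3 x := by
        intro x
        have := cut_e (i := Q) (j := b) (p := s3) n14 (by rw [s3Q]; exact n7)
          (by rw [s3b, s2b]; exact n5) (by rw [s3Q]; exact n9) x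
        rw [s3Q, s3b, s2b] at this
        exact this
      have qb : q b = a := by rw [← h2, q.inv]
      have key : s4 = cup e t Pat.empty ↔ q = cup a b Pat.empty := by
        constructor
        · intro h
          ext x
          have h3 : s4 x = cup e t (Pat.empty : Pat α) x := by rw [h]
          rw [full, f4, f3, f2, f1, h2] at h3
          change q x = cup a b (Pat.empty : Pat α) x
          rw [arc]
          by_cases c1 : x = a
          · rw [if_pos c1, c1, h2]
          · by_cases c2 : x = b
            · rw [if_neg c1, if_pos c2, c2, qb]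
            · rw [if_neg c1, if_neg c2]
              by_cases c3 : x = e
              · rw [c3, qe]
              · by_cases c4 : x = t
                · rw [c4, qt]
                · by_cases c5 : x = P
                  · rw [c5, qP]
                  · by_cases c6 : x = Q
                    · rw [c6, qQ]
                    · simp only [if_neg c1, if_neg c2, if_neg c3, if_neg c4, if_neg c5, if_neg c6] at h3
                      exact h3
        · intro h
          ext x
          change s4 x = cup e t (Pat.empty : Pat α) x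
          have h3 : q x = cup a b (Pat.empty : Pat α) x := by rw [h]
          rw [full, f4, f3, f2, f1, h2, h3, arc]
          by_cases c1 : x = a
          · subst c1
            simp only [if_neg n15, if_true, if_neg (Ne.symm n13), if_neg (Ne.symm n8), if_neg (Ne.symm n4),
              if_neg (Ne.symm n11)]
          · by_cases c2 : x = b
            · subst c2
              simp only [if_neg (Ne.symm n14), if_true, if_neg (Ne.symm n5), if_neg (Ne.symm n9)]
            · by_cases c3 : x = e
              · subst c3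
                simp only [if_neg n3, if_neg n5, if_neg n1, if_true]
              · by_cases c4 : x = t
                · subst c4
                  simp only [if_neg n7, if_neg n9, if_true, if_neg (Ne.symm n1)]
                · by_cases c5 : x = P
                  · subst c5
                    simp only [if_neg n10, if_neg n12, if_neg (Ne.symm n6), if_neg (Ne.symm n2), if_true,
                      if_neg c4, if_neg c3]
                  · by_cases c6 : x = Q
                    · subst c6
                      simp only [if_true, if_neg c3, if_neg c4]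
                    · simp only [if_neg c1, if_neg c2, if_neg c3, if_neg c4, if_neg c5, if_neg c6]
      by_cases c : q = cup a b Pat.empty
      · rw [key.2 c, HS.ind_self, ← c, HS.ind_self]
      · rw [HS.ind_ne (fun h => c (key.1 h)), HS.ind_ne c]
    · have hr : (HS.ind (cup a b Pat.empty) : Pat α → K) q = 0 := by
        apply HS.ind_ne
        intro h
        apply h2
        rw [h, arc, if_pos rfl]
      rw [hr, if_neg (fun h => n7 (s3Q.symm.trans h.1))]
      by_cases h3 : s3 b = b
      · rw [if_pos (Or.inr (Or.inl h3))]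
      · rw [if_neg (by
          rintro (h | h | h)
          · exact n7 (s3Q.symm.trans h)
          · exact h3 h
          · rw [s3Q] at h
            exact n9 h)]
        apply HS.ind_ne
        intro h4
        have h5 : cut Q b s3 e = cup e t (Pat.empty : Pat α) e := by rw [h4]
        have s2b : s2 b = q b := by
          rw [f2, if_neg (Ne.symm n12), if_neg (Ne.symm n15), if_neg (Ne.symm n5),
            if_neg (fun h => h2 h.symm), f1, if_neg (Ne.symm n5), if_neg (Ne.symm n12)]
        have qb_e : q b ≠ e := fun h => n5 (by rw [← qe, ← h, q.inv])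
        rw [full, if_pos rfl, cut_e n14 (by rw [s3Q]; exact n7) h3 (by rw [s3Q]; exact n9), if_neg n3,
          if_neg n5, s3Q, if_neg n1, s3b, s2b, if_neg (Ne.symm qb_e), s3e] at h5
        exact qa_t h5

end gen

/-! ### transport -/

section transport

variable {C : Nm}

theorem ne_of_ed {E : Finset (Sym2 Lab)} {p h : Pt × Pt} (hh : C.nm h.1 = h.1)
    (h1 : C.ed p ∉ E) (h2 : C.ed h ∈ E) : (hf p : Lab) ≠ hf h ∧ (hf p : Lab) ≠ hf (C.rv h) := by
  constructor
  · intro e
    rw [Sum.inl.injEq] at e
    exact h1 (by rw [e]; exact h2)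
  · intro e
    rw [Sum.inl.injEq] at e
    exact h1 (by rw [e, Nm.ed_rv hh]; exact h2)

theorem CR_cupO_comm (y : K) {A : Finset Pt} {c : Lab} {p : Pt × Pt} (hc : ∀ h, c ≠ hf h) (hp : p.1 ∉ A) :
    Commute (cupO c (hf p) : Op Lab K) (CR y A) := by
  refine Finset.noncommProd_commute A _ _ _ (fun u hu => ?_)
  unfold Crv
  have e : ∀ d : Pt, (hf (u, d) : Lab) ≠ hf p := by
    intro d hd
    rw [Sum.inl.injEq] at hd
    exact hp (by rw [← hd]; exact hu)
  exact (Cr_cupO_comm (hc _).symm (e _) (hc _).symm (e _) (hc _).symm (e _)).symm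

theorem CO_cupO_comm {E : Finset (Sym2 Lab)} (hE : C.Edg E) {c : Lab} {p : Pt × Pt} (hc : ∀ h, c ≠ hf h)
    (hp : C.ed p ∉ E) : Commute (cupO c (hf p) : Op Lab K) (Nm.CO K E hE) := by
  refine Finset.noncommProd_commute E _ _ _ (fun e he => ?_)
  obtain ⟨h, hh, rfl⟩ := hE e he
  rw [Nm.CoS_ed]
  obtain ⟨h1, h2⟩ := ne_of_ed hh.2 hp he
  exact cupO_Co_comm (hc _) (hc _) h1 h2

theorem CR_PO_comm (y : K) {A : Finset Pt} {p : Pt × Pt} (hp : p.1 ∉ A) :
    Commute (PO (hf p) : Op Lab K) (CR y A) := by
  refine Finset.noncommProd_commute A _ _ _ (fun u hu => ?_)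
  apply PO_Crv_comm
  intro e
  exact hp (by rw [e]; exact hu)

theorem CR_PO_comm' (y : K) {A : Finset Pt} {c : Lab} (hc : ∀ h, c ≠ hf h) :
    Commute (PO c : Op Lab K) (CR y A) := by
  refine Finset.noncommProd_commute A _ _ _ (fun u hu => ?_)
  unfold Crv Cr
  exact (Commute.one_right _).add_right ((((PO_cupO_comm (hc _) (hc _)).add_right
    (PO_cupO_comm (hc _) (hc _))).add_right (PO_cupO_comm (hc _) (hc _))).smul_right y)

theorem CO_PO_comm {E : Finset (Sym2 Lab)} (hE : C.Edg E) {p : Pt × Pt} (hp : C.ed p ∉ E) :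
    Commute (PO (hf p) : Op Lab K) (Nm.CO K E hE) := by
  refine Finset.noncommProd_commute E _ _ _ (fun e he => ?_)
  obtain ⟨h, hh, rfl⟩ := hE e he
  rw [Nm.CoS_ed]
  obtain ⟨h1, h2⟩ := ne_of_ed hh.2 hp he
  exact PO_Co_comm h1 h2

theorem CO_PO_comm' {E : Finset (Sym2 Lab)} (hE : C.Edg E) {c : Lab} (hc : ∀ h, c ≠ hf h) :
    Commute (PO c : Op Lab K) (Nm.CO K E hE) := by
  refine Finset.noncommProd_commute E _ _ _ (fun e he => ?_)
  obtain ⟨h, hh, rfl⟩ := hE e he
  rw [Nm.CoS_ed]
  exact PO_Co_comm (hc _) (hc _)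

theorem be_ne (h : Pt × Pt) : be ≠ hf h := by simp

theorem ta_ne (h : Pt × Pt) : ta ≠ hf h := by simp

theorem dlt_eq : (dlt K : Pat Lab → K) = HS.ind (cup be ta Pat.empty) := by
  funext p
  unfold dlt HS.ind full
  congr

/-- **The network between two ends.** -/
theorem two_ended (y : K) {A : Finset Pt} {E : Finset (Sym2 Lab)} (hE : C.Edg E) {p h' : Pt × Pt}
    (hp : C.De p) (hh : C.De h') (pA : p.1 ∉ A) (hA : h'.1 ∉ A) (hne : p ≠ h') (hne' : C.rv p ≠ h')
    (e1 : C.ed p ∉ E) (e2 : C.ed h' ∉ E) (E' : Finset (Sym2 Lab)) (hE' : C.Edg E')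
    (eE : E' = insert (C.ed p) (insert (C.ed h') E)) :
    (CR y A * Nm.CO K E hE) (HS.ind (cup (hf (C.rv p)) (hf (C.rv h')) Pat.empty)) Pat.empty =
      (CR y A * EN K true {h'} * Nm.CO K E' hE') (dlt K) (st p) := by
  classical
  subst eE
  have e3 : C.ed p ≠ C.ed h' := by
    rw [Ne, Nm.ed_eq hh.2, not_or]
    refine ⟨hne, fun e => hne' ?_⟩
    rw [e, Nm.rv_rv hh.2]
  have e4 : C.ed p ∉ insert (C.ed h') E := by
    rw [Finset.mem_insert, not_or]
    exact ⟨e3, e1⟩
  have hE1 : C.Edg (insert (C.ed h') E) := fun e he => hE' e (Finset.mem_insert_of_mem he)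
  have eCO : Nm.CO K (insert (C.ed p) (insert (C.ed h') E)) hE' =
      CoS (C.ed p) * (CoS (C.ed h') * Nm.CO K E hE) := by
    unfold Nm.CO
    rw [Finset.noncommProd_insert_of_notMem _ _ _ _ e4, Finset.noncommProd_insert_of_notMem _ _ _ _ e2]
  have eEN : (EN K true {h'} : Op Lab K) = En ta (hf h') := Finset.noncommProd_singleton _ _
  set a := C.rv p with ha
  set b := C.rv h' with hb
  have hab : a ≠ b := fun e => hne (by rw [← Nm.rv_rv hp.2, ← ha, e, hb, Nm.rv_rv hh.2])
  have hpa : p ≠ a := Nm.rv_ne hp
  have hhb : h' ≠ b := Nm.rv_ne hh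
  have hpb : p ≠ b := fun e => hne' (by rw [ha, e, hb, Nm.rv_rv hh.2])
  have hha : h' ≠ a := hne'.symm
  -- the operators at the ends
  set Xo : Op Lab K := CR y A * Nm.CO K E hE with hX
  set Ho : Op Lab K := Co (hf p) (hf a) * (En ta (hf h') * Co (hf h') (hf b)) with hHo
  have c1 : Commute (CoS (C.ed p) : Op Lab K) (Nm.CO K E hE) := by
    refine Finset.noncommProd_commute E _ _ _ (fun e he => ?_)
    obtain ⟨h, hh, rfl⟩ := hE e he
    exact Nm.CoS_comm hp.2 hh.2 (fun e => e1 (by rw [e]; exact he))
  have c2 : Commute (CoS (C.ed h') : Op Lab K) (Nm.CO K E hE) := by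
    refine Finset.noncommProd_commute E _ _ _ (fun e he => ?_)
    obtain ⟨h, hh', rfl⟩ := hE e he
    exact Nm.CoS_comm hh.2 hh'.2 (fun e => e2 (by rw [e]; exact he))
  have c3 : Commute (En ta (hf h') : Op Lab K) (Nm.CO K E hE) := by
    unfold En
    exact (Commute.one_left _).add_left (CO_cupO_comm hE ta_ne e2)
  have c4 : Commute (En ta (hf h') : Op Lab K) (CoS (C.ed p)) := by
    rw [Nm.CoS_ed]
    exact En_Co_comm (ta_ne _) (ta_ne _) (by simpa using hne.symm) (by simpa using hha)
  have eOp : CR y A * EN K true {h'} * Nm.CO K (insert (C.ed p) (insert (C.ed h') E)) hE' = Xo * Ho := by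
    rw [eCO, eEN, hX, hHo]
    rw [← Nm.CoS_ed (C := C) p, ← Nm.CoS_ed (C := C) h']
    calc _ = CR y A * ((En ta (hf h') * CoS (C.ed p)) * (CoS (C.ed h') * Nm.CO K E hE)) := by
          simp only [mul_assoc]
      _ = CR y A * (CoS (C.ed p) * (En ta (hf h') * Nm.CO K E hE) * CoS (C.ed h')) := by
          rw [c4.eq, c2.eq]
          simp only [mul_assoc]
      _ = CR y A * ((CoS (C.ed p) * Nm.CO K E hE) * En ta (hf h') * CoS (C.ed h')) := by
          rw [c3.eq]
          simp only [mul_assoc]
      _ = _ := by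
          rw [c1.eq]
          simp only [mul_assoc]
  rw [eOp, dlt_eq]
  set H : Pat Lab → K := Ho (HS.ind (cup be ta Pat.empty)) with hH
  change Xo (HS.ind (cup (hf a) (hf b) Pat.empty)) Pat.empty = Xo H (st p)
  -- remove the strand at p
  have c5 : Commute (cupO be (hf p) : Op Lab K) Xo :=
    (CR_cupO_comm y be_ne pA).mul_right (CO_cupO_comm hE be_ne e1)
  have e5 : Xo H (st p) = Xo (cupO be (hf p) H) Pat.empty := by
    have h1 : (cupO be (hf p) * Xo : Op Lab K) H Pat.empty = (Xo * cupO be (hf p) : Op Lab K) H Pat.empty := by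
      rw [c5.eq]
    rw [Module.End.mul_apply, Module.End.mul_apply, cupO_apply, if_pos ⟨rfl, rfl⟩] at h1
    exact h1
  rw [e5]
  -- the four labels are empty
  set PP : Op Lab K := PO be * (PO ta * (PO (hf p) * PO (hf h'))) with hPP
  have c6 : Commute PP Xo := by
    refine Commute.mul_left ?_ (Commute.mul_left ?_ (Commute.mul_left ?_ ?_))
    · exact (CR_PO_comm' y be_ne).mul_right (CO_PO_comm' hE be_ne)
    · exact (CR_PO_comm' y ta_ne).mul_right (CO_PO_comm' hE ta_ne)
    · exact (CR_PO_comm y pA).mul_right (CO_PO_comm hE e1)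
    · exact (CR_PO_comm y hA).mul_right (CO_PO_comm hE e2)
  have e6 : ∀ F : Pat Lab → K, Xo F Pat.empty = Xo (PP F) Pat.empty := by
    intro F
    have h1 : (PP * Xo : Op Lab K) F Pat.empty = (Xo * PP : Op Lab K) F Pat.empty := by rw [c6.eq]
    have h2 : (PP * Xo : Op Lab K) F Pat.empty = Xo F Pat.empty := by
      rw [hPP]
      simp only [Module.End.mul_apply]
      rw [PO_apply, if_pos (show (Pat.empty : Pat Lab) be = be from rfl), PO_apply,
        if_pos (show (Pat.empty : Pat Lab) ta = ta from rfl), PO_apply,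
        if_pos (show (Pat.empty : Pat Lab) (hf p) = hf p from rfl), PO_apply,
        if_pos (show (Pat.empty : Pat Lab) (hf h') = hf h' from rfl)]
    rw [← h2, h1, Module.End.mul_apply]
  rw [e6, e6 (cupO be (hf p) H)]
  suffices hs : PP (HS.ind (cup (hf a) (hf b) Pat.empty)) = PP (cupO be (hf p) H) by rw [hs]
  funext q
  rw [hPP]
  simp only [Module.End.mul_apply, PO_apply]
  by_cases q1 : q be = be
  swap
  · rw [if_neg q1, if_neg q1]
  by_cases q2 : q ta = ta
  swap
  · rw [if_pos q1, if_pos q1, if_neg q2, if_neg q2]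
  by_cases q3 : q (hf p) = hf p
  swap
  · rw [if_pos q1, if_pos q1, if_pos q2, if_pos q2, if_neg q3, if_neg q3]
  by_cases q4 : q (hf h') = hf h'
  swap
  · rw [if_pos q1, if_pos q1, if_pos q2, if_pos q2, if_pos q3, if_pos q3, if_neg q4, if_neg q4]
  rw [if_pos q1, if_pos q1, if_pos q2, if_pos q2, if_pos q3, if_pos q3, if_pos q4, if_pos q4,
    cupO_apply, if_pos ⟨q1, q3⟩]
  symm
  rw [hH, hHo]
  refine ends_val ?_ q1 q2 q3 q4
  simp only [List.nodup_cons, List.mem_cons, not_or, List.not_mem_nil, not_false_eq_true,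
    and_true, List.nodup_nil]
  refine ⟨⟨by simp, be_ne _, be_ne _, be_ne _, be_ne _⟩, ⟨ta_ne _, ta_ne _, ta_ne _, ta_ne _⟩,
    ⟨?_, ?_, ?_⟩, ⟨?_, ?_⟩, ?_⟩
  · simpa using hne
  · simpa using hpa
  · simpa using hpb
  · simpa using hha
  · simpa using hhb
  · simpa using hab

end transport

end Pool.Agent.MXR
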