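import Pool.Agent.MXR.Cell
import Pool.Agent.MXR.Brick
import Pool.Agent.NUNC.Front

/-!
# Fronts of the brick wall, rings with alternating rows (module M1 of nu34/22a)

As `NUN/Front`, `NUNC/Front`; the rows with odd index are mirrored.
-/

set_option autoImplicit false

namespace Pool.Agent.MXR

open Pool.Agent.EXL hiding cc
open Pool.Agent.EXL.Pat Pool.Agent.EXL.Net HexObs HexObs.LP
open Pool.Agent.NUF.Cyl (UO PO PL seam UO_apply PO_apply Co_eq_glue glue_congr U_symm glue_symm)
open Pool.Agent.NUN (cc Xr Xl)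
open Pool.Agent.NUNC (dd)

variable {K : Type*} [CommRing K] {N : ℕ}

/-- the row is mirrored. -/
def mi (i : ℤ) : Bool := decide (i % 2 = 1)

theorem mi_true {i : ℤ} (h : i % 2 = 1) : mi i = true := by
  unfold mi
  simp [h]

theorem mi_false {i : ℤ} (h : i % 2 = 0) : mi i = false := by
  unfold mi
  simp [h]

/-- the weights of the lines. -/
def wA (y : K) (N : ℕ) : NUF.St N → Wt K
  | Sum.inl (i, _) => cellW y (mi ((i : ℕ) : ℤ))
  | Sum.inr _ => hexW y

theorem wA_Xr (y : K) (i : Fin N) : wA y N (Xr i) = cellW y (mi ((i : ℕ) : ℤ)) := rfl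

theorem wA_Xl (y : K) (i : Fin N) : wA y N (Xl i) = cellW y (mi ((i : ℕ) : ℤ)) := rfl

/-! ### cells -/

/-- a cell of the right part. -/
noncomputable def rCell (y : K) (k i : ℤ) : Op Lab K :=
  Crv y (V (2 * k) i) * Crv y (V (2 * k + 1) i) *
    (Co (vt (2 * k + i % 2) (i - 1)) (vt (2 * k + i % 2) i) *
      Co (lf (2 * (k + 1)) i) (rt (2 * k + 1) i) * Co (rt (2 * k) i) (lf (2 * k + 1) i))

/-- a cell of the left part. -/
noncomputable def lCell (y : K) (k i : ℤ) : Op Lab K :=
  Crv y (V (2 * k) i) * Crv y (V (2 * k + 1) i) *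
    (Co (vt (2 * k + (i + 1) % 2) (i + 1)) (vt (2 * k + (i + 1) % 2) i) *
      Co (rt (2 * (k - 1) + 1) i) (lf (2 * k) i) * Co (rt (2 * k) i) (lf (2 * k + 1) i))

theorem V_ne (k i : ℤ) : V (2 * k) i ≠ V (2 * k + 1) i := by
  rw [Ne, V_inj]
  omega

theorem rCell_eq (y : K) (k i : ℤ) : rCell y k i =
    cellO K y (mi i) (vt (2 * k + i % 2) (i - 1)) (lf (2 * (k + 1)) i) (vt (2 * k + i % 2) i)
      (rt (2 * k + 1) i) (lf (2 * k) i) (vt (2 * k + (i + 1) % 2) i)
      (if mi i then lf (2 * k + 1) i else rt (2 * k) i)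
      (if mi i then rt (2 * k) i else lf (2 * k + 1) i) := by
  unfold rCell cellO
  have hc : Commute (Crv y (V (2 * k) i) : Op Lab K) (Crv y (V (2 * k + 1) i)) := Crv_comm y (V_ne k i)
  rcases Int.emod_two_eq_zero_or_one i with h | h
  · have h' : (i + 1) % 2 = 1 := by omega
    simp only [mi_false h, if_false, Bool.false_eq_true]
    rw [h, h', add_zero, Crv_V, Crv_V]
    rw [Cr_swap12 y (vt (2 * k + 1) i)]
  · have h' : (i + 1) % 2 = 0 := by omega
    simp only [mi_true h, if_true]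
    rw [hc.eq, h, h', add_zero, Crv_V, Crv_V, Co_symm (rt (2 * k) i)]
    rw [Cr_swap12 y (vt (2 * k) i)]

theorem lCell_eq (y : K) (k i : ℤ) : lCell y k i =
    cellO K y (mi i) (vt (2 * k + (i + 1) % 2) (i + 1)) (rt (2 * (k - 1) + 1) i)
      (vt (2 * k + (i + 1) % 2) i) (lf (2 * k) i) (rt (2 * k + 1) i) (vt (2 * k + i % 2) i)
      (if mi i then rt (2 * k) i else lf (2 * k + 1) i)
      (if mi i then lf (2 * k + 1) i else rt (2 * k) i) := by
  unfold lCell cellO
  have hc : Commute (Crv y (V (2 * k) i) : Op Lab K) (Crv y (V (2 * k + 1) i)) := Crv_comm y (V_ne k i)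
  rcases Int.emod_two_eq_zero_or_one i with h | h
  · have h' : (i + 1) % 2 = 1 := by omega
    simp only [mi_false h, if_false, Bool.false_eq_true]
    rw [hc.eq, h, h', add_zero, Crv_V, Crv_V, Co_symm (rt (2 * k) i)]
    rw [Cr_swap23 y (vt (2 * k + 1) i), ← Cr_rot y (lf (2 * k) i)]
  · have h' : (i + 1) % 2 = 0 := by omega
    simp only [mi_true h, if_true]
    rw [h, h', add_zero, Crv_V, Crv_V]
    rw [Cr_swap23 y (vt (2 * k) i), ← Cr_rot y (lf (2 * k + 1) i)]

/-! ### fronts -/

/-- The front: the line `i` ends at the column `ka i` (right part) and `kb i` (left part), the auxiliary line at the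
vertical leg `a, b`. -/
def fr (N : ℕ) (ka kb : ℕ → ℤ) (a b : ℤ) : NUF.St N → Lab
  | Sum.inl (i, false) => lf (2 * ka (i : ℕ)) ((i : ℕ) : ℤ)
  | Sum.inl (i, true) => rt (2 * kb (i : ℕ) + 1) ((i : ℕ) : ℤ)
  | Sum.inr l => if l = 0 then vt a b else lX (l : ℕ)

theorem lX_inj' {l l' : ℕ} : lX l = lX l' → l = l' := by
  intro h
  simp only [lX, Sum.inl.injEq, Prod.mk.injEq] at h
  omega

theorem fr_inj (ka kb : ℕ → ℤ) (a b : ℤ) : Function.Injective (fr N ka kb a b) := by
  intro s t h
  rcases s with ⟨i, _ | _⟩ | l <;> rcases t with ⟨i', _ | _⟩ | l' <;> simp only [fr] at h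
  · rw [lf_inj] at h
    rw [Fin.ext (by exact_mod_cast h.2 : (i : ℕ) = (i' : ℕ))]
  · simp at h
  · split_ifs at h <;> simp at h
  · simp at h
  · rw [rt_inj] at h
    rw [Fin.ext (by exact_mod_cast h.2 : (i : ℕ) = (i' : ℕ))]
  · split_ifs at h <;> simp at h
  · split_ifs at h <;> simp at h
  · split_ifs at h <;> simp at h
  · congr 1
    by_cases c1 : l = 0
    · by_cases c2 : l' = 0
      · rw [c1, c2]
      · rw [if_pos c1, if_neg c2] at h
        simp at h
    · by_cases c2 : l' = 0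
      · rw [if_neg c1, if_pos c2] at h
        simp at h
      · rw [if_neg c1, if_neg c2] at h
        exact Fin.ext (lX_inj' h)

/-- the state on a front. -/
noncomputable def Fr (ka kb : ℕ → ℤ) (a b : ℤ) (q : Pat (NUF.St N)) : Pat Lab :=
  lft (fr N ka kb a b) (fr_inj ka kb a b) q

/-- the position of the auxiliary site does not matter if it is empty. -/
theorem Fr_move {ka kb ka' kb' : ℕ → ℤ} {a b a' b' : ℤ} {q : Pat (NUF.St N)}
    (h : q cc = cc) (ha : ∀ i, i < N → ka i = ka' i) (hb : ∀ i, i < N → kb i = kb' i) :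
    Fr ka kb a b q = Fr ka' kb' a' b' q := by
  apply lft_congr
  intro s hq
  rcases s with ⟨i, _ | _⟩ | l
  · simp only [fr, ha i i.2]
  · simp only [fr, hb i i.2]
  · simp only [fr]
    by_cases c : l = 0
    · subst c
      exact absurd h hq
    · rw [if_neg c, if_neg c]

theorem Fr_empty (ka kb : ℕ → ℤ) (a b : ℤ) :
    Fr ka kb a b (Pat.empty : Pat (NUF.St N)) = Pat.empty := by
  apply Pat.ext
  funext x
  show Fr ka kb a b (Pat.empty : Pat (NUF.St N)) x = x
  unfold Fr
  by_cases hx : ∃ s, fr N ka kb a b s = x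
  · obtain ⟨s, rfl⟩ := hx
    rw [lft_apply]
    rfl
  · exact lft_of_notMem _ _ _ hx

theorem fr_cc (ka kb : ℕ → ℤ) (a b : ℤ) : fr N ka kb a b cc = vt a b := by simp [fr]

theorem fr_dd (ka kb : ℕ → ℤ) (a b : ℤ) : fr N ka kb a b dd = lX 1 := by simp [fr]

theorem fr_Xr (ka kb : ℕ → ℤ) (a b : ℤ) (i : Fin N) : fr N ka kb a b (Xr i) = lf (2 * ka i) (i : ℕ) := rfl

theorem fr_Xl (ka kb : ℕ → ℤ) (a b : ℤ) (i : Fin N) : fr N ka kb a b (Xl i) = rt (2 * kb i + 1) (i : ℕ) := rfl

theorem nodup_right (k i : ℤ) : [vt (2 * k + i % 2) (i - 1), lf (2 * (k + 1)) i, vt (2 * k + i % 2) i,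
      rt (2 * k + 1) i, lf (2 * k) i, vt (2 * k + (i + 1) % 2) i,
      (if mi i then lf (2 * k + 1) i else rt (2 * k) i),
      (if mi i then rt (2 * k) i else lf (2 * k + 1) i)].Nodup := by
  simp only [List.nodup_cons, List.mem_cons, not_or, List.not_mem_nil, not_false_eq_true,
    and_true, List.nodup_nil]
  cases mi i <;> simp <;> omega

theorem nodup_left (k i : ℤ) : [vt (2 * k + (i + 1) % 2) (i + 1), rt (2 * (k - 1) + 1) i,
      vt (2 * k + (i + 1) % 2) i, lf (2 * k) i, rt (2 * k + 1) i, vt (2 * k + i % 2) i,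
      (if mi i then rt (2 * k) i else lf (2 * k + 1) i),
      (if mi i then lf (2 * k + 1) i else rt (2 * k) i)].Nodup := by
  simp only [List.nodup_cons, List.mem_cons, not_or, List.not_mem_nil, not_false_eq_true,
    and_true, List.nodup_nil]
  cases mi i <;> simp <;> omega

theorem cell_right (y : K) (k : ℤ) (i : Fin N) (kb : ℕ → ℤ) (hkb : ∀ i, i < N → kb i ≠ k)
    (G : Pat Lab → K) (q : Pat (NUF.St N)) :
    rCell y k ((i : ℕ) : ℤ) G (Fr (fun n => if n < (i : ℕ) then k else k + 1) kb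
        (2 * k + ((i : ℕ) : ℤ) % 2) (((i : ℕ) : ℤ) - 1) q) =
      R (wA y N (Xr i)) cc (Xr i) (fun q => G (Fr (fun n => if n < (i : ℕ) + 1 then k else k + 1) kb
        (2 * k + (((i : ℕ) : ℤ) + 1) % 2) ((i : ℕ) : ℤ) q)) q := by
  rw [wA_Xr, rCell_eq]
  refine cell_gen y _ _ _ (c := cc) (j := Xr i) ?_ ?_ ?_ ?_ ?_ (nodup_right k _) ?_ G q
  · rw [fr_cc]
  · rw [fr_Xr]
    simp
  · rw [fr_cc]
  · rw [fr_Xr]
    simp
  · intro s hs hs'
    rcases s with ⟨i', _ | _⟩ | l
    · have h3 : (i' : ℕ) ≠ (i : ℕ) := fun e => hs' (by rw [Xr, Fin.ext e])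
      simp only [fr]
      congr 2
      by_cases c : (i' : ℕ) < (i : ℕ)
      · rw [if_pos c, if_pos (by omega)]
      · rw [if_neg c, if_neg (by omega)]
    · rfl
    · have h3 : l ≠ 0 := fun e => hs (by rw [e])
      simp [fr, h3]
  · intro z hz s
    simp only [List.mem_cons, List.not_mem_nil, or_false] at hz
    rcases s with ⟨i', _ | _⟩ | l
    · simp only [fr]
      have h4 : lf (2 * (if (i' : ℕ) < (i : ℕ) then k else k + 1)) ((i' : ℕ) : ℤ) ≠ lf (2 * k) ((i : ℕ) : ℤ) := by
        rw [Ne, lf_inj]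
        split_ifs <;> omega
      have h5 : lf (2 * (if (i' : ℕ) < (i : ℕ) then k else k + 1)) ((i' : ℕ) : ℤ) ≠
          lf (2 * k + 1) ((i : ℕ) : ℤ) := by
        rw [Ne, lf_inj]
        split_ifs <;> omega
      rcases hz with rfl | rfl | rfl | rfl | rfl | rfl
      · simp
      · simp
      · exact h4
      · simp
      · split_ifs <;> first | exact h5 | (simp; done) | (simp; intro; omega)
      · split_ifs <;> first | exact h5 | (simp; done) | (simp; intro; omega)
    · simp only [fr]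
      have h4 : rt (2 * kb i' + 1) ((i' : ℕ) : ℤ) ≠ rt (2 * k + 1) ((i : ℕ) : ℤ) := by
        rw [Ne, rt_inj]
        have := hkb i' i'.2
        omega
      have h5 : rt (2 * kb i' + 1) ((i' : ℕ) : ℤ) ≠ rt (2 * k) ((i : ℕ) : ℤ) := by
        rw [Ne, rt_inj]
        omega
      rcases hz with rfl | rfl | rfl | rfl | rfl | rfl
      · simp
      · exact h4
      · simp
      · simp
      · split_ifs <;> first | exact h5 | (simp; done) | (simp; intro; omega)
      · split_ifs <;> first | exact h5 | (simp; done) | (simp; intro; omega)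
    · simp only [fr]
      rcases hz with rfl | rfl | rfl | rfl | rfl | rfl
      · split_ifs <;> simp
      · split_ifs <;> simp
      · split_ifs <;> simp
      · split_ifs <;> simp
      · split_ifs <;> simp
      · split_ifs <;> simp

theorem cell_left (y : K) (k : ℤ) (i : Fin N) (ka : ℕ → ℤ) (hka : ∀ i, i < N → ka i ≠ k)
    (G : Pat Lab → K) (q : Pat (NUF.St N)) :
    lCell y k ((i : ℕ) : ℤ) G (Fr ka (fun n => if n < (i : ℕ) + 1 then k - 1 else k)
        (2 * k + (((i : ℕ) : ℤ) + 1) % 2) (((i : ℕ) : ℤ) + 1) q) =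
      R (wA y N (Xl i)) cc (Xl i) (fun q => G (Fr ka (fun n => if n < (i : ℕ) then k - 1 else k)
        (2 * k + ((i : ℕ) : ℤ) % 2) ((i : ℕ) : ℤ) q)) q := by
  rw [wA_Xl, lCell_eq]
  refine cell_gen y _ _ _ (c := cc) (j := Xl i) ?_ ?_ ?_ ?_ ?_ (nodup_left k _) ?_ G q
  · rw [fr_cc]
  · rw [fr_Xl]
    simp
  · rw [fr_cc]
  · rw [fr_Xl]
    simp
  · intro s hs hs'
    rcases s with ⟨i', _ | _⟩ | l
    · rfl
    · have h3 : (i' : ℕ) ≠ (i : ℕ) := fun e => hs' (by rw [Xl, Fin.ext e])
      simp only [fr]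
      congr 3
      by_cases c : (i' : ℕ) < (i : ℕ)
      · rw [if_pos c, if_pos (by omega)]
      · rw [if_neg c, if_neg (by omega)]
    · have h3 : l ≠ 0 := fun e => hs (by rw [e])
      simp [fr, h3]
  · intro z hz s
    simp only [List.mem_cons, List.not_mem_nil, or_false] at hz
    rcases s with ⟨i', _ | _⟩ | l
    · simp only [fr]
      have h4 : lf (2 * ka i') ((i' : ℕ) : ℤ) ≠ lf (2 * k) ((i : ℕ) : ℤ) := by
        rw [Ne, lf_inj]
        have := hka i' i'.2
        omega
      have h5 : lf (2 * ka i') ((i' : ℕ) : ℤ) ≠ lf (2 * k + 1) ((i : ℕ) : ℤ) := by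
        rw [Ne, lf_inj]
        omega
      rcases hz with rfl | rfl | rfl | rfl | rfl | rfl
      · simp
      · exact h4
      · simp
      · simp
      · split_ifs <;> first | exact h5 | (simp; done) | (simp; intro; omega)
      · split_ifs <;> first | exact h5 | (simp; done) | (simp; intro; omega)
    · simp only [fr]
      have h4 : rt (2 * (if (i' : ℕ) < (i : ℕ) + 1 then k - 1 else k) + 1) ((i' : ℕ) : ℤ) ≠
          rt (2 * k + 1) ((i : ℕ) : ℤ) := by
        rw [Ne, rt_inj]
        split_ifs <;> omega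
      have h5 : rt (2 * (if (i' : ℕ) < (i : ℕ) + 1 then k - 1 else k) + 1) ((i' : ℕ) : ℤ) ≠
          rt (2 * k) ((i : ℕ) : ℤ) := by
        rw [Ne, rt_inj]
        split_ifs <;> omega
      rcases hz with rfl | rfl | rfl | rfl | rfl | rfl
      · simp
      · simp
      · exact h4
      · simp
      · split_ifs <;> first | exact h5 | (simp; done) | (simp; intro; omega)
      · split_ifs <;> first | exact h5 | (simp; done) | (simp; intro; omega)
    · simp only [fr]
      rcases hz with rfl | rfl | rfl | rfl | rfl | rfl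
      · split_ifs <;> simp
      · split_ifs <;> simp
      · split_ifs <;> simp
      · split_ifs <;> simp
      · split_ifs <;> simp
      · split_ifs <;> simp

/-! ### rings -/

theorem rows_right (y : K) (k : ℤ) (kb : ℕ → ℤ) (hkb : ∀ i, i < N → kb i ≠ k) (G : Pat Lab → K) :
    ∀ (n j : ℕ), j + n = N → ∀ q : Pat (NUF.St N),
    (((List.range N).drop j).map (fun i : ℕ => rCell y k (i : ℤ))).prod G
        (Fr (fun n => if n < j then k else k + 1) kb (2 * k + (j : ℤ) % 2) ((j : ℤ) - 1) q) =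
      M (wA y N) cc (((List.finRange N).drop j).map Xr)
        (fun q => G (Fr (fun n => if n < N then k else k + 1) kb (2 * k + (N : ℤ) % 2) ((N : ℤ) - 1) q)) q
  | 0, j, h, q => by
    have h1 : (List.finRange N).drop j = [] := by
      apply List.drop_eq_nil_of_le
      rw [List.length_finRange]
      omega
    have h2 : (List.range N).drop j = [] := by
      apply List.drop_eq_nil_of_le
      rw [List.length_range]
      omega
    rw [h1, h2]
    have : j = N := by omega
    subst this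
    rfl
  | n + 1, j, h, q => by
    have hj : j < N := by omega
    have h1 : (List.finRange N).drop j = ⟨j, hj⟩ :: (List.finRange N).drop (j + 1) := by
      rw [List.drop_eq_getElem_cons (by rw [List.length_finRange]; exact hj)]
      simp
    have h2 : (List.range N).drop j = j :: (List.range N).drop (j + 1) := by
      rw [List.drop_eq_getElem_cons (by rw [List.length_range]; exact hj)]
      simp
    rw [h1, h2, List.map_cons, List.prod_cons, List.map_cons, M_cons, Module.End.mul_apply]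
    have h3 := cell_right y k ⟨j, hj⟩ kb hkb
      ((((List.range N).drop (j + 1)).map (fun i : ℕ => rCell y k (i : ℤ))).prod G) q
    refine h3.trans ?_
    congr 1
    funext q'
    have h4 := rows_right y k kb hkb G n (j + 1) (by omega) q'
    have e : (((j + 1 : ℕ) : ℤ) - 1) = (j : ℤ) := by push_cast; ring
    have e' : (((j + 1 : ℕ) : ℤ)) = (j : ℤ) + 1 := by push_cast; ring
    rw [e, e'] at h4
    exact h4

theorem rows_left (y : K) (k : ℤ) (ka : ℕ → ℤ) (hka : ∀ i, i < N → ka i ≠ k) (G : Pat Lab → K)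
    (j : ℕ) : j ≤ N → ∀ q : Pat (NUF.St N),
    ((List.range j).reverse.map (fun i : ℕ => lCell y k (i : ℤ))).prod G
        (Fr ka (fun n => if n < j then k - 1 else k) (2 * k + (j : ℤ) % 2) (j : ℤ) q) =
      M (wA y N) cc ((((List.finRange N).take j).map Xl).reverse)
        (fun q => G (Fr ka (fun n => if n < 0 then k - 1 else k) (2 * k) 0 q)) q := by
  induction j with
  | zero =>
    intro _ q
    simp [M]
  | succ j ih =>
    intro h q
    have hj : j < N := by omega
    have h1 : (List.finRange N).take (j + 1) = (List.finRange N).take j ++ [⟨j, hj⟩] := by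
      rw [List.take_succ_eq_append_getElem (by rw [List.length_finRange]; exact hj)]
      simp
    have h2 : (((List.finRange N).take (j + 1)).map Xl).reverse =
        Xl ⟨j, hj⟩ :: (((List.finRange N).take j).map Xl).reverse := by
      rw [h1, List.map_append, List.reverse_append]
      rfl
    have h2' : (List.range (j + 1)).reverse = j :: (List.range j).reverse := by
      rw [List.range_succ, List.reverse_append]
      rfl
    rw [h2, h2', List.map_cons, List.prod_cons, M_cons, Module.End.mul_apply]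
    have ih' := ih (by omega)
    generalize ((List.range j).reverse.map (fun i : ℕ => lCell y k (i : ℤ))).prod G = P at ih' ⊢
    rw [← funext ih']
    have h3 := cell_left y k ⟨j, hj⟩ ka hka P q
    have hv : ((⟨j, hj⟩ : Fin N) : ℕ) = j := rfl
    rw [hv] at h3
    have e : ((j + 1 : ℕ) : ℤ) = (j : ℤ) + 1 := by push_cast; ring
    rw [e, h3]

theorem UO_Fr (ka kb : ℕ → ℤ) (a b : ℤ) (G : Pat Lab → K) (q : Pat (NUF.St N)) :
    UO (lX 1) (vt a b) G (Fr ka kb a b q) =
      EXL.U cc dd (fun q => G (Fr ka kb a b q)) q := by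
  rw [UO_apply, U_symm, ← fr_dd (N := N) ka kb a b, ← fr_cc (N := N) ka kb a b]
  exact U_st (femb (fr N ka kb a b) (fr_inj ka kb a b)) G q cc dd

theorem Co_Fr (ka kb : ℕ → ℤ) (a b : ℤ) (G : Pat Lab → K) (q : Pat (NUF.St N)) :
    Co (lX 1) (vt a b) G (Fr ka kb a b q) =
      glue cc dd (fun q => G (Fr ka kb a b q)) q := by
  rw [Co_eq_glue, glue_symm, ← fr_dd (N := N) ka kb a b, ← fr_cc (N := N) ka kb a b]
  exact glue_st (femb (fr N ka kb a b) (fr_inj ka kb a b)) G q cc dd

/-- a ring of the right part. -/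
noncomputable def rRing (y : K) (N : ℕ) (k : ℤ) : Op Lab K :=
  UO (lX 1) (vt (2 * k) (-1)) * ((List.range N).map (fun i : ℕ => rCell y k (i : ℤ))).prod *
    Co (lX 1) (vt (2 * k + (N : ℤ) % 2) ((N : ℤ) - 1))

/-- a ring of the left part. -/
noncomputable def lRing (y : K) (N : ℕ) (k : ℤ) : Op Lab K :=
  UO (lX 1) (vt (2 * k + (N : ℤ) % 2) N) * ((List.range N).reverse.map (fun i : ℕ => lCell y k (i : ℤ))).prod *
    Co (lX 1) (vt (2 * k) 0)

/-- a ring of the right part. -/
theorem rRing_eq (y : K) (k : ℤ) (kb : ℕ → ℤ) (hkb : ∀ i, i < N → kb i ≠ k) (G : Pat Lab → K)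
    (q : Pat (NUF.St N)) :
    rRing y N k G (Fr (fun _ => k + 1) kb (2 * k) (-1) q) =
      NUG.ringF (wA y N) cc dd ((List.finRange N).map Xr)
        (fun q => G (Fr (fun _ => k) kb 0 0 q)) q := by
  unfold rRing
  rw [Module.End.mul_apply, Module.End.mul_apply]
  have h1 := UO_Fr (fun _ => k + 1) kb (2 * k) (-1)
    (((List.range N).map (fun i : ℕ => rCell y k (i : ℤ))).prod
      (Co (lX 1) (vt (2 * k + (N : ℤ) % 2) ((N : ℤ) - 1)) G)) q
  rw [h1]
  unfold NUG.ringF
  congr 1
  funext q1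
  have h2 := rows_right y k kb hkb (Co (lX 1) (vt (2 * k + (N : ℤ) % 2) ((N : ℤ) - 1)) G) N 0 (by omega) q1
  rw [List.drop_zero, List.drop_zero] at h2
  have e : Fr (fun n => if n < 0 then k else k + 1) kb (2 * k + ((0 : ℕ) : ℤ) % 2) (((0 : ℕ) : ℤ) - 1) q1 =
      Fr (fun _ => k + 1) kb (2 * k) (-1) q1 := by
    have e1 : (fun n : ℕ => if n < 0 then k else k + 1) = fun _ => k + 1 := by
      funext n
      simp
    have e2 : (((0 : ℕ) : ℤ) - 1) = -1 := by norm_num
    have e3 : 2 * k + ((0 : ℕ) : ℤ) % 2 = 2 * k := by simp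
    rw [e1, e2, e3]
  rw [e] at h2
  rw [h2]
  congr 1
  funext q2
  have h3 := Co_Fr (fun n => if n < N then k else k + 1) kb (2 * k + (N : ℤ) % 2) ((N : ℤ) - 1) G q2
  rw [h3]
  apply congrFun
  apply glue_congr (by simp)
  intro q3 hq3 _
  congr 1
  exact Fr_move hq3 (fun i hi => by simp [hi]) (fun _ _ => rfl)

/-- a ring of the left part. -/
theorem lRing_eq (y : K) (k : ℤ) (ka : ℕ → ℤ) (hka : ∀ i, i < N → ka i ≠ k) (G : Pat Lab → K)
    (q : Pat (NUF.St N)) :
    lRing y N k G (Fr ka (fun _ => k - 1) (2 * k + (N : ℤ) % 2) N q) =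
      NUG.ringF (wA y N) cc dd (((List.finRange N).map Xl).reverse)
        (fun q => G (Fr ka (fun _ => k) 0 0 q)) q := by
  unfold lRing
  rw [Module.End.mul_apply, Module.End.mul_apply]
  have h1 := UO_Fr ka (fun _ => k - 1) (2 * k + (N : ℤ) % 2) N
    (((List.range N).reverse.map (fun i : ℕ => lCell y k (i : ℤ))).prod (Co (lX 1) (vt (2 * k) 0) G)) q
  rw [h1]
  unfold NUG.ringF
  congr 1
  funext q1
  have h2 := rows_left y k ka hka (Co (lX 1) (vt (2 * k) 0) G) N le_rfl q1
  have h3 : (List.finRange N).take N = List.finRange N := by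
    apply List.take_of_length_le
    rw [List.length_finRange]
  rw [h3] at h2
  have e : Fr ka (fun n => if n < N then k - 1 else k) (2 * k + (N : ℤ) % 2) (N : ℤ) q1 =
      Fr ka (fun _ => k - 1) (2 * k + (N : ℤ) % 2) N q1 := by
    unfold Fr
    apply lft_congr
    intro b _
    rcases b with ⟨i, _ | _⟩ | l
    · rfl
    · simp only [fr, i.2, if_true]
    · rfl
  rw [e] at h2
  rw [h2]
  congr 1
  funext q2
  have h4 := Co_Fr ka (fun n => if n < 0 then k - 1 else k) (2 * k) 0 G q2
  rw [h4]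
  apply congrFun
  apply glue_congr (by simp)
  intro q3 hq3 _
  congr 1
  exact Fr_move hq3 (fun _ _ => rfl) (fun i hi => by simp)

/-! ### all rings -/

/-- the right part: the rings `m - 1, .., 0`. -/
noncomputable def rTot (y : K) (N : ℕ) : ℕ → Op Lab K
  | 0 => 1
  | m + 1 => rRing y N m * rTot y N m

/-- the left part: the rings `-m, .., -1`. -/
noncomputable def lTot (y : K) (N : ℕ) : ℕ → Op Lab K
  | 0 => 1
  | m + 1 => lRing y N (-(m : ℤ) - 1) * lTot y N m

theorem rTot_eq (y : K) (m : ℕ) (kb : ℕ → ℤ) (hkb : ∀ i, kb i < 0) (G : Pat Lab → K) :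
    ∀ q : Pat (NUF.St N), q cc = cc → rTot y N m G (Fr (fun _ => (m : ℤ)) kb 0 0 q) =
      (NUG.ringF (wA y N) cc dd ((List.finRange N).map Xr))^[m]
        (fun q => G (Fr (fun _ => 0) kb 0 0 q)) q := by
  induction m with
  | zero => intro q _; rfl
  | succ m ih =>
    intro q hq
    have e : Fr (fun _ : ℕ => ((m + 1 : ℕ) : ℤ)) kb 0 0 q =
        Fr (fun _ => (m : ℤ) + 1) kb (2 * m) (-1) q :=
      Fr_move hq (fun _ _ => by push_cast; rfl) (fun _ _ => rfl)
    have e2 : rTot y N (m + 1) = rRing y N m * rTot y N m := rfl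
    rw [e, e2, Module.End.mul_apply, rRing_eq y (m : ℤ) kb (fun i _ => by
      have := hkb i
      omega) _ q, Function.iterate_succ_apply']
    exact congrFun (NUNC.ring_congr (by simp) ih) q

theorem lTot_eq (y : K) (m : ℕ) (G : Pat Lab → K) :
    ∀ q : Pat (NUF.St N), q cc = cc →
      lTot y N m G (Fr (fun _ => 0) (fun _ => -(m : ℤ) - 1) 0 0 q) =
      (NUG.ringF (wA y N) cc dd (((List.finRange N).map Xl).reverse))^[m]
        (fun q => G (Fr (fun _ => 0) (fun _ => -1) 0 0 q)) q := by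
  induction m with
  | zero => intro q _; rfl
  | succ m ih =>
    intro q hq
    have e : Fr (fun _ => 0) (fun _ : ℕ => -((m + 1 : ℕ) : ℤ) - 1) 0 0 q =
        Fr (fun _ => 0) (fun _ => (-(m : ℤ) - 1) - 1) (2 * (-(m : ℤ) - 1) + (N : ℤ) % 2) N q :=
      Fr_move hq (fun _ _ => rfl) (fun _ _ => by push_cast; ring)
    have e2 : lTot y N (m + 1) = lRing y N (-(m : ℤ) - 1) * lTot y N m := rfl
    rw [e, e2, Module.End.mul_apply, lRing_eq y (-(m : ℤ) - 1) (fun _ => 0) (fun i _ => by omega) _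
      q, Function.iterate_succ_apply']
    exact congrFun (NUNC.ring_congr (by simp) ih) q

/-- **The network in ring order.** -/
theorem tot_eq (y : K) (N n m : ℕ) (G : Pat Lab → K) :
    (rTot y N n * lTot y N m) G Pat.empty =
      (NUG.ringF (wA y N) cc dd ((List.finRange N).map Xr))^[n]
        ((NUG.ringF (wA y N) cc dd (((List.finRange N).map Xl).reverse))^[m]
          (fun q => G (Fr (fun _ => 0) (fun _ => -1) 0 0 q))) Pat.empty := by
  have e0 : (Pat.empty : Pat (NUF.St N)) cc = cc := rfl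
  rw [Module.End.mul_apply, ← Fr_empty (N := N) (fun _ => (n : ℤ)) (fun _ => -(m : ℤ) - 1) 0 0,
    rTot_eq y n (fun _ => -(m : ℤ) - 1) (fun i => by omega) _ _ e0]
  exact NUNC.ringI_congr (by simp) (lTot_eq y m G) n _ e0

end Pool.Agent.MXR
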