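import Pool.Agent.MXR.MajG
import Pool.Agent.MXR.Hex
import Pool.Agent.MXR.Arc

/-!
# The majorant of the rings with alternating rows (module M3 of nu34/22a)
-/

set_option autoImplicit false

namespace Pool.Agent.MXR

open Pool.Agent.EXL hiding cc
open Pool.Agent.EXL.Pat HexObs HexObs.LP
open Pool.Agent.NUF
open Pool.Agent.NUN (cc Xr Xl)
open Pool.Agent.NUNC (dd)
open Pool.Agent.UNI.Mv (WP)

variable {L : ℕ} {hL : 1 ≤ L}

/-! ### the arc of the rows 0 and 2 -/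

/-- The bounded arcs (module M2 of nu34/22a): the arc between the rows `0` and `2` on both sides of the cut. -/
def ArcBd (L : ℕ) (hL : 1 ≤ L) (B : ℝ) : Prop :=
  ∀ n, 1 ≤ n →
    (Cv L hL).Ws xc (Dm L n 0) {(V (-1) 2, dR (-1) 2)} (V (-1) 0, dR (-1) 0) ≤ B ∧
    (Cv L hL).Ws xc (Dm L 0 n) {(V 0 2, dL 0 2)} (V 0 0, dL 0 0) ≤ B

/-- **The arcs are bounded** (helper47's MXR/Arc). -/
theorem arc_both (h2 : 2 ≤ L) : ArcBd L hL (1 / Real.cos (3 * Real.pi / 8)) := fun n hn =>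
  ⟨arc_bd h2 n hn, arc_bd' h2 n hn⟩

section inst

theorem majW_R (h2 : 2 ≤ L) : MajW (wA xc (2 * L)) cc dd (XR (2 * L)) := by
  have h02 : (⟨0, by omega⟩ : Fin (2 * L)) ≠ ⟨2, by omega⟩ := by
    rw [Ne, Fin.mk.injEq]
    omega
  refine majW_of_arc (wA_WP xc_pos _) (nodup_XR _) (cc_ne_dd _) (cc_XR _) (dd_XR _)
    (a := Xr ⟨0, by omega⟩) (b := Xr ⟨2, by omega⟩) (Xr_mem _) (Xr_mem _) ?_
    (B := 1 / Real.cos (3 * Real.pi / 8)) fun n hn => ?_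
  · intro e
    unfold Xr at e
    simp at e
  · rw [arc_right (by omega) xc h02 n]
    exact (arc_both (hL := by omega) h2 n hn).1

theorem majW_L (h2 : 2 ≤ L) : MajW (wA xc (2 * L)) cc dd (XL (2 * L)) := by
  have h02 : (⟨0, by omega⟩ : Fin (2 * L)) ≠ ⟨2, by omega⟩ := by
    rw [Ne, Fin.mk.injEq]
    omega
  refine majW_of_arc (wA_WP xc_pos _) (nodup_XL _) (cc_ne_dd _) (cc_XL _) (dd_XL _)
    (a := Xl ⟨0, by omega⟩) (b := Xl ⟨2, by omega⟩) (Xl_mem _) (Xl_mem _) ?_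
    (B := 1 / Real.cos (3 * Real.pi / 8)) fun n hn => ?_
  · intro e
    unfold Xl at e
    simp at e
  · rw [arc_left (by omega) xc h02 n]
    exact (arc_both (hL := by omega) h2 n hn).2

/-- **Regularity of the right ring.** -/
theorem regR_R (h2 : 2 ≤ L) : NUT2.RegR cc dd (z0 (2 * L)) (XR (2 * L)) :=
  (majW_R h2).regR (wA_WP xc_pos _) (fun s _ => z0_wt s) (cc_ne_dd _) (cc_XR _)

/-- **Regularity of the left ring.** -/
theorem regR_L (h2 : 2 ≤ L) : NUT2.RegR cc dd (z0 (2 * L)) (XL (2 * L)) :=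
  (majW_L h2).regR (wA_WP xc_pos _) (fun s _ => z0_wt s) (cc_ne_dd _) (cc_XL _)

theorem isF_R (h2 : 2 ≤ L) :
    IsF (wA xc (2 * L)) cc dd (XR (2 * L)) (NUT2.VR cc dd (z0 (2 * L)) (XR (2 * L))) :=
  isF_VR (wA_WP xc_pos _) (majW_R h2) (fun s _ => z0_wt s) (nodup_XR _) (cc_ne_dd _) (cc_XR _) (dd_XR _)

theorem isF_L (h2 : 2 ≤ L) :
    IsF (wA xc (2 * L)) cc dd (XL (2 * L)) (NUT2.VR cc dd (z0 (2 * L)) (XL (2 * L))) :=
  isF_VR (wA_WP xc_pos _) (majW_L h2) (fun s _ => z0_wt s) (nodup_XL _) (cc_ne_dd _) (cc_XL _) (dd_XL _)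

/-- Positivity of the functional of the right ring. -/
theorem posC_R (h2 : 2 ≤ L) :
    NUG.PosC (NUT2.VR cc dd (z0 (2 * L)) (XR (2 * L))) :=
  (isF_R h2).posC (wA_WP xc_pos _) (majW_R h2) (nodup_XR _) (cc_ne_dd _) (cc_XR _) (dd_XR _)

/-- Positivity of the functional of the left ring. -/
theorem posC_L (h2 : 2 ≤ L) :
    NUG.PosC (NUT2.VR cc dd (z0 (2 * L)) (XL (2 * L))) :=
  (isF_L h2).posC (wA_WP xc_pos _) (majW_L h2) (nodup_XL _) (cc_ne_dd _) (cc_XL _) (dd_XL _)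

theorem XR_disj (N : ℕ) : ∀ x ∈ XR N, x ∉ XL N := by
  intro x hx
  obtain ⟨a, -, rfl⟩ := List.mem_map.1 hx
  exact Xr_notMem a

/-- **The pairing of the two functionals dominates the finite cylinders.** -/
theorem rings_le (h2 : 2 ≤ L) {F : Pat (NUF.St (2 * L)) → ℝ}
    (hF : ∀ p, 0 ≤ F p) (n m : ℕ) :
    (NUG.ringF (wA xc (2 * L)) cc dd (XR (2 * L)))^[n]
        ((NUG.ringF (wA xc (2 * L)) cc dd (XL (2 * L)))^[m] F) Pat.empty ≤
      (NUT2.VR cc dd (z0 (2 * L)) (XR (2 * L)) fun p => NUT2.VR cc dd (z0 (2 * L)) (XL (2 * L)) fun q =>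
        (F (un p q) : ℂ)).re :=
  pair_le (wA_WP xc_pos _) (wA_WP xc_pos _) (nodup_XR _) (nodup_XL _) (XR_disj _) (cc_ne_dd _) (cc_XR _)
    (dd_XR _) (cc_XL _) (dd_XL _) (majW_R h2) (majW_L h2) (isF_R h2) (isF_L h2) hF n m

end inst

end Pool.Agent.MXR
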