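import Pool.Agent.MXR.Main
import Pool.Agent.MXR.Maj
import Pool.Agent.NU5.Final2

/-!
# U2, final form: the generating function of `CW (-1, 0) k` is bounded by `NU5.Wk k`

`gf_le_Wk`: for `k` odd, `3 ≤ k`: `gf (CW (-1, 0) k) ≤ ofReal (NU5.Wk k).re`.
-/

set_option autoImplicit false

namespace Pool.Agent.MXR

open Pool.Agent.EXL hiding cc
open Pool.Agent.EXL.Pat Pool.Agent.EXL.Net
open Pool.Agent.NUN (cc Xr Xl)
open Pool.Agent.NUNC (dd)
open HexObs (xc)

theorem zk_eq (n : ℕ) : NU5.zk n = z0 n := by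
  funext s
  rcases s with ⟨i, b⟩ | s
  · show (if i.val % 2 = 0 then (0 : ℂ) else -Fm.lam) = if ((i : ℕ) : ℤ) % 2 = 1 then -Fm.lam else 0
    by_cases h : i.val % 2 = 0
    · rw [if_pos h, if_neg (by omega)]
    · rw [if_neg h, if_pos (by omega)]
  · rfl

theorem XR_eq (n : ℕ) : (List.finRange n).map NU5.xr = XR n := rfl

theorem XL_eq (n : ℕ) : ((List.finRange n).map NU5.xl).reverse = XL n := rfl

theorem rows_IJ {k : ℕ} (hk : 1 ≤ k) :
    NU5.Ik k = prs (rowI k) ∧ NU5.Jk k = prs (rowJ k) := by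
  have h1 := (rows_fin hk).symm.trans (NU5.finRange_split hk)
  rw [List.cons.injEq] at h1
  have h2 : (rowJ k).length = (((List.finRange (2 * k)).drop 1).take (k - 1)).length := by
    unfold rowJ
    simp
    omega
  have h3 := List.append_inj h1.2 h2
  rw [List.cons.injEq] at h3
  constructor
  · unfold NU5.Ik prs
    rw [← h3.2.2]
    rfl
  · unfold NU5.Jk prs
    rw [← h3.1]
    rfl

/-- **The two definitions of the two-point function agree.** -/
theorem Wk_eq_W {k : ℕ} (hk : 1 ≤ k) : NU5.Wk k hk = W hk := by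
  unfold NU5.Wk W
  rw [(rows_IJ hk).1, (rows_IJ hk).2, zk_eq]
  rfl

variable {k : ℕ}

/-- Regularity of the right rows. -/
theorem regR_k (h2 : 2 ≤ k) : NUT2.RegR (Sum.inr 0) (Sum.inr 1) (NU5.zk (2 * k))
    ((List.finRange (2 * k)).map NU5.xr) := by
  rw [zk_eq]
  exact regR_R h2

/-- Regularity of the left rows. -/
theorem regL_k (h2 : 2 ≤ k) : NUT2.RegR (Sum.inr 0) (Sum.inr 1) (NU5.zk (2 * k))
    ((List.finRange (2 * k)).map NU5.xl).reverse := by
  rw [zk_eq]
  exact regR_L h2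

/-- `Wk k` is a non-negative real number. -/
theorem Wk_nn (hk : 1 ≤ k) (h2 : 2 ≤ k) : ∃ r : ℝ, 0 ≤ r ∧ NU5.Wk k hk = r := by
  rw [Wk_eq_W]
  exact W_nn hk (majW_R h2) (majW_L h2)

/-- **U2.** The critical generating function of the half space words of height `k` is bounded by the two-point
function of the vertical cylinder with `2 k` rows. -/
theorem gf_le_Wk (hk : 1 ≤ k) (ho : k % 2 = 1) (h2 : 2 ≤ k) :
    HexObs.gf (HexObs.BAR.CW (-1, 0) k) ≤ ENNReal.ofReal (NU5.Wk k hk).re := by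
  rw [Wk_eq_W]
  exact gf_le_of_maj ho hk (majW_R h2) (majW_L h2)

/-- The same with the norm. -/
theorem gf_le_norm (hk : 1 ≤ k) (ho : k % 2 = 1) (h2 : 2 ≤ k) :
    HexObs.gf (HexObs.BAR.CW (-1, 0) k) ≤ ENNReal.ofReal ‖NU5.Wk k hk‖ :=
  (gf_le_Wk hk ho h2).trans (ENNReal.ofReal_le_ofReal ((le_abs_self _).trans (Complex.abs_re_le_norm _)))

end Pool.Agent.MXR
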