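import Pool.Agent.MXR.Main
import Pool.Agent.MXR.Maj

/-!
# The bound of the generating function of `CW (-1, 0) k`, without hypotheses (U2 of TARGET-C)
-/

set_option autoImplicit false

namespace Pool.Agent.MXR

open Pool.Agent.NUN (cc)
open Pool.Agent.NUNC (dd)
open scoped ENNReal

/-- **The generating function of the words of height `k` is bounded by the two-point function**
(`k` odd, `k ≥ 3`). -/
theorem gf_le_W {k : ℕ} (hk : k % 2 = 1) (hk1 : 1 ≤ k) (hk3 : 3 ≤ k) :
    HexObs.gf (HexObs.BAR.CW (-1, 0) k) ≤ ENNReal.ofReal (W hk1).re :=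
  gf_le_of_maj hk hk1 (majW_R (by omega)) (majW_L (by omega))

/-- The ring functionals of both halves exist and are unique. -/
theorem regR_W {k : ℕ} (hk3 : 3 ≤ k) : NUT2.RegR cc dd (z0 (2 * k)) (XR (2 * k)) ∧
    NUT2.RegR cc dd (z0 (2 * k)) (XL (2 * k)) := ⟨regR_R (by omega), regR_L (by omega)⟩

end Pool.Agent.MXR
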