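import Pool.Agent.MXR.Front
import Pool.Agent.EXL.NetTot

/-!
# The rings with alternating rows, sorted (module M1 of nu34/22a)

The network of the rings `n - 1, .., 0` and `-m, .., -1` is the product of the vertex operators of the vertices and
the contractions of the edges of the vertical cylinder.
-/

set_option autoImplicit false

namespace Pool.Agent.MXR

open Pool.Agent.EXL hiding cc
open Pool.Agent.EXL.Pat Pool.Agent.EXL.Net HexObs HexObs.LP
open Pool.Agent.NUF.Cyl (UO PO PL seam UO_apply PO_apply UO_Crv_comm PO_Crv_comm PO_Co_comm PO_comm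
  commute_list_map Nm lX_hf)

variable {K : Type*} [CommRing K]

/-! ### sorting -/

theorem prod_sort {M ι : Type*} [Monoid M] (v c : ι → M) : ∀ l : List ι,
    l.Pairwise (fun a b => Commute (c a) (v b)) →
    (l.map (fun a => v a * c a)).prod = (l.map v).prod * (l.map c).prod
  | [], _ => by simp
  | a :: l, h => by
    rw [List.pairwise_cons] at h
    have h1 := prod_sort v c l h.2
    have h2 : Commute (c a) (l.map v).prod := commute_list_map h.1
    rw [List.map_cons, List.prod_cons, h1, List.map_cons, List.prod_cons, List.map_cons, List.prod_cons]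
    calc _ = v a * (c a * (l.map v).prod) * (l.map c).prod := by simp only [mul_assoc]
      _ = _ := by
        rw [h2.eq]
        simp only [mul_assoc]

theorem prod_sort3 {M ι : Type*} [Monoid M] (p v c : ι → M) : ∀ l : List ι,
    l.Pairwise (fun a b => Commute (c a) (v b)) → (∀ a ∈ l, ∀ b ∈ l, Commute (p a) (v b)) →
    (∀ a ∈ l, ∀ b ∈ l, Commute (p a) (c b)) →
    (l.map (fun a => p a * v a * c a)).prod = (l.map p).prod * ((l.map v).prod * (l.map c).prod)
  | [], _, _, _ => by simp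
  | a :: l, h, h2, h3 => by
    rw [List.pairwise_cons] at h
    have h1 := prod_sort3 p v c l h.2 (fun a ha b hb => h2 a (by simp [ha]) b (by simp [hb]))
      (fun a ha b hb => h3 a (by simp [ha]) b (by simp [hb]))
    have k1 : Commute (c a) (l.map v).prod := commute_list_map h.1
    have k2 : Commute (c a) (l.map p).prod :=
      commute_list_map (fun b hb => (h3 b (by simp [hb]) a (by simp)).symm)
    have k3 : Commute (v a) (l.map p).prod :=
      commute_list_map (fun b hb => (h2 b (by simp [hb]) a (by simp)).symm)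
    rw [List.map_cons, List.prod_cons, h1, List.map_cons, List.prod_cons, List.map_cons, List.prod_cons,
      List.map_cons, List.prod_cons]
    generalize (l.map v).prod = V' at k1 ⊢
    generalize (l.map c).prod = C'
    generalize (l.map p).prod = P' at k2 k3 ⊢
    calc _ = p a * v a * (c a * P') * V' * C' := by simp only [mul_assoc]
      _ = p a * (v a * P') * (c a * V') * C' := by
        rw [k2.eq]
        simp only [mul_assoc]
      _ = _ := by
        rw [k1.eq, k3.eq]
        simp only [mul_assoc]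

theorem prod_flatMap' {M ι κ : Type*} [Monoid M] (f : ι → List κ) (g : κ → M) (l : List ι) :
    ((l.flatMap f).map g).prod = (l.map (fun a => ((f a).map g).prod)).prod := by
  induction l with
  | nil => rfl
  | cons a l ih => rw [List.flatMap_cons, List.map_append, List.prod_append, ih, List.map_cons, List.prod_cons]

/-! ### items -/

/-- the half edge of an item. -/
def he : ℤ × ℤ × Bool → Pt × Pt
  | (x, i, true) => (V x i, dU x i)
  | (x, i, false) => (V x i, dR x i)

theorem he_true (x i : ℤ) : he (x, i, true) = (V x i, dU x i) := rfl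

theorem he_false (x i : ℤ) : he (x, i, false) = (V x i, dR x i) := rfl

/-- the items of the contractions of a cell of the right part. -/
def rH (k i : ℤ) : List (ℤ × ℤ × Bool) := [(2 * k + i % 2, i, true), (2 * k + 1, i, false), (2 * k, i, false)]

/-- the items of the contractions of a cell of the left part. -/
def lH (k i : ℤ) : List (ℤ × ℤ × Bool) :=
  [(2 * k + (i + 1) % 2, i, true), (2 * k - 1, i, false), (2 * k, i, false)]

/-- the vertices of a cell. -/
def pV (k i : ℤ) : List (ℤ × ℤ) := [(2 * k, i), (2 * k + 1, i)]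

theorem ed_true (x i : ℤ) : Net.ed (he (x, i, true)) = s(vt x i, vt x (io x i)) := by
  rw [he_true]
  unfold Net.ed rv
  simp only
  rw [V_dU, neg_dU]
  rfl

theorem ed_false (x i : ℤ) : Net.ed (he (x, i, false)) = s(rt x i, lf (x + 1) i) := by
  rw [he_false]
  unfold Net.ed rv
  simp only
  rw [V_dR, neg_dR]
  rfl

theorem Ced_true {L : ℕ} {hL : 1 ≤ L} (x i : ℤ) :
    (Cv L hL).ed (he (x, i, true)) = s(vt x i, vt x (io x i % (2 * L))) := by
  rw [he_true]
  unfold Nm.ed
  rw [rv_U]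
  rfl

theorem Ced_false {L : ℕ} {hL : 1 ≤ L} {x i : ℤ} (h1 : 0 ≤ i) (h2 : i < 2 * L) :
    (Cv L hL).ed (he (x, i, false)) = s(rt x i, lf (x + 1) i) := by
  rw [he_false]
  unfold Nm.ed
  rw [rv_R h1 h2]
  rfl

theorem io_right (k i : ℤ) : io (2 * k + i % 2) i = i - 1 := by
  unfold io
  rw [if_pos (by omega)]

theorem io_left (k i : ℤ) : io (2 * k + (i + 1) % 2) i = i + 1 := by
  unfold io
  rw [if_neg (by omega)]

/-- the vertex operator of a pair of coordinates. -/
def vO (K : Type*) [CommRing K] (y : K) (w : ℤ × ℤ) : Op Lab K := Crv y (V w.1 w.2)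

theorem rCell_list (y : K) (k i : ℤ) : rCell y k i = ((pV k i).map (vO K y)).prod *
    ((rH k i).map (fun t => (CoS (Net.ed (he t)) : Op Lab K))).prod := by
  unfold rCell pV rH
  simp only [List.map_cons, List.map_nil, List.prod_cons, List.prod_nil, mul_one]
  rw [ed_true, ed_false, ed_false, io_right]
  have e1 : (CoS s(vt (2 * k + i % 2) i, vt (2 * k + i % 2) (i - 1)) : Op Lab K) =
      Co (vt (2 * k + i % 2) (i - 1)) (vt (2 * k + i % 2) i) := Co_symm _ _
  have e2 : (CoS s(rt (2 * k + 1) i, lf (2 * k + 1 + 1) i) : Op Lab K) =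
      Co (lf (2 * (k + 1)) i) (rt (2 * k + 1) i) := by
    have : 2 * k + 1 + 1 = 2 * (k + 1) := by ring
    rw [this]
    exact Co_symm _ _
  rw [e1, e2]
  simp only [mul_assoc]
  rfl

theorem lCell_list (y : K) (k i : ℤ) : lCell y k i = ((pV k i).map (vO K y)).prod *
    ((lH k i).map (fun t => (CoS (Net.ed (he t)) : Op Lab K))).prod := by
  unfold lCell pV lH
  simp only [List.map_cons, List.map_nil, List.prod_cons, List.prod_nil, mul_one]
  rw [ed_true, ed_false, ed_false, io_left]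
  have e1 : (CoS s(vt (2 * k + (i + 1) % 2) i, vt (2 * k + (i + 1) % 2) (i + 1)) : Op Lab K) =
      Co (vt (2 * k + (i + 1) % 2) (i + 1)) (vt (2 * k + (i + 1) % 2) i) := Co_symm _ _
  have e2 : (CoS s(rt (2 * k - 1) i, lf (2 * k - 1 + 1) i) : Op Lab K) =
      Co (rt (2 * (k - 1) + 1) i) (lf (2 * k) i) := by
    have : 2 * k - 1 + 1 = 2 * k := by ring
    rw [this]
    have : 2 * (k - 1) + 1 = 2 * k - 1 := by ring
    rw [this]
    rfl
  rw [e1, e2]
  simp only [mul_assoc]
  rfl

/-- the ends of an item. -/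
def Ends (t : ℤ × ℤ × Bool) (P : ℤ → ℤ → Prop) : Prop :=
  P t.1 t.2.1 ∧ P (if t.2.2 then t.1 else t.1 + 1) (if t.2.2 then io t.1 t.2.1 else t.2.1)

/-- the contraction of an item commutes with the other vertices. -/
theorem CoS_vO (y : K) {t : ℤ × ℤ × Bool} {w : ℤ × ℤ} (h : Ends t (fun x i => (x, i) ≠ w)) :
    Commute (CoS (Net.ed (he t)) : Op Lab K) (vO K y w) := by
  obtain ⟨x, i, b⟩ := t
  obtain ⟨h1, h2⟩ := h
  have key : ∀ {a c : ℤ}, (a, c) ≠ w → V a c ≠ V w.1 w.2 := by
    intro a c h e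
    rw [V_inj] at e
    exact h (Prod.ext e.1 e.2)
  cases b
  · rw [ed_false]
    exact (Crv_Co_comm y (h := (V x i, dR x i)) (k := (V (x + 1) i, dL (x + 1) i)) (key h1)
      (key h2)).symm
  · rw [ed_true]
    exact (Crv_Co_comm y (h := (V x i, dU x i)) (k := (V x (io x i), dU x (io x i))) (key h1)
      (key h2)).symm

/-- the same on the cylinder. -/
theorem CoS_vO' {L : ℕ} {hL : 1 ≤ L} (y : K) {t : ℤ × ℤ × Bool} {w : ℤ × ℤ} (h0 : 0 ≤ t.2.1)
    (h0' : t.2.1 < 2 * L) (h : t.1 ≠ w.1) (h' : t.2.2 = false → t.1 + 1 ≠ w.1) :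
    Commute (CoS ((Cv L hL).ed (he t)) : Op Lab K) (vO K y w) := by
  obtain ⟨x, i, b⟩ := t
  have key : ∀ {a c : ℤ}, a ≠ w.1 → V a c ≠ V w.1 w.2 := by
    intro a c h e
    rw [V_inj] at e
    exact h e.1
  cases b
  · rw [Ced_false h0 h0']
    exact (Crv_Co_comm y (h := (V x i, dR x i)) (k := (V (x + 1) i, dL (x + 1) i)) (key h)
      (key (h' rfl))).symm
  · rw [Ced_true]
    exact (Crv_Co_comm y (h := (V x i, dU x i))
      (k := (V x (io x i % (2 * L)), dU x (io x i % (2 * L)))) (key h) (key h)).symm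

/-! ### the rows of a ring -/

/-- vertices of a ring. -/
def rV (N : ℕ) (k : ℤ) : List (ℤ × ℤ) := (List.range N).flatMap (fun i : ℕ => pV k i)

def lV (N : ℕ) (k : ℤ) : List (ℤ × ℤ) := (List.range N).reverse.flatMap (fun i : ℕ => pV k i)

/-- items of a ring. -/
def rHs (N : ℕ) (k : ℤ) : List (ℤ × ℤ × Bool) := (List.range N).flatMap (fun i : ℕ => rH k i)

def lHs (N : ℕ) (k : ℤ) : List (ℤ × ℤ × Bool) := (List.range N).reverse.flatMap (fun i : ℕ => lH k i)

theorem mem_rV {N : ℕ} {k : ℤ} {w : ℤ × ℤ} : w ∈ rV N k ↔ ∃ i : ℕ, i < N ∧ w ∈ pV k i := by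
  unfold rV
  simp [List.mem_flatMap]

theorem mem_lV {N : ℕ} {k : ℤ} {w : ℤ × ℤ} : w ∈ lV N k ↔ ∃ i : ℕ, i < N ∧ w ∈ pV k i := by
  unfold lV
  simp [List.mem_flatMap]

theorem mem_rHs {N : ℕ} {k : ℤ} {t : ℤ × ℤ × Bool} : t ∈ rHs N k ↔ ∃ i : ℕ, i < N ∧ t ∈ rH k i := by
  unfold rHs
  simp [List.mem_flatMap]

theorem mem_lHs {N : ℕ} {k : ℤ} {t : ℤ × ℤ × Bool} : t ∈ lHs N k ↔ ∃ i : ℕ, i < N ∧ t ∈ lH k i := by
  unfold lHs
  simp [List.mem_flatMap]

theorem mem_pV {k i : ℤ} {w : ℤ × ℤ} : w ∈ pV k i ↔ w = (2 * k, i) ∨ w = (2 * k + 1, i) := by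
  simp [pV]

theorem mem_rH {k i : ℤ} {t : ℤ × ℤ × Bool} : t ∈ rH k i ↔
    t = (2 * k + i % 2, i, true) ∨ t = (2 * k + 1, i, false) ∨ t = (2 * k, i, false) := by
  simp [rH]

theorem mem_lH {k i : ℤ} {t : ℤ × ℤ × Bool} : t ∈ lH k i ↔
    t = (2 * k + (i + 1) % 2, i, true) ∨ t = (2 * k - 1, i, false) ∨ t = (2 * k, i, false) := by
  simp [lH]

theorem rrows_sort (y : K) (N : ℕ) (k : ℤ) :
    ((List.range N).map (fun i : ℕ => rCell y k (i : ℤ))).prod = ((rV N k).map (vO K y)).prod *
      ((rHs N k).map (fun t => (CoS (Net.ed (he t)) : Op Lab K))).prod := by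
  unfold rV rHs
  rw [prod_flatMap', prod_flatMap']
  simp only [rCell_list]
  apply prod_sort
  refine List.pairwise_lt_range.imp fun {a b} hab => ?_
  refine (commute_list_map (X := ((rH k a).map (fun t => (CoS (Net.ed (he t)) : Op Lab K))).prod)
    fun w hw => (commute_list_map fun t ht => ?_).symm)
  refine (CoS_vO y ?_).symm
  rw [mem_pV] at hw
  rw [mem_rH] at ht
  unfold Ends
  rcases ht with rfl | rfl | rfl
  · simp only [if_true, io_right]
    rcases hw with rfl | rfl <;> simp only [ne_eq, Prod.mk.injEq] <;> omega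
  · simp only [if_false, Bool.false_eq_true]
    rcases hw with rfl | rfl <;> simp only [ne_eq, Prod.mk.injEq] <;> omega
  · simp only [if_false, Bool.false_eq_true]
    rcases hw with rfl | rfl <;> simp only [ne_eq, Prod.mk.injEq] <;> omega

theorem lrows_sort (y : K) (N : ℕ) (k : ℤ) :
    ((List.range N).reverse.map (fun i : ℕ => lCell y k (i : ℤ))).prod = ((lV N k).map (vO K y)).prod *
      ((lHs N k).map (fun t => (CoS (Net.ed (he t)) : Op Lab K))).prod := by
  unfold lV lHs
  rw [prod_flatMap', prod_flatMap']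
  simp only [lCell_list]
  apply prod_sort
  rw [List.pairwise_reverse]
  refine List.pairwise_lt_range.imp fun {a b} hab => ?_
  refine (commute_list_map (X := ((lH k b).map (fun t => (CoS (Net.ed (he t)) : Op Lab K))).prod)
    fun w hw => (commute_list_map fun t ht => ?_).symm)
  refine (CoS_vO y ?_).symm
  rw [mem_pV] at hw
  rw [mem_lH] at ht
  unfold Ends
  rcases ht with rfl | rfl | rfl
  · simp only [if_true, io_left]
    rcases hw with rfl | rfl <;> simp only [ne_eq, Prod.mk.injEq] <;> omega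
  · simp only [if_false, Bool.false_eq_true]
    rcases hw with rfl | rfl <;> simp only [ne_eq, Prod.mk.injEq] <;> omega
  · simp only [if_false, Bool.false_eq_true]
    rcases hw with rfl | rfl <;> simp only [ne_eq, Prod.mk.injEq] <;> omega

/-! ### the seam -/

theorem rHs_cons {N : ℕ} (hN : 1 ≤ N) (k : ℤ) : ∃ HR : List (ℤ × ℤ × Bool),
    rHs N k = (2 * k, 0, true) :: HR ∧
    ∀ t ∈ HR, 0 ≤ t.2.1 ∧ t.2.1 < N ∧ (t.2.2 = true → 1 ≤ t.2.1 ∧ io t.1 t.2.1 = t.2.1 - 1) := by
  obtain ⟨M, rfl⟩ : ∃ M, N = M + 1 := ⟨N - 1, by omega⟩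
  refine ⟨(2 * k + 1, 0, false) :: (2 * k, 0, false) ::
    ((List.range M).map Nat.succ).flatMap (fun i : ℕ => rH k i), ?_, ?_⟩
  · unfold rHs
    rw [List.range_succ_eq_map, List.flatMap_cons]
    unfold rH
    simp
  · intro t ht
    simp only [List.mem_cons, List.mem_flatMap, List.mem_map, List.mem_range] at ht
    rcases ht with rfl | rfl | ⟨i, ⟨a, ha, rfl⟩, ht⟩
    · exact ⟨le_rfl, by push_cast; omega, fun h => by simp at h⟩
    · exact ⟨le_rfl, by push_cast; omega, fun h => by simp at h⟩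
    · rw [mem_rH] at ht
      rcases ht with rfl | rfl | rfl
      · exact ⟨by positivity, by push_cast; omega, fun _ => ⟨by push_cast; omega, io_right _ _⟩⟩
      · exact ⟨by positivity, by push_cast; omega, fun h => by simp at h⟩
      · exact ⟨by positivity, by push_cast; omega, fun h => by simp at h⟩

theorem lHs_cons {N : ℕ} (hN : 1 ≤ N) (hN' : N % 2 = 0) (k : ℤ) : ∃ HR : List (ℤ × ℤ × Bool),
    lHs N k = (2 * k, (N : ℤ) - 1, true) :: HR ∧
    ∀ t ∈ HR, 0 ≤ t.2.1 ∧ t.2.1 < N ∧ (t.2.2 = true → t.2.1 < N - 1 ∧ io t.1 t.2.1 = t.2.1 + 1) := by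
  obtain ⟨M, rfl⟩ : ∃ M, N = M + 1 := ⟨N - 1, by omega⟩
  refine ⟨(2 * k - 1, M, false) :: (2 * k, M, false) ::
    (List.range M).reverse.flatMap (fun i : ℕ => lH k i), ?_, ?_⟩
  · unfold lHs
    rw [List.range_succ, List.reverse_append, List.flatMap_append]
    have h1 : ((M + 1 : ℕ) : ℤ) - 1 = M := by push_cast; ring
    have h2 : ((M : ℤ) + 1) % 2 = 0 := by omega
    rw [h1]
    simp only [List.reverse_cons, List.reverse_nil, List.nil_append, List.flatMap_cons, List.flatMap_nil,
      List.append_nil]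
    unfold lH
    rw [h2]
    simp
  · intro t ht
    simp only [List.mem_cons, List.mem_flatMap, List.mem_reverse, List.mem_range] at ht
    rcases ht with rfl | rfl | ⟨i, hi, ht⟩
    · exact ⟨by positivity, by push_cast; omega, fun h => by simp at h⟩
    · exact ⟨by positivity, by push_cast; omega, fun h => by simp at h⟩
    · rw [mem_lH] at ht
      rcases ht with rfl | rfl | rfl
      · exact ⟨by positivity, by push_cast; omega, fun _ => ⟨by push_cast; omega, io_left _ _⟩⟩
      · exact ⟨by positivity, by push_cast; omega, fun h => by simp at h⟩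
      · exact ⟨by positivity, by push_cast; omega, fun h => by simp at h⟩

variable {L : ℕ} {hL : 1 ≤ L}

theorem z_eq : lX 1 = hf (V 0 (-1), (((1 : ℕ) : ℤ) + 5, 0)) := by
  have : V 0 (-1) = (0, 0) := by
    simp only [V, Prod.mk.injEq, true_and]
    omega
  rw [this]
  rfl

/-- PO of a label that is not on the cylinder. -/
def Bad (L : ℕ) (a : Lab) : Prop := ∃ (x i : ℤ) (d : Pt), (i < 0 ∨ 2 * (L : ℤ) ≤ i) ∧ a = hf (V x i, d)

theorem bad_z : Bad L (lX 1) := ⟨0, -1, _, Or.inl (by omega), z_eq⟩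

theorem bad_vt {x i : ℤ} (h : i < 0 ∨ 2 * (L : ℤ) ≤ i) : Bad L (vt x i) := ⟨x, i, _, h, rfl⟩

theorem Bad.comm_V {a : Lab} (h : Bad L a) (y : K) {w : ℤ × ℤ} (h1 : 0 ≤ w.2) (h2 : w.2 < 2 * L) :
    Commute (PO a : Op Lab K) (vO K y w) := by
  obtain ⟨x, i, d, h3, rfl⟩ := h
  apply PO_Crv_comm
  rw [Ne, V_inj]
  omega

theorem Bad.comm_H {a : Lab} (h : Bad L a) {t : ℤ × ℤ × Bool} (h1 : 0 ≤ t.2.1) (h2 : t.2.1 < 2 * L) :
    Commute (PO a : Op Lab K) (CoS ((Cv L hL).ed (he t))) := by
  obtain ⟨x, i, d, h3, rfl⟩ := h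
  obtain ⟨x', i', b⟩ := t
  simp only at h1 h2
  have key : ∀ (x' i' : ℤ) (d' : Pt), 0 ≤ i' → i' < 2 * L → (hf (V x i, d) : Lab) ≠ hf (V x' i', d') := by
    intro x' i' d' h1 h2 e
    rw [Sum.inl.injEq, Prod.mk.injEq, V_inj] at e
    omega
  cases b
  · rw [Ced_false h1 h2]
    exact PO_Co_comm (key _ _ _ h1 h2) (key _ _ _ h1 h2)
  · rw [Ced_true]
    exact PO_Co_comm (key _ _ _ h1 h2) (key _ _ _ (Int.emod_nonneg _ (by omega))
      (Int.emod_lt_of_pos _ (by omega)))

theorem UO_V_comm {a b : Lab} (ha : Bad L a) (hb : Bad L b) (y : K) {w : ℤ × ℤ} (h1 : 0 ≤ w.2)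
    (h2 : w.2 < 2 * L) : Commute (UO a b : Op Lab K) (vO K y w) := by
  obtain ⟨x, i, d, h3, rfl⟩ := ha
  obtain ⟨x', i', d', h3', rfl⟩ := hb
  apply UO_Crv_comm
  · simp only
    rw [Ne, V_inj]
    omega
  · simp only
    rw [Ne, V_inj]
    omega

theorem range_mem {N : ℕ} {k : ℤ} {w : ℤ × ℤ} (h : w ∈ rV N k ∨ w ∈ lV N k) : 0 ≤ w.2 ∧ w.2 < N := by
  rw [mem_rV, mem_lV, or_self] at h
  obtain ⟨i, hi, h⟩ := h
  rw [mem_pV] at h
  rcases h with rfl | rfl
  · exact ⟨Int.natCast_nonneg i, Int.ofNat_lt.2 hi⟩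
  · exact ⟨Int.natCast_nonneg i, Int.ofNat_lt.2 hi⟩

/-- the sorted form of a ring of the right part. -/
theorem rRing_sort (y : K) (k : ℤ) : rRing y (2 * L) k =
    (PO (lX 1) * PO (vt (2 * k) (-1))) * ((rV (2 * L) k).map (vO K y)).prod *
      ((rHs (2 * L) k).map (fun t => (CoS ((Cv L hL).ed (he t)) : Op Lab K))).prod := by
  obtain ⟨HR, h1, h2⟩ := rHs_cons (N := 2 * L) (by omega) k
  unfold rRing
  rw [rrows_sort, h1, List.map_cons, List.prod_cons, List.map_cons, List.prod_cons]
  have e1 : (HR.map (fun t => (CoS ((Cv L hL).ed (he t)) : Op Lab K))) =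
      HR.map (fun t => CoS (Net.ed (he t))) := by
    refine List.map_congr_left (fun t ht => ?_)
    obtain ⟨a1, a2, a3⟩ := h2 t ht
    obtain ⟨x, i, b⟩ := t
    simp only at a1 a2 a3
    cases b
    · rw [Ced_false a1 (by push_cast at a2; exact a2), ed_false]
    · obtain ⟨a4, a5⟩ := a3 rfl
      rw [Ced_true, ed_true, a5, Int.emod_eq_of_lt (by omega) (by push_cast at a2; omega)]
  have eN : ((2 * L : ℕ) : ℤ) % 2 = 0 := by omega
  have eN' : ((2 * L : ℕ) : ℤ) = 2 * L := by push_cast; ring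
  have e2 : (CoS (Net.ed (he (2 * k, 0, true))) : Op Lab K) = Co (vt (2 * k) (-1)) (vt (2 * k) 0) := by
    rw [ed_true]
    have : io (2 * k) 0 = -1 := by
      unfold io
      rw [if_pos (by omega)]
      ring
    rw [this]
    exact Co_symm _ _
  have e3 : (CoS ((Cv L hL).ed (he (2 * k, 0, true))) : Op Lab K) =
      Co (vt (2 * k) 0) (vt (2 * k) (2 * (L : ℤ) - 1)) := by
    rw [Ced_true]
    have : io (2 * k) 0 % (2 * (L : ℤ)) = 2 * (L : ℤ) - 1 := by
      unfold io
      rw [if_pos (by omega)]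
      have h := Int.add_mul_emod_self_right (0 - 1) 1 (2 * (L : ℤ))
      rw [← h, Int.emod_eq_of_lt (by omega) (by omega)]
      ring
    rw [this]
    rfl
  rw [e1, e2, e3, eN, eN', add_zero]
  set Vp := ((rV (2 * L) k).map (vO K y)).prod with hV
  set H := (HR.map (fun t => (CoS (Net.ed (he t)) : Op Lab K))).prod with hH
  have c1 : Commute (UO (lX 1) (vt (2 * k) (-1)) : Op Lab K) Vp := by
    apply commute_list_map
    intro w hw
    obtain ⟨a1, a2⟩ := range_mem (Or.inl hw)
    exact UO_V_comm (L := L) bad_z (bad_vt (Or.inl (by omega))) y a1 (by push_cast at a2; exact a2)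
  have c3 : Commute (PO (lX 1) : Op Lab K) Vp := by
    apply commute_list_map
    intro w hw
    obtain ⟨a1, a2⟩ := range_mem (Or.inl hw)
    exact Bad.comm_V (L := L) bad_z y a1 (by push_cast at a2; exact a2)
  have c4 : Commute (PO (vt (2 * k) (-1)) : Op Lab K) Vp := by
    apply commute_list_map
    intro w hw
    obtain ⟨a1, a2⟩ := range_mem (Or.inl hw)
    exact Bad.comm_V (L := L) (bad_vt (Or.inl (by omega))) y a1 (by push_cast at a2; exact a2)
  have c2 : Commute (Co (lX 1) (vt (2 * k) (2 * (L : ℤ) - 1)) : Op Lab K) H := by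
    apply commute_list_map
    intro t ht
    obtain ⟨a1, a2, a3⟩ := h2 t ht
    obtain ⟨x, i, b⟩ := t
    simp only at a1 a2 a3
    push_cast at a2
    cases b
    · rw [ed_false]
      exact Co_comm (by simp) (by simp) (by simp) (by simp)
    · obtain ⟨a4, a5⟩ := a3 rfl
      rw [ed_true, a5]
      refine Co_comm (by simp) (by simp) ?_ ?_
      · simp only [Ne, vt_inj, not_and]
        intro h3 h4
        subst h3 h4
        unfold io at a5
        rw [if_neg (by omega)] at a5
        omega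
      · simp only [Ne, vt_inj, not_and]
        intro h3 h4
        omega
  have e4 := seam (K := K) (z := lX 1) (s := vt (2 * k) (-1)) (a := vt (2 * k) 0)
    (n := vt (2 * k) (2 * (L : ℤ) - 1)) (by
    simp
    omega)
  calc _ = (UO (lX 1) (vt (2 * k) (-1)) * Vp) * (Co (vt (2 * k) (-1)) (vt (2 * k) 0) *
        (H * Co (lX 1) (vt (2 * k) (2 * (L : ℤ) - 1)))) := by
        simp only [mul_assoc]
    _ = Vp * (UO (lX 1) (vt (2 * k) (-1)) * Co (vt (2 * k) (-1)) (vt (2 * k) 0) *
        Co (lX 1) (vt (2 * k) (2 * (L : ℤ) - 1))) * H := by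
        rw [c1.eq, ← c2.eq]
        simp only [mul_assoc]
    _ = (Vp * (PO (lX 1) * PO (vt (2 * k) (-1)))) * (Co (vt (2 * k) 0) (vt (2 * k) (2 * (L : ℤ) - 1)) * H) := by
        rw [e4]
        simp only [mul_assoc]
    _ = _ := by rw [← (c3.mul_left c4).eq]

/-- the sorted form of a ring of the left part. -/
theorem lRing_sort (y : K) (k : ℤ) : lRing y (2 * L) k =
    (PO (lX 1) * PO (vt (2 * k) (2 * (L : ℤ)))) * ((lV (2 * L) k).map (vO K y)).prod *
      ((lHs (2 * L) k).map (fun t => (CoS ((Cv L hL).ed (he t)) : Op Lab K))).prod := by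
  obtain ⟨HR, h1, h2⟩ := lHs_cons (N := 2 * L) (by omega) (by omega) k
  unfold lRing
  have eN : ((2 * L : ℕ) : ℤ) % 2 = 0 := by omega
  have eN' : ((2 * L : ℕ) : ℤ) = 2 * L := by push_cast; ring
  rw [lrows_sort, h1, List.map_cons, List.prod_cons, List.map_cons, List.prod_cons]
  have e1 : (HR.map (fun t => (CoS ((Cv L hL).ed (he t)) : Op Lab K))) =
      HR.map (fun t => CoS (Net.ed (he t))) := by
    refine List.map_congr_left (fun t ht => ?_)
    obtain ⟨a1, a2, a3⟩ := h2 t ht
    obtain ⟨x, i, b⟩ := t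
    simp only at a1 a2 a3
    cases b
    · rw [Ced_false a1 (by push_cast at a2; exact a2), ed_false]
    · obtain ⟨a4, a5⟩ := a3 rfl
      rw [Ced_true, ed_true, a5, Int.emod_eq_of_lt (by omega) (by push_cast at a4; omega)]
  have e2 : (CoS (Net.ed (he (2 * k, ((2 * L : ℕ) : ℤ) - 1, true))) : Op Lab K) =
      Co (vt (2 * k) (2 * (L : ℤ))) (vt (2 * k) (2 * (L : ℤ) - 1)) := by
    rw [eN', ed_true]
    have : io (2 * k) (2 * (L : ℤ) - 1) = 2 * (L : ℤ) := by
      unfold io
      rw [if_neg (by omega)]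
      ring
    rw [this]
    exact Co_symm _ _
  have e3 : (CoS ((Cv L hL).ed (he (2 * k, ((2 * L : ℕ) : ℤ) - 1, true))) : Op Lab K) =
      Co (vt (2 * k) (2 * (L : ℤ) - 1)) (vt (2 * k) 0) := by
    rw [eN', Ced_true]
    have : io (2 * k) (2 * (L : ℤ) - 1) % (2 * (L : ℤ)) = 0 := by
      unfold io
      rw [if_neg (by omega)]
      have : 2 * (L : ℤ) - 1 + 1 = 2 * (L : ℤ) := by ring
      rw [this, Int.emod_self]
    rw [this]
    rfl
  rw [e1, e2, e3, eN, eN', add_zero]
  set Vp := ((lV (2 * L) k).map (vO K y)).prod with hV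
  set H := (HR.map (fun t => (CoS (Net.ed (he t)) : Op Lab K))).prod with hH
  have c1 : Commute (UO (lX 1) (vt (2 * k) (2 * (L : ℤ))) : Op Lab K) Vp := by
    apply commute_list_map
    intro w hw
    obtain ⟨a1, a2⟩ := range_mem (Or.inr hw)
    exact UO_V_comm (L := L) bad_z (bad_vt (Or.inr le_rfl)) y a1 (by push_cast at a2; exact a2)
  have c3 : Commute (PO (lX 1) : Op Lab K) Vp := by
    apply commute_list_map
    intro w hw
    obtain ⟨a1, a2⟩ := range_mem (Or.inr hw)
    exact Bad.comm_V (L := L) bad_z y a1 (by push_cast at a2; exact a2)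
  have c4 : Commute (PO (vt (2 * k) (2 * (L : ℤ))) : Op Lab K) Vp := by
    apply commute_list_map
    intro w hw
    obtain ⟨a1, a2⟩ := range_mem (Or.inr hw)
    exact Bad.comm_V (L := L) (bad_vt (Or.inr le_rfl)) y a1 (by push_cast at a2; exact a2)
  have c2 : Commute (Co (lX 1) (vt (2 * k) 0) : Op Lab K) H := by
    apply commute_list_map
    intro t ht
    obtain ⟨a1, a2, a3⟩ := h2 t ht
    obtain ⟨x, i, b⟩ := t
    simp only at a1 a2 a3
    push_cast at a2
    cases b
    · rw [ed_false]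
      exact Co_comm (by simp) (by simp) (by simp) (by simp)
    · obtain ⟨a4, a5⟩ := a3 rfl
      rw [ed_true, a5]
      refine Co_comm (by simp) (by simp) ?_ ?_
      · simp only [Ne, vt_inj, not_and]
        intro h3 h4
        subst h3 h4
        unfold io at a5
        rw [if_pos (by omega)] at a5
        omega
      · simp only [Ne, vt_inj, not_and]
        intro h3 h4
        omega
  have e4 := seam (K := K) (z := lX 1) (s := vt (2 * k) (2 * (L : ℤ))) (a := vt (2 * k) (2 * (L : ℤ) - 1))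
    (n := vt (2 * k) 0) (by
    simp
    omega)
  calc _ = (UO (lX 1) (vt (2 * k) (2 * (L : ℤ))) * Vp) *
        (Co (vt (2 * k) (2 * (L : ℤ))) (vt (2 * k) (2 * (L : ℤ) - 1)) *
        (H * Co (lX 1) (vt (2 * k) 0))) := by
        simp only [mul_assoc]
    _ = Vp * (UO (lX 1) (vt (2 * k) (2 * (L : ℤ))) *
        Co (vt (2 * k) (2 * (L : ℤ))) (vt (2 * k) (2 * (L : ℤ) - 1)) * Co (lX 1) (vt (2 * k) 0)) * H := by
        rw [c1.eq, ← c2.eq]
        simp only [mul_assoc]
    _ = (Vp * (PO (lX 1) * PO (vt (2 * k) (2 * (L : ℤ))))) *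
        (Co (vt (2 * k) (2 * (L : ℤ) - 1)) (vt (2 * k) 0) * H) := by
        rw [e4]
        simp only [mul_assoc]
    _ = _ := by rw [← (c3.mul_left c4).eq]

/-! ### all rings -/

/-- the rings in the order of the network. -/
def rings (n m : ℕ) : List ℤ :=
  (List.range n).reverse.map (fun j : ℕ => (j : ℤ)) ++ (List.range m).reverse.map (fun j : ℕ => -(j : ℤ) - 1)

theorem mem_rings {n m : ℕ} {k : ℤ} : k ∈ rings n m ↔ -(m : ℤ) ≤ k ∧ k < n := by
  unfold rings
  rw [List.mem_append, List.mem_map, List.mem_map]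
  simp only [List.mem_reverse, List.mem_range]
  constructor
  · rintro (⟨j, hj, rfl⟩ | ⟨j, hj, rfl⟩) <;> omega
  · rintro ⟨h1, h2⟩
    by_cases c : 0 ≤ k
    · exact Or.inl ⟨k.toNat, by omega, by omega⟩
    · exact Or.inr ⟨(-k - 1).toNat, by omega, by omega⟩

/-- the vertices of the ring k. -/
def vL (N : ℕ) (k : ℤ) : List (ℤ × ℤ) := if 0 ≤ k then rV N k else lV N k

/-- the items of the ring k. -/
def cL (N : ℕ) (k : ℤ) : List (ℤ × ℤ × Bool) := if 0 ≤ k then rHs N k else lHs N k

/-- the ring k. -/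
noncomputable def ring (y : K) (N : ℕ) (k : ℤ) : Op Lab K := if 0 ≤ k then rRing y N k else lRing y N k

theorem tot_rings (y : K) (N n m : ℕ) : rTot y N n * lTot y N m = ((rings n m).map (ring y N)).prod := by
  have h1 : ∀ n : ℕ, rTot y N n = (((List.range n).reverse.map (fun j : ℕ => (j : ℤ))).map (ring y N)).prod := by
    intro n
    induction n with
    | zero => rfl
    | succ n ih =>
      have e : rTot y N (n + 1) = rRing y N n * rTot y N n := rfl
      rw [e, ih, List.range_succ, List.reverse_append]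
      simp only [List.reverse_cons, List.reverse_nil, List.nil_append, List.cons_append, List.map_cons,
        List.prod_cons]
      have e3 : ring y N (n : ℤ) = rRing y N n := by
        unfold ring
        rw [if_pos (Int.natCast_nonneg n)]
      rw [e3]
  have h2 : ∀ m : ℕ, lTot y N m =
      (((List.range m).reverse.map (fun j : ℕ => -(j : ℤ) - 1)).map (ring y N)).prod := by
    intro m
    induction m with
    | zero => rfl
    | succ m ih =>
      have e : lTot y N (m + 1) = lRing y N (-(m : ℤ) - 1) * lTot y N m := rfl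
      rw [e, ih, List.range_succ, List.reverse_append]
      simp only [List.reverse_cons, List.reverse_nil, List.nil_append, List.cons_append, List.map_cons,
        List.prod_cons]
      have e3 : ring y N (-(m : ℤ) - 1) = lRing y N (-(m : ℤ) - 1) := by
        unfold ring
        rw [if_neg (by omega)]
      rw [e3]
  unfold rings
  rw [List.map_append, List.prod_append, h1, h2]

theorem mem_vL {N : ℕ} {k : ℤ} {w : ℤ × ℤ} : w ∈ vL N k ↔ ∃ i : ℕ, i < N ∧ w ∈ pV k i := by
  unfold vL
  split_ifs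
  · exact mem_rV
  · exact mem_lV

/-- the projections of a ring. -/
noncomputable def pR (K : Type*) [CommRing K] (L : ℕ) (k : ℤ) : Op Lab K :=
  if 0 ≤ k then PO (lX 1) * PO (vt (2 * k) (-1)) else PO (lX 1) * PO (vt (2 * k) (2 * (L : ℤ)))

theorem ring_sort (y : K) (k : ℤ) : ring y (2 * L) k =
    pR K L k * ((vL (2 * L) k).map (vO K y)).prod *
      ((cL (2 * L) k).map (fun t => (CoS ((Cv L hL).ed (he t)) : Op Lab K))).prod := by
  unfold ring pR vL cL
  by_cases h : 0 ≤ k
  · rw [if_pos h, if_pos h, if_pos h, if_pos h]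
    exact rRing_sort y k
  · rw [if_neg h, if_neg h, if_neg h, if_neg h]
    exact lRing_sort y k

theorem pR_bad (k : ℤ) : ∃ a b : Lab, Bad L a ∧ Bad L b ∧ pR K L k = PO a * PO b := by
  unfold pR
  by_cases h : 0 ≤ k
  · rw [if_pos h]
    exact ⟨_, _, bad_z, bad_vt (Or.inl (by omega)), rfl⟩
  · rw [if_neg h]
    exact ⟨_, _, bad_z, bad_vt (Or.inr le_rfl), rfl⟩

theorem mem_cL {N : ℕ} {k : ℤ} {t : ℤ × ℤ × Bool} : t ∈ cL N k ↔
    ∃ i : ℕ, i < N ∧ ((0 ≤ k ∧ t ∈ rH k i) ∨ (k < 0 ∧ t ∈ lH k i)) := by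
  unfold cL
  by_cases h : 0 ≤ k
  · rw [if_pos h, mem_rHs]
    have h' : ¬ k < 0 := by omega
    simp [h, h']
  · rw [if_neg h, mem_lHs]
    have h' : k < 0 := by omega
    simp [h, h']

theorem cL_range {N : ℕ} {k : ℤ} {t : ℤ × ℤ × Bool} (h : t ∈ cL N k) : 0 ≤ t.2.1 ∧ t.2.1 < N := by
  rw [mem_cL] at h
  obtain ⟨i, hi, ⟨-, h⟩ | ⟨-, h⟩⟩ := h
  · rw [mem_rH] at h
    rcases h with rfl | rfl | rfl <;> exact ⟨Int.natCast_nonneg i, Int.ofNat_lt.2 hi⟩
  · rw [mem_lH] at h
    rcases h with rfl | rfl | rfl <;> exact ⟨Int.natCast_nonneg i, Int.ofNat_lt.2 hi⟩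

theorem vL_range {N : ℕ} {k : ℤ} {w : ℤ × ℤ} (h : w ∈ vL N k) : 0 ≤ w.2 ∧ w.2 < N := by
  rw [mem_vL] at h
  obtain ⟨i, hi, h⟩ := h
  rw [mem_pV] at h
  rcases h with rfl | rfl <;> exact ⟨Int.natCast_nonneg i, Int.ofNat_lt.2 hi⟩

/-- a ring commutes with the vertices of a later ring. -/
theorem later_comm (y : K) {a b : ℤ} (h : (0 ≤ a ∧ b < a) ∨ (a < 0 ∧ a < b ∧ b < 0)) :
    Commute (((cL (2 * L) a).map (fun t => (CoS ((Cv L hL).ed (he t)) : Op Lab K))).prod)
      (((vL (2 * L) b).map (vO K y)).prod) := by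
  refine commute_list_map fun w hw => ?_
  refine (commute_list_map fun t ht => ?_).symm
  obtain ⟨a1, a2⟩ := cL_range ht
  push_cast at a2
  rw [mem_vL] at hw
  obtain ⟨i, hi, hw⟩ := hw
  rw [mem_pV] at hw
  rw [mem_cL] at ht
  obtain ⟨j, hj, ht⟩ := ht
  refine (CoS_vO' y a1 a2 ?_ ?_).symm
  · rcases ht with ⟨h1, ht⟩ | ⟨h1, ht⟩
    · rw [mem_rH] at ht
      rcases ht with rfl | rfl | rfl <;> rcases hw with rfl | rfl <;> simp only [ne_eq] <;> omega
    · rw [mem_lH] at ht
      rcases ht with rfl | rfl | rfl <;> rcases hw with rfl | rfl <;> simp only [ne_eq] <;> omega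
  · intro hb
    rcases ht with ⟨h1, ht⟩ | ⟨h1, ht⟩
    · rw [mem_rH] at ht
      rcases ht with rfl | rfl | rfl
      · simp at hb
      · rcases hw with rfl | rfl <;> simp only [ne_eq] <;> omega
      · rcases hw with rfl | rfl <;> simp only [ne_eq] <;> omega
    · rw [mem_lH] at ht
      rcases ht with rfl | rfl | rfl
      · simp at hb
      · rcases hw with rfl | rfl <;> simp only [ne_eq] <;> omega
      · rcases hw with rfl | rfl <;> simp only [ne_eq] <;> omega

/-- all vertices. -/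
def vA (N n m : ℕ) : List (ℤ × ℤ) := (rings n m).flatMap (vL N)

/-- all items. -/
def cA (N n m : ℕ) : List (ℤ × ℤ × Bool) := (rings n m).flatMap (cL N)

theorem pairwise_rings (n m : ℕ) :
    (rings n m).Pairwise (fun a b => (0 ≤ a ∧ b < a) ∨ (a < 0 ∧ a < b ∧ b < 0)) := by
  unfold rings
  rw [List.pairwise_append]
  refine ⟨?_, ?_, ?_⟩
  · rw [List.pairwise_map, List.pairwise_reverse]
    exact List.pairwise_lt_range.imp fun {a b} hab => Or.inl ⟨by positivity, by omega⟩
  · rw [List.pairwise_map, List.pairwise_reverse]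
    exact List.pairwise_lt_range.imp fun {a b} hab => Or.inr ⟨by omega, by omega, by omega⟩
  · intro a ha b hb
    simp only [List.mem_map, List.mem_reverse, List.mem_range] at ha hb
    obtain ⟨j, -, rfl⟩ := ha
    obtain ⟨l, -, rfl⟩ := hb
    exact Or.inl ⟨by positivity, by omega⟩

/-- **The network of all rings, sorted, at the empty state.** -/
theorem tot_sort (y : K) (n m : ℕ) (G : Pat Lab → K) :
    (rTot y (2 * L) n * lTot y (2 * L) m) G Pat.empty =
      (((vA (2 * L) n m).map (vO K y)).prod *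
        ((cA (2 * L) n m).map (fun t => (CoS ((Cv L hL).ed (he t)) : Op Lab K))).prod) G Pat.empty := by
  rw [tot_rings]
  have e1 : (rings n m).map (ring y (2 * L)) = (rings n m).map (fun k => pR K L k *
      ((vL (2 * L) k).map (vO K y)).prod *
      ((cL (2 * L) k).map (fun t => (CoS ((Cv L hL).ed (he t)) : Op Lab K))).prod) :=
    List.map_congr_left fun k _ => ring_sort y k
  rw [e1, prod_sort3]
  · unfold vA cA
    rw [prod_flatMap', prod_flatMap']
    rw [Module.End.mul_apply]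
    have key : ∀ (l : List ℤ) (F : Pat Lab → K), (l.map (pR K L)).prod F Pat.empty = F Pat.empty := by
      intro l
      induction l with
      | nil => intro F; rfl
      | cons k l ih =>
        intro F
        rw [List.map_cons, List.prod_cons, Module.End.mul_apply]
        obtain ⟨a, b, -, -, e⟩ := pR_bad (K := K) (L := L) k
        rw [e, Module.End.mul_apply, PO_apply, if_pos (show (Pat.empty : Pat Lab).f a = a from rfl), PO_apply,
          if_pos (show (Pat.empty : Pat Lab).f b = b from rfl)]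
        exact ih F
    exact key _ _
  · exact (pairwise_rings n m).imp fun {a b} h => later_comm y h
  · intro a _ b _
    obtain ⟨c, d, hc, hd, e⟩ := pR_bad (K := K) (L := L) a
    rw [e]
    refine commute_list_map fun w hw => ?_
    obtain ⟨a1, a2⟩ := vL_range hw
    push_cast at a2
    exact (hc.comm_V y a1 a2).mul_left (hd.comm_V y a1 a2)
  · intro a _ b _
    obtain ⟨c, d, hc, hd, e⟩ := pR_bad (K := K) (L := L) a
    rw [e]
    refine commute_list_map fun t ht => ?_
    obtain ⟨a1, a2⟩ := cL_range ht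
    push_cast at a2
    exact (hc.comm_H a1 a2).mul_left (hd.comm_H a1 a2)

end Pool.Agent.MXR
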