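import Pool.Agent.MXR.Sort
import Pool.Agent.MXR.Ends
import Pool.Agent.MXR.Dom
import Pool.Agent.EXL.NetTot0

/-!
# The rings with alternating rows are sums over words (module M1 of nu34/22a)
-/

set_option autoImplicit false

namespace Pool.Agent.MXR

open Pool.Agent.EXL hiding cc
open Pool.Agent.EXL.Pat Pool.Agent.EXL.Net HexObs HexObs.LP
open Pool.Agent.NUF.Cyl (Nm Co_eq_glue glue_congr)
open Pool.Agent.NUN (cc Xr Xl)
open Pool.Agent.NUNC (dd)

variable {K : Type*} [CommRing K] {L : ℕ} {hL : 1 ≤ L}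

/-! ### vertices -/

theorem nodup_vL (N : ℕ) (k : ℤ) : (vL N k).Nodup := by
  have key : (List.range N).Pairwise (fun a b => List.Disjoint (pV k (a : ℕ)) (pV k (b : ℕ))) := by
    refine List.pairwise_lt_range.imp fun {a b} hab => ?_
    intro w h1 h2
    rw [mem_pV] at h1 h2
    rcases h1 with rfl | rfl <;> rcases h2 with h2 | h2 <;> rw [Prod.mk.injEq] at h2 <;> omega
  have key2 : ∀ i : ℕ, (pV k (i : ℤ)).Nodup := by
    intro i
    unfold pV
    simp
  unfold vL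
  split_ifs
  · unfold rV
    rw [List.nodup_flatMap]
    exact ⟨fun i _ => key2 i, key⟩
  · unfold lV
    rw [List.nodup_flatMap]
    refine ⟨fun i _ => key2 i, ?_⟩
    rw [List.pairwise_reverse]
    exact key.imp fun {a b} h => h.symm

theorem mem_vA {N n m : ℕ} {w : ℤ × ℤ} :
    w ∈ vA N n m ↔ (-(2 * m : ℤ) ≤ w.1 ∧ w.1 < 2 * n) ∧ 0 ≤ w.2 ∧ w.2 < N := by
  unfold vA
  rw [List.mem_flatMap]
  constructor
  · rintro ⟨k, hk, h⟩
    rw [mem_rings] at hk
    rw [mem_vL] at h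
    obtain ⟨i, hi, h⟩ := h
    rw [mem_pV] at h
    rcases h with rfl | rfl <;> simp only <;> omega
  · rintro ⟨⟨h1, h2⟩, h3, h4⟩
    refine ⟨w.1 / 2, mem_rings.2 (by omega), ?_⟩
    rw [mem_vL]
    refine ⟨w.2.toNat, by omega, ?_⟩
    rw [mem_pV]
    rcases Int.emod_two_eq_zero_or_one w.1 with h | h
    · left
      refine Prod.ext ?_ ?_ <;> simp only <;> omega
    · right
      refine Prod.ext ?_ ?_ <;> simp only <;> omega

theorem nodup_vA (N n m : ℕ) : (vA N n m).Nodup := by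
  unfold vA
  rw [List.nodup_flatMap]
  refine ⟨fun k _ => nodup_vL N k, ?_⟩
  refine (pairwise_rings n m).imp fun {a b} hab => ?_
  intro w h1 h2
  rw [mem_vL] at h1 h2
  obtain ⟨i, -, h1⟩ := h1
  obtain ⟨j, -, h2⟩ := h2
  rw [mem_pV] at h1 h2
  rcases h1 with rfl | rfl <;> rcases h2 with h2 | h2 <;> rw [Prod.mk.injEq] at h2 <;> omega

theorem V_injective : Function.Injective (fun w : ℤ × ℤ => V w.1 w.2) := by
  intro w w' h
  have h' := V_inj.1 h
  exact Prod.ext h'.1 h'.2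

theorem CR_vA (y : K) (n m : ℕ) : ((vA (2 * L) n m).map (vO K y)).prod = CR y (Dm L n m) := by
  classical
  have h1 : ((vA (2 * L) n m).map fun w : ℤ × ℤ => V w.1 w.2).Nodup := (nodup_vA _ n m).map V_injective
  have h2 : ((vA (2 * L) n m).map fun w : ℤ × ℤ => V w.1 w.2).toFinset = Dm L n m := by
    ext v
    rw [List.mem_toFinset, List.mem_map]
    constructor
    · rintro ⟨w, hw, rfl⟩
      rw [mem_vA] at hw
      rw [mem_Dm]
      refine ⟨hw.1, hw.2.1, ?_⟩
      have := hw.2.2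
      push_cast at this
      exact this
    · intro hv
      obtain ⟨x, i, rfl, h3, h4, h5⟩ := exists_of_mem_Dm hv
      refine ⟨(x, i), mem_vA.2 ⟨h3, h4, ?_⟩, rfl⟩
      push_cast
      exact h5
  have h3 : (CR y ((vA (2 * L) n m).map fun w : ℤ × ℤ => V w.1 w.2).toFinset : Op Lab K) =
      (((vA (2 * L) n m).map fun w : ℤ × ℤ => V w.1 w.2).map (Crv y)).prod :=
    Finset.noncommProd_toFinset _ _ _ h1
  rw [h2, List.map_map] at h3
  rw [h3]
  rfl

/-! ### edges -/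

/-- all items: the rings and the cut `-1 | 0`. -/
def iA (N n m : ℕ) : List (ℤ × ℤ × Bool) :=
  cA N n m ++ (List.range N).map (fun i : ℕ => (-1, (i : ℤ), false))

theorem nodup_cL (N : ℕ) (k : ℤ) : (cL N k).Nodup := by
  unfold cL
  split_ifs
  · unfold rHs
    rw [List.nodup_flatMap]
    refine ⟨fun i _ => ?_, ?_⟩
    · unfold rH
      simp
    · refine List.pairwise_lt_range.imp fun {a b} hab => ?_
      intro t h1 h2
      rw [mem_rH] at h1 h2
      rcases h1 with rfl | rfl | rfl <;> rcases h2 with h2 | h2 | h2 <;>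
        rw [Prod.mk.injEq, Prod.mk.injEq] at h2 <;> omega
  · unfold lHs
    rw [List.nodup_flatMap]
    refine ⟨fun i _ => ?_, ?_⟩
    · unfold lH
      simp
    · rw [List.pairwise_reverse]
      refine List.pairwise_lt_range.imp fun {a b} hab => ?_
      intro t h1 h2
      rw [mem_lH] at h1 h2
      rcases h1 with rfl | rfl | rfl <;> rcases h2 with h2 | h2 | h2 <;>
        rw [Prod.mk.injEq, Prod.mk.injEq] at h2 <;> omega

/-- the coordinates of the items of a ring. -/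
theorem cL_coord {N : ℕ} {k : ℤ} {t : ℤ × ℤ × Bool} (h : t ∈ cL N k) :
    (t.2.2 = true → t.1 / 2 = k ∧ ((t.1 - t.2.1) % 2 = 0 ↔ 0 ≤ k)) ∧
    (t.2.2 = false → (0 ≤ k → t.1 / 2 = k) ∧ (k < 0 → (t.1 + 1) / 2 = k)) := by
  rw [mem_cL] at h
  obtain ⟨i, hi, ⟨h0, h⟩ | ⟨h0, h⟩⟩ := h
  · rw [mem_rH] at h
    rcases h with rfl | rfl | rfl
    · refine ⟨fun _ => ?_, fun h => by simp at h⟩
      simp only
      omega
    · refine ⟨fun h => by simp at h, fun _ => ?_⟩
      simp only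
      omega
    · refine ⟨fun h => by simp at h, fun _ => ?_⟩
      simp only
      omega
  · rw [mem_lH] at h
    rcases h with rfl | rfl | rfl
    · refine ⟨fun _ => ?_, fun h => by simp at h⟩
      simp only
      omega
    · refine ⟨fun h => by simp at h, fun _ => ?_⟩
      simp only
      omega
    · refine ⟨fun h => by simp at h, fun _ => ?_⟩
      simp only
      omega

theorem nodup_iA (N n m : ℕ) : (iA N n m).Nodup := by
  unfold iA
  rw [List.nodup_append]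
  refine ⟨?_, ?_, ?_⟩
  · unfold cA
    rw [List.nodup_flatMap]
    refine ⟨fun k _ => nodup_cL N k, ?_⟩
    refine (pairwise_rings n m).imp fun {a b} hab => ?_
    intro t h1 h2
    obtain ⟨a1, a2⟩ := cL_coord h1
    obtain ⟨b1, b2⟩ := cL_coord h2
    obtain ⟨x, i, c⟩ := t
    cases c
    · obtain ⟨a3, a4⟩ := a2 rfl
      obtain ⟨b3, b4⟩ := b2 rfl
      simp only at a3 a4 b3 b4
      omega
    · have a3 := (a1 rfl).1
      have b3 := (b1 rfl).1
      simp only at a3 b3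
      omega
  · refine List.Nodup.map ?_ List.nodup_range
    intro a b h
    rw [Prod.mk.injEq, Prod.mk.injEq] at h
    omega
  · intro t h1 t' h2 e
    subst e
    unfold cA at h1
    rw [List.mem_flatMap] at h1
    obtain ⟨k, hk, h1⟩ := h1
    obtain ⟨-, a2⟩ := cL_coord h1
    rw [List.mem_map] at h2
    obtain ⟨i, hi, rfl⟩ := h2
    obtain ⟨a3, a4⟩ := a2 rfl
    simp only at a3 a4
    omega

theorem mem_iA {N n m : ℕ} {x i : ℤ} {b : Bool} : (x, i, b) ∈ iA N n m ↔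
    (0 ≤ i ∧ i < N) ∧ (b = true → (-(2 * m : ℤ) ≤ x ∧ x < 2 * n) ∧ ((x - i) % 2 = 0 ↔ 0 ≤ x)) ∧
      (b = false → -(2 * m : ℤ) - 1 ≤ x ∧ x < 2 * n) := by
  unfold iA cA
  rw [List.mem_append, List.mem_flatMap, List.mem_map]
  constructor
  · rintro (⟨k, hk, h⟩ | ⟨j, hj, e⟩)
    · obtain ⟨a1, a2⟩ := cL_coord h
      obtain ⟨a3, a4⟩ := cL_range h
      rw [mem_rings] at hk
      simp only at a1 a2 a3 a4
      refine ⟨⟨a3, a4⟩, fun hb => ?_, fun hb => ?_⟩
      · obtain ⟨a5, a6⟩ := a1 hb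
        rw [a6]
        omega
      · obtain ⟨a5, a6⟩ := a2 hb
        omega
    · rw [List.mem_range] at hj
      rw [Prod.mk.injEq, Prod.mk.injEq] at e
      obtain ⟨rfl, rfl, rfl⟩ := e
      exact ⟨⟨by positivity, by exact_mod_cast hj⟩, fun h => by simp at h, fun _ => by omega⟩
  · rintro ⟨⟨h1, h2⟩, h3, h4⟩
    obtain ⟨i, rfl⟩ := Int.eq_ofNat_of_zero_le h1
    have hi : i < N := by exact_mod_cast h2
    cases b
    · have h5 := h4 rfl
      by_cases c : x = -1
      · subst c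
        exact Or.inr ⟨i, List.mem_range.2 hi, rfl⟩
      · left
        by_cases c0 : 0 ≤ x
        · refine ⟨x / 2, mem_rings.2 (by omega), ?_⟩
          rw [mem_cL]
          refine ⟨i, hi, Or.inl ⟨by omega, ?_⟩⟩
          rw [mem_rH]
          rcases Int.emod_two_eq_zero_or_one x with h | h
          · right; right
            refine Prod.ext ?_ rfl
            simp only
            omega
          · right; left
            refine Prod.ext ?_ rfl
            simp only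
            omega
        · refine ⟨(x + 1) / 2, mem_rings.2 (by omega), ?_⟩
          rw [mem_cL]
          refine ⟨i, hi, Or.inr ⟨by omega, ?_⟩⟩
          rw [mem_lH]
          rcases Int.emod_two_eq_zero_or_one x with h | h
          · right; right
            refine Prod.ext ?_ rfl
            simp only
            omega
          · right; left
            refine Prod.ext ?_ rfl
            simp only
            omega
    · obtain ⟨h5, h6⟩ := h3 rfl
      left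
      refine ⟨x / 2, mem_rings.2 (by omega), ?_⟩
      rw [mem_cL]
      by_cases c0 : 0 ≤ x
      · refine ⟨i, hi, Or.inl ⟨by omega, ?_⟩⟩
        rw [mem_rH]
        left
        refine Prod.ext ?_ rfl
        simp only
        have := h6.2 c0
        omega
      · refine ⟨i, hi, Or.inr ⟨by omega, ?_⟩⟩
        rw [mem_lH]
        left
        refine Prod.ext ?_ rfl
        simp only
        have : ¬ (x - (i : ℤ)) % 2 = 0 := fun h => c0 (h6.1 h)
        omega

/-- the edges of different items are different. -/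
theorem ed_inj {N : ℕ} (hN : N = 2 * L) {n m : ℕ} {t t' : ℤ × ℤ × Bool} (ht : t ∈ iA N n m)
    (ht' : t' ∈ iA N n m) (e : (Cv L hL).ed (he t) = (Cv L hL).ed (he t')) : t = t' := by
  subst hN
  obtain ⟨x, i, b⟩ := t
  obtain ⟨x', i', b'⟩ := t'
  rw [mem_iA] at ht ht'
  obtain ⟨⟨a1, a2⟩, a3, a4⟩ := ht
  obtain ⟨⟨c1, c2⟩, c3, c4⟩ := ht'
  push_cast at a2 c2
  cases b <;> cases b'
  · rw [Ced_false a1 a2, Ced_false c1 c2, Sym2.eq_iff] at e
    rcases e with ⟨e, -⟩ | ⟨e, -⟩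
    · rw [rt_inj] at e
      rw [e.1, e.2]
    · simp at e
  · rw [Ced_false a1 a2, Ced_true, Sym2.eq_iff] at e
    rcases e with ⟨e, -⟩ | ⟨e, -⟩ <;> simp at e
  · rw [Ced_true, Ced_false c1 c2, Sym2.eq_iff] at e
    rcases e with ⟨e, -⟩ | ⟨e, -⟩ <;> simp at e
  · rw [Ced_true, Ced_true, Sym2.eq_iff] at e
    rcases e with ⟨e, -⟩ | ⟨e, -⟩
    · rw [vt_inj] at e
      rw [e.1, e.2]
    · exfalso
      rw [vt_inj] at e
      obtain ⟨e1, e2⟩ := e
      subst e1
      have h1 := (a3 rfl).2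
      have h2 := (c3 rfl).2
      have h3 := Int.mul_ediv_add_emod (io x i') (2 * L)
      rw [← e2] at h3
      generalize (io x i') / (2 * (L : ℤ)) = r at h3
      have h4 : (2 * (L : ℤ)) * r = 2 * (L * r) := by ring
      rw [h4] at h3
      generalize (L : ℤ) * r = s at h3
      unfold io at h3
      split_ifs at h3 <;> omega

theorem nodup_ed {n m : ℕ} : ((iA (2 * L) n m).map (fun t => (Cv L hL).ed (he t))).Nodup :=
  List.Nodup.map_on (fun _ ht _ ht' e => ed_inj rfl ht ht' e) (nodup_iA _ n m)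

/-- the edges of the domain. -/
noncomputable def Ed (L : ℕ) (hL : 1 ≤ L) (l : List (ℤ × ℤ × Bool)) : Finset (Sym2 Lab) := by
  classical
  exact (l.map (fun t => (Cv L hL).ed (he t))).toFinset

theorem mem_Ed {l : List (ℤ × ℤ × Bool)} {e : Sym2 Lab} :
    e ∈ Ed L hL l ↔ ∃ t ∈ l, (Cv L hL).ed (he t) = e := by
  unfold Ed
  rw [List.mem_toFinset, List.mem_map]

theorem De_he {x i : ℤ} {b : Bool} (h1 : 0 ≤ i) (h2 : i < 2 * L) : (Cv L hL).De (he (x, i, b)) := by
  cases b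
  · exact ⟨De_V.2 (Or.inl rfl), nm_V h1 h2⟩
  · exact ⟨De_V.2 (Or.inr (Or.inr rfl)), nm_V h1 h2⟩

theorem De_mem {n m : ℕ} {t : ℤ × ℤ × Bool} (ht : t ∈ iA (2 * L) n m) : (Cv L hL).De (he t) := by
  obtain ⟨x, i, b⟩ := t
  rw [mem_iA] at ht
  have h2 := ht.1.2
  push_cast at h2
  exact De_he ht.1.1 h2

theorem Edg_Ed {n m : ℕ} {l : List (ℤ × ℤ × Bool)} (hl : ∀ t ∈ l, t ∈ iA (2 * L) n m) :
    (Cv L hL).Edg (Ed L hL l) := by
  intro e he'
  obtain ⟨t, ht, rfl⟩ := mem_Ed.1 he'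
  exact ⟨he t, De_mem (hl t ht), rfl⟩

theorem CO_Ed {n m : ℕ} {l : List (ℤ × ℤ × Bool)} (hl : ∀ t ∈ l, t ∈ iA (2 * L) n m) (hn : l.Nodup) :
    (l.map (fun t => (CoS ((Cv L hL).ed (he t)) : Op Lab K))).prod = Nm.CO K (Ed L hL l) (Edg_Ed hl) := by
  classical
  have h1 : (l.map (fun t => (Cv L hL).ed (he t))).Nodup :=
    List.Nodup.map_on (fun _ ht _ ht' e => ed_inj rfl (hl _ ht) (hl _ ht') e) hn
  have h3 : Nm.CO K (Ed L hL l) (Edg_Ed hl) =
      ((l.map (fun t => (Cv L hL).ed (he t))).map (CoS : Sym2 Lab → Op Lab K)).prod :=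
    Finset.noncommProd_toFinset _ _ _ h1
  rw [h3, List.map_map]
  rfl

/-- all edges at the vertices of the domain. -/
theorem incl {n m : ℕ} {w : Pt} (hw : w ∈ Dm L n m) {d : Pt} (hd : (Cv L hL).De (w, d)) :
    (Cv L hL).ed (w, d) ∈ Ed L hL (iA (2 * L) n m) := by
  obtain ⟨x, i, rfl, h1, h2, h3⟩ := exists_of_mem_Dm hw
  rcases De_V.1 hd.1 with rfl | rfl | rfl
  · refine mem_Ed.2 ⟨(x, i, false), mem_iA.2 ⟨⟨h2, by push_cast; exact h3⟩, fun h => by simp at h,
      fun _ => by omega⟩, rfl⟩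
  · refine mem_Ed.2 ⟨(x - 1, i, false), mem_iA.2 ⟨⟨h2, by push_cast; exact h3⟩, fun h => by simp at h,
      fun _ => by omega⟩, ?_⟩
    rw [← Nm.ed_rv (h := (V x i, dL x i)) hd.2, rv_L h2 h3]
    rfl
  · by_cases c : (x - i) % 2 = 0 ↔ 0 ≤ x
    · exact mem_Ed.2 ⟨(x, i, true), mem_iA.2 ⟨⟨h2, by push_cast; exact h3⟩, fun _ => ⟨h1, c⟩,
        fun h => by simp at h⟩, rfl⟩
    · refine mem_Ed.2 ⟨(x, io x i % (2 * L), true), mem_iA.2 ⟨⟨Int.emod_nonneg _ (by omega), ?_⟩,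
        fun _ => ⟨h1, ?_⟩, fun h => by simp at h⟩, ?_⟩
      · push_cast
        exact Int.emod_lt_of_pos _ (by omega)
      · have h4 := Int.mul_ediv_add_emod (io x i) (2 * L)
        generalize (io x i) / (2 * (L : ℤ)) = r at h4
        have h5 : (2 * (L : ℤ)) * r = 2 * (L * r) := by ring
        rw [h5] at h4
        generalize (L : ℤ) * r = s at h4
        generalize io x i % (2 * (L : ℤ)) = j at h4 ⊢
        have h6 : (x - io x i) % 2 = 0 ↔ ¬ (x - i) % 2 = 0 := by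
          unfold io
          split_ifs <;> omega
        have h7 : (x - j) % 2 = 0 ↔ (x - io x i) % 2 = 0 := by omega
        rw [h7, h6]
        tauto
      · rw [← Nm.ed_rv (h := (V x i, dU x i)) hd.2, rv_U]
        rfl

/-! ### the word formula -/

/-- the items of the cut without the rows i, j. -/
def gI (N : ℕ) (i j : ℤ) : List (ℤ × ℤ × Bool) :=
  ((List.range N).filter (fun a : ℕ => (a : ℤ) ≠ i ∧ (a : ℤ) ≠ j)).map (fun a : ℕ => (-1, (a : ℤ), false))

theorem mem_gI {N : ℕ} {i j x a : ℤ} {b : Bool} : (x, a, b) ∈ gI N i j ↔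
    x = -1 ∧ b = false ∧ (0 ≤ a ∧ a < N) ∧ a ≠ i ∧ a ≠ j := by
  unfold gI
  rw [List.mem_map]
  constructor
  · rintro ⟨c, hc, e⟩
    rw [List.mem_filter, List.mem_range] at hc
    rw [Prod.mk.injEq, Prod.mk.injEq] at e
    obtain ⟨rfl, rfl, rfl⟩ := e
    have h2 := of_decide_eq_true hc.2
    exact ⟨rfl, rfl, ⟨by positivity, by exact_mod_cast hc.1⟩, h2⟩
  · rintro ⟨rfl, rfl, ⟨h1, h2⟩, h3⟩
    obtain ⟨c, rfl⟩ := Int.eq_ofNat_of_zero_le h1
    refine ⟨c, ?_, rfl⟩
    rw [List.mem_filter, List.mem_range]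
    exact ⟨by exact_mod_cast h2, decide_eq_true h3⟩

/-- all items without the two cut edges. -/
def iB (N n m : ℕ) (i j : ℤ) : List (ℤ × ℤ × Bool) := cA N n m ++ gI N i j

theorem mem_iB {N n m : ℕ} {i j x a : ℤ} {b : Bool} : (x, a, b) ∈ iB N n m i j ↔
    (x, a, b) ∈ iA N n m ∧ ¬ (b = false ∧ x = -1 ∧ (a = i ∨ a = j)) := by
  unfold iB iA
  rw [List.mem_append, List.mem_append, mem_gI, List.mem_map]
  constructor
  · rintro (h | ⟨rfl, rfl, ⟨h1, h2⟩, h3, h4⟩)
    · refine ⟨Or.inl h, ?_⟩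
      rintro ⟨rfl, rfl, -⟩
      unfold cA at h
      rw [List.mem_flatMap] at h
      obtain ⟨k, hk, h⟩ := h
      obtain ⟨-, a2⟩ := cL_coord h
      obtain ⟨a3, a4⟩ := a2 rfl
      simp only at a3 a4
      omega
    · refine ⟨Or.inr ⟨a.toNat, List.mem_range.2 (by omega), ?_⟩, by omega⟩
      rw [Prod.mk.injEq, Prod.mk.injEq]
      exact ⟨rfl, by omega, rfl⟩
  · rintro ⟨h | ⟨c, hc, e⟩, h2⟩
    · exact Or.inl h
    · rw [Prod.mk.injEq, Prod.mk.injEq] at e
      obtain ⟨rfl, rfl, rfl⟩ := e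
      rw [List.mem_range] at hc
      exact Or.inr ⟨rfl, rfl, ⟨by positivity, by exact_mod_cast hc⟩, by tauto⟩

theorem iB_sub {N n m : ℕ} {i j : ℤ} : ∀ t ∈ iB N n m i j, t ∈ iA N n m := by
  rintro ⟨x, a, b⟩ h
  exact (mem_iB.1 h).1

theorem nodup_iB (N n m : ℕ) (i j : ℤ) : (iB N n m i j).Nodup := by
  have h := nodup_iA N n m
  unfold iA at h
  unfold iB
  refine h.sublist (List.Sublist.append_left ?_ _)
  unfold gI
  exact List.Sublist.map _ List.filter_sublist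

/-- **The word formula of the sorted network.** -/
theorem word (y : K) {n m : ℕ} {i j : ℤ} (i0 : 0 ≤ i) (i1 : i < 2 * L) (j0 : 0 ≤ j) (j1 : j < 2 * L)
    (hij : i ≠ j) :
    (CR y (Dm0 L n m i j) * Nm.CO K (Ed L hL (iB (2 * L) n m i j)) (Edg_Ed iB_sub))
        (HS.ind (cup (lf 0 i) (lf 0 j) Pat.empty)) Pat.empty =
      (Cv L hL).Ws y (Dm0 L n m i j) {(V (-1) j, dR (-1) j)} (V (-1) i, dR (-1) i) := by
  classical
  have hp : (Cv L hL).De (V (-1) i, dR (-1) i) := ⟨De_V.2 (Or.inl rfl), nm_V i0 i1⟩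
  have hq : (Cv L hL).De (V (-1) j, dR (-1) j) := ⟨De_V.2 (Or.inl rfl), nm_V j0 j1⟩
  have m0 : (-1, i, false) ∈ iA (2 * L) n m :=
    mem_iA.2 ⟨⟨i0, by push_cast; exact i1⟩, fun h => by simp at h, fun _ => by omega⟩
  have m1 : (-1, j, false) ∈ iA (2 * L) n m :=
    mem_iA.2 ⟨⟨j0, by push_cast; exact j1⟩, fun h => by simp at h, fun _ => by omega⟩
  have a1 : V (-1) i ∉ Dm0 L n m i j := by
    rw [mem_Dm0]
    omega
  have a2 : V (-1) j ∉ Dm0 L n m i j := by
    rw [mem_Dm0]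
    omega
  have r1 : (Cv L hL).rv (V (-1) i, dR (-1) i) = (V 0 i, dL 0 i) := rv_R i0 i1
  have r2 : (Cv L hL).rv (V (-1) j, dR (-1) j) = (V 0 j, dL 0 j) := rv_R j0 j1
  have e1 : (Cv L hL).ed (V (-1) i, dR (-1) i) ∉ Ed L hL (iB (2 * L) n m i j) := by
    intro h
    obtain ⟨t, ht, e⟩ := mem_Ed.1 h
    have h1 : t = (-1, i, false) := ed_inj rfl (iB_sub t ht) m0 e
    subst h1
    exact (mem_iB.1 ht).2 ⟨rfl, rfl, Or.inl rfl⟩
  have e2 : (Cv L hL).ed (V (-1) j, dR (-1) j) ∉ Ed L hL (iB (2 * L) n m i j) := by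
    intro h
    obtain ⟨t, ht, e⟩ := mem_Ed.1 h
    have h1 : t = (-1, j, false) := ed_inj rfl (iB_sub t ht) m1 e
    subst h1
    exact (mem_iB.1 ht).2 ⟨rfl, rfl, Or.inr rfl⟩
  have eE : Ed L hL (iA (2 * L) n m) = insert ((Cv L hL).ed (V (-1) i, dR (-1) i))
      (insert ((Cv L hL).ed (V (-1) j, dR (-1) j)) (Ed L hL (iB (2 * L) n m i j))) := by
    ext e
    rw [Finset.mem_insert, Finset.mem_insert, mem_Ed, mem_Ed]
    constructor
    · rintro ⟨⟨x, a, b⟩, ht, rfl⟩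
      by_cases c : b = false ∧ x = -1 ∧ (a = i ∨ a = j)
      · obtain ⟨rfl, rfl, rfl | rfl⟩ := c
        · exact Or.inl rfl
        · exact Or.inr (Or.inl rfl)
      · exact Or.inr (Or.inr ⟨(x, a, b), mem_iB.2 ⟨ht, c⟩, rfl⟩)
    · rintro (rfl | rfl | ⟨t, ht, rfl⟩)
      · exact ⟨_, m0, rfl⟩
      · exact ⟨_, m1, rfl⟩
      · exact ⟨t, iB_sub t ht, rfl⟩
  have hne : (V (-1) i, dR (-1) i) ≠ (V (-1) j, dR (-1) j) := by
    rw [Ne, Prod.mk.injEq, V_inj]
    omega
  have hne' : (Cv L hL).rv (V (-1) i, dR (-1) i) ≠ (V (-1) j, dR (-1) j) := by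
    rw [r1, Ne, Prod.mk.injEq, V_inj]
    omega
  have h1 := two_ended y (Edg_Ed iB_sub) hp hq a1 a2 hne hne' e1 e2 (Ed L hL (iA (2 * L) n m))
    (Edg_Ed fun _ h => h) eE
  rw [r1, r2] at h1
  refine h1.trans ?_
  refine Nm.main y {(V (-1) j, dR (-1) j)} _ (Dm0 L n m i j) rfl _ (Edg_Ed fun _ h => h)
    (V (-1) i, dR (-1) i) hp a1 ?_ ?_ ?_ ?_
  · rw [eE]
    exact Finset.mem_insert_self _ _
  · intro w hw d hd
    refine incl ?_ hd
    unfold Dm0 at hw
    exact Finset.mem_of_mem_erase (Finset.mem_of_mem_erase hw)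
  · intro h hh
    rw [Finset.mem_singleton] at hh
    rw [hh]
    exact a2
  · rw [Finset.mem_singleton]
    exact hne

end Pool.Agent.MXR
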